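import Pool.Agent.H111R2.Step

open Finset

namespace Pool.Agent.H111R2

/-! ### Verified numerical checks with natural numbers (scale `D = 10 ^ 9`) -/

/-- the scale -/
abbrev D : ℕ := 1000000000

/-- Horner scheme for the exponential series: numerator and denominator of
`1 + (q/(i D)) (1 + (q/((i+1) D)) (...))`. -/
def expPair (q : ℕ) : ℕ → ℕ → ℕ × ℕ
  | 0, _ => (1, 1)
  | n + 1, i =>
    let r := expPair q n (i + 1)
    (i * D * r.2 + q * r.1, i * D * r.2)

lemma expPair_pos (q : ℕ) : ∀ n i : ℕ, 1 ≤ i → 0 < (expPair q n i).2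
  | 0, _, _ => Nat.one_pos
  | n + 1, i, hi => by
    have := expPair_pos q n (i + 1) (by omega)
    simp only [expPair]
    positivity

lemma expPair_le (q : ℕ) : ∀ n i : ℕ,
    ∑ j ∈ range (i + 1), ((q:ℝ) / D) ^ j / (j.factorial : ℝ)
      + (((q:ℝ) / D) ^ (i + 1) / ((i + 1).factorial : ℝ)) *
        (((expPair q n (i + 2)).1 : ℝ) / ((expPair q n (i + 2)).2 : ℝ)) ≤ Real.exp ((q:ℝ) / D)
  | 0, i => by
    have h := Real.sum_le_exp_of_nonneg (x := (q:ℝ) / D) (by positivity) (i + 2)
    rw [Finset.sum_range_succ] at h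
    simpa [expPair] using h
  | n + 1, i => by
    have h := expPair_le q n (i + 1)
    rw [Finset.sum_range_succ] at h
    have hpos : (0:ℝ) < ((expPair q n (i + 3)).2 : ℝ) := by
      exact_mod_cast expPair_pos q n (i + 3) (by omega)
    have h2 : (((expPair q (n + 1) (i + 2)).1 : ℝ) / ((expPair q (n + 1) (i + 2)).2 : ℝ))
        = 1 + ((q:ℝ) / D) / (i + 2) * (((expPair q n (i + 3)).1 : ℝ) / (expPair q n (i + 3)).2) := by
      simp only [expPair]
      push_cast
      have : ((i:ℝ) + 2) ≠ 0 := by positivity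
      field_simp
    rw [h2]
    refine le_trans (le_of_eq ?_) h
    have h3 : ((i + 1 + 1).factorial : ℝ) = ((i:ℝ) + 2) * ((i + 1).factorial : ℝ) := by
      rw [Nat.factorial_succ (i + 1)]
      push_cast
      ring
    rw [h3]
    have h4 : ((i + 1).factorial : ℝ) ≠ 0 := by positivity
    have h5 : ((i:ℝ) + 2) ≠ 0 := by positivity
    have h6 : i + 1 + 2 = i + 3 := by omega
    rw [h6]
    field_simp
    ring

/-- `b / a ≤ exp (q / D)`, checked with `n` terms -/
def expGeN (n q b a : ℕ) : Bool :=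
  Nat.ble (b * (D * (expPair q n 2).2)) (a * (D * (expPair q n 2).2 + q * (expPair q n 2).1))

lemma expGeN_spec {n q b a : ℕ} (h : expGeN n q b a = true) :
    (b:ℝ) ≤ a * Real.exp ((q:ℝ) / D) := by
  unfold expGeN at h
  rw [Nat.ble_eq] at h
  have h1 := expPair_le q n 0
  have hpos : (0:ℝ) < ((expPair q n 2).2 : ℝ) := by
    exact_mod_cast expPair_pos q n 2 (by omega)
  simp only [zero_add, range_one, sum_singleton, pow_zero, Nat.factorial_zero, Nat.cast_one,
    div_one, pow_one, Nat.factorial_one] at h1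
  generalize expPair q n 2 = r at h h1 hpos
  have hD : ((D : ℕ) : ℝ) = 1000000000 := by norm_num
  have h2 : ((b * (D * r.2) : ℕ) : ℝ) ≤ ((a * (D * r.2 + q * r.1) : ℕ) : ℝ) := by exact_mod_cast h
  rw [Nat.cast_mul, Nat.cast_mul, Nat.cast_mul, Nat.cast_add, Nat.cast_mul, Nat.cast_mul, hD] at h2
  rw [hD] at h1 ⊢
  have h3 : (a:ℝ) * (1 + (q:ℝ) / 1000000000 * ((r.1 : ℝ) / r.2)) * (1000000000 * r.2)
      = (a:ℝ) * (1000000000 * r.2 + q * r.1) := by
    field_simp
  have h4 : (b:ℝ) * (1000000000 * r.2)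
      ≤ (a:ℝ) * (1 + (q:ℝ) / 1000000000 * ((r.1 : ℝ) / r.2)) * (1000000000 * r.2) := by
    rw [h3]
    exact h2
  have h5 : (b:ℝ) ≤ (a:ℝ) * (1 + (q:ℝ) / 1000000000 * ((r.1 : ℝ) / r.2)) :=
    le_of_mul_le_mul_right h4 (by positivity)
  refine h5.trans ?_
  exact mul_le_mul_of_nonneg_left h1 (by positivity)

/-- `b / a ≤ exp (q / D)` -/
def expGe (q b a : ℕ) : Bool := expGeN 18 q b a

lemma expGe_spec {q b a : ℕ} (h : expGe q b a = true) : (b:ℝ) ≤ a * Real.exp ((q:ℝ) / D) :=
  expGeN_spec (n := 18) h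

/-- A cell of the certificate; all numbers are in units of `1 / D`. -/
structure Cell where
  es : Bool
  lo : ℕ
  hi : ℕ
  X : ℕ
  Y : ℕ
  p : ℕ
  μ : ℕ
  L1 : ℕ
  L2 : ℕ
  β : ℕ
  wt : ℕ
  wk : ℕ
  Xt : ℕ
  Yt : ℕ

/-- local validity of a cell -/
def Cell.ok (c : Cell) : Bool :=
  if c.es then
    Nat.blt c.p D && Nat.blt 0 c.p && expGe c.X D c.μ && expGe c.Y D c.p && Nat.ble (c.μ + c.p) D
      && Nat.blt 0 c.μ
  else
    Nat.blt c.p D && Nat.blt 0 c.p && Nat.blt c.μ D && Nat.blt 0 c.μ && Nat.blt 0 c.wt &&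
    expGe c.Y (D + 1) (D - c.p) && expGe c.wt D c.μ && expGe c.L1 D (D - c.μ) &&
    expGe c.L2 D c.p && Nat.blt c.L1 c.wk &&
    Nat.blt (c.β * c.L2) ((D - c.μ) * (c.wk - c.L1)) &&
    Nat.ble (c.β * c.Xt) (c.wk * D) &&
    Nat.ble (c.wk * (D * D) + (c.wt * D + c.β * c.Yt) * c.lo) ((D + c.β) * (c.X * D + c.Y * c.lo)) &&
    Nat.ble (c.wk * (D * D) + (c.wt * D + c.β * c.Yt) * c.hi) ((D + c.β) * (c.X * D + c.Y * c.hi))

/-- the functional `(X, Y)` of the cell `c` is below the functional `f` on the cell -/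
def Cell.below (c : Cell) (f : ℕ × ℕ) : Bool :=
  Nat.ble (c.X * D + c.Y * c.lo) (f.1 * D + f.2 * c.lo) &&
  Nat.ble (c.X * D + c.Y * c.hi) (f.1 * D + f.2 * c.hi) &&
  Nat.ble (c.X * D + c.Y * c.lo) (f.2 * D + f.1 * c.lo) &&
  Nat.ble (c.X * D + c.Y * c.hi) (f.2 * D + f.1 * c.hi)

/-- consecutive cells cover `[a, D]` -/
def chain : ℕ → List Cell → Bool
  | a, [] => Nat.ble D a
  | a, c :: l => Nat.ble c.lo a && Nat.ble a c.hi && chain c.hi l

/-- all claimed functionals -/
def claims (l : List Cell) : List (ℕ × ℕ) :=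
  l.map (fun c => (c.X, c.Y)) ++ (l.filter (fun c => !c.es)).map (fun c => (c.Xt, c.Yt))

/-- the complete check -/
def check (l : List Cell) : Bool :=
  chain 0 l && l.all Cell.ok && l.all (fun c => (claims l).all (fun f => c.below f))

lemma chain_spec : ∀ (l : List Cell) (a : ℕ), chain a l = true → ∀ k n : ℕ, a * k ≤ D * n →
    n ≤ k → 1 ≤ n → (∃ c ∈ l, c.lo * k ≤ D * n ∧ D * n ≤ c.hi * k) ∨ (D * n = a * k)
  | [], a, h, k, n, h1, h2, h3 => by
    right
    simp only [chain, Nat.ble_eq] at h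
    have : D * n ≤ D * k := Nat.mul_le_mul_left _ h2
    have : D * k ≤ a * k := Nat.mul_le_mul_right _ h
    omega
  | c :: l, a, h, k, n, h1, h2, h3 => by
    simp only [chain, Bool.and_eq_true, Nat.ble_eq] at h
    obtain ⟨⟨h4, h5⟩, h6⟩ := h
    left
    rcases le_total (D * n) (c.hi * k) with h7 | h7
    · exact ⟨c, by simp, (Nat.mul_le_mul_right _ h4).trans h1, h7⟩
    · rcases chain_spec l c.hi h6 k n h7 h2 h3 with ⟨c', hc', h8⟩ | h8
      · exact ⟨c', by simp [hc'], h8⟩
      · refine ⟨c, by simp, ?_, h8.le⟩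
        exact (Nat.mul_le_mul_right _ h4).trans h1

lemma chain_cover {l : List Cell} (h : chain 0 l = true) {k n : ℕ} (h2 : n ≤ k) (h3 : 1 ≤ n) :
    ∃ c ∈ l, c.lo * k ≤ D * n ∧ D * n ≤ c.hi * k := by
  rcases chain_spec l 0 h k n (by omega) h2 h3 with h4 | h4
  · exact h4
  · exfalso
    have : 0 < D * n := by positivity
    omega

lemma lin_interp {a b lo hi x k : ℝ} (hk : 0 < k) (h1 : 0 ≤ a + b * lo) (h2 : 0 ≤ a + b * hi)
    (h3 : lo * k ≤ x) (h4 : x ≤ hi * k) : 0 ≤ a * k + b * x := by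
  rcases le_total 0 b with hb | hb
  · nlinarith [mul_nonneg h1 hk.le, mul_le_mul_of_nonneg_left h3 hb]
  · nlinarith [mul_nonneg h2 hk.le, mul_le_mul_of_nonpos_left h4 hb]

/-- the bound attached to a functional -/
noncomputable def Bd (C : ℝ) (f : ℕ × ℕ) (k l : ℕ) : ℝ :=
  C * Real.exp ((f.1 : ℝ) / D * k + (f.2 : ℝ) / D * l)

/-- all claims for `(k, l)` -/
def Claims (cl : List (ℕ × ℕ)) (C : ℝ) (k l : ℕ) : Prop :=
  ∀ {V : Type} [DecidableEq V] (G : SimpleGraph V) (S : Finset V), KFree G S k → KFree Gᶜ S l →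
    ∀ f ∈ cl, (S.card : ℝ) + 1 ≤ Bd C f k l ∧ (S.card : ℝ) + 1 ≤ Bd C (f.2, f.1) k l

lemma Claims.symm {cl : List (ℕ × ℕ)} {C : ℝ} {k l : ℕ} (h : Claims cl C k l) :
    Claims cl C l k := by
  intro V _ G S h1 h2 f hf
  have h3 : KFree Gᶜᶜ S l := by rw [compl_compl]; exact h1
  obtain ⟨h4, h5⟩ := h Gᶜ S h2 h3 f hf
  unfold Bd at h4 h5 ⊢
  simp only at h4 h5 ⊢
  refine ⟨h5.trans (le_of_eq ?_), h4.trans (le_of_eq ?_)⟩
  · congr 2; ring
  · congr 2; ring

lemma below_spec {c : Cell} {f : ℕ × ℕ} (h : c.below f = true) {k n : ℕ} (hk : 0 < k)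
    (h3 : c.lo * k ≤ D * n) (h4 : D * n ≤ c.hi * k) :
    (c.X : ℝ) / D * k + (c.Y : ℝ) / D * n ≤ (f.1 : ℝ) / D * k + (f.2 : ℝ) / D * n ∧
    (c.X : ℝ) / D * k + (c.Y : ℝ) / D * n ≤ (f.2 : ℝ) / D * k + (f.1 : ℝ) / D * n := by
  simp only [Cell.below, Bool.and_eq_true, Nat.ble_eq] at h
  obtain ⟨⟨⟨a1, a2⟩, a3⟩, a4⟩ := h
  have b1 : ((c.X:ℝ) * D + c.Y * c.lo) ≤ (f.1 * D + f.2 * c.lo) := by exact_mod_cast a1
  have b2 : ((c.X:ℝ) * D + c.Y * c.hi) ≤ (f.1 * D + f.2 * c.hi) := by exact_mod_cast a2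
  have b3 : ((c.X:ℝ) * D + c.Y * c.lo) ≤ (f.2 * D + f.1 * c.lo) := by exact_mod_cast a3
  have b4 : ((c.X:ℝ) * D + c.Y * c.hi) ≤ (f.2 * D + f.1 * c.hi) := by exact_mod_cast a4
  have c3 : (c.lo:ℝ) * k ≤ D * n := by exact_mod_cast h3
  have c4 : (D:ℝ) * n ≤ c.hi * k := by exact_mod_cast h4
  have hD : ((D:ℕ):ℝ) = 1000000000 := by norm_num
  simp only [hD] at b1 b2 b3 b4 c3 c4 ⊢
  have hkr : (0:ℝ) < k := by exact_mod_cast hk
  constructor
  · have := lin_interp (a := ((f.1:ℝ) - c.X) * 1000000000) (b := (f.2:ℝ) - c.Y) hkr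
      (by linarith) (by linarith) c3 c4
    linarith
  · have := lin_interp (a := ((f.2:ℝ) - c.X) * 1000000000) (b := (f.1:ℝ) - c.Y) hkr
      (by linarith) (by linarith) c3 c4
    linarith

/-- what a cell provides -/
def CellGood (c : Cell) (C : ℝ) : Prop :=
  ∀ k l : ℕ, 1 ≤ l → l ≤ k → c.lo * k ≤ D * l → D * l ≤ c.hi * k →
    ((c.X : ℝ) / D * k + (c.Y : ℝ) / D * l ≤ (c.Xt : ℝ) / D * k + (c.Yt : ℝ) / D * l ∨ c.es = true) →
    ∀ {V : Type} [DecidableEq V] (G : SimpleGraph V) (S : Finset V),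
      KFree G S k → KFree Gᶜ S l →
      (∀ T ⊆ S, ∀ v ∈ T, ((nb Gᶜ v T).card : ℝ) + 1 ≤ Bd C (c.X, c.Y) k (l - 1)) →
      (∀ T ⊆ S, ∀ v ∈ T, ((nb G v T).card : ℝ) + 1 ≤ Bd C (c.X, c.Y) (k - 1) l) →
      (c.es = false → ∀ Y ⊆ S, ∀ a < k, KFree G Y a → (Y.card : ℝ) + 1 ≤ Bd C (c.Xt, c.Yt) a l) →
      (S.card : ℝ) + 1 ≤ Bd C (c.X, c.Y) k l

lemma cellGood_of_ok (c : Cell) (h : c.ok = true) : ∀ᶠ C in Filter.atTop, CellGood c C := by
  have hD : ((D:ℕ):ℝ) = 1000000000 := by norm_num
  unfold Cell.ok at h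
  by_cases hes : c.es = true
  · rw [if_pos hes] at h
    simp only [Bool.and_eq_true, Nat.ble_eq, Nat.blt_eq] at h
    obtain ⟨⟨⟨⟨⟨h1, h2⟩, h3⟩, h4⟩, h5⟩, h6⟩ := h
    filter_upwards [Filter.eventually_ge_atTop (1:ℝ)] with C hC
    intro k l hl hlk _ _ _ V _ G S hSk hSl hB hR _
    have e3 := expGe_spec h3
    have e4 := expGe_spec h4
    rw [hD] at e3 e4
    have g3 : Real.exp (-((c.X:ℝ) / 1000000000)) ≤ (c.μ:ℝ) / 1000000000 := by
      rw [Real.exp_neg, inv_le_comm₀ (Real.exp_pos _) (by positivity), inv_div,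
        div_le_iff₀ (by positivity)]
      linarith
    have g4 : Real.exp (-((c.Y:ℝ) / 1000000000)) ≤ (c.p:ℝ) / 1000000000 := by
      rw [Real.exp_neg, inv_le_comm₀ (Real.exp_pos _) (by positivity), inv_div,
        div_le_iff₀ (by positivity)]
      linarith
    have g5 : (c.μ:ℝ) + c.p ≤ 1000000000 := by
      have : ((c.μ + c.p : ℕ) : ℝ) ≤ ((D:ℕ):ℝ) := by exact_mod_cast h5
      rw [hD] at this
      push_cast at this
      exact this
    have hXY : Real.exp (-((c.X:ℝ) / 1000000000)) + Real.exp (-((c.Y:ℝ) / 1000000000)) ≤ 1 := by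
      have : (c.μ:ℝ) / 1000000000 + (c.p:ℝ) / 1000000000 ≤ 1 := by
        rw [← add_div, div_le_one (by norm_num)]
        exact g5
      linarith
    have := es_step (X := (c.X:ℝ) / 1000000000) (Y := (c.Y:ℝ) / 1000000000) (C := C) (k := k) (l := l)
      hXY (by positivity) (by positivity) hC G S (by
        intro v hv
        have := hR S (Finset.Subset.refl _) v hv
        unfold Bd at this
        simp only at this
        rw [hD, Nat.cast_sub (by omega)] at this
        simpa using this) (by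
        intro v hv
        have := hB S (Finset.Subset.refl _) v hv
        unfold Bd at this
        simp only at this
        rw [hD, Nat.cast_sub (by omega)] at this
        simpa using this)
    unfold Bd
    simp only
    rw [hD]
    exact this
  · rw [if_neg hes] at h
    simp only [Bool.and_eq_true, Nat.ble_eq, Nat.blt_eq] at h
    obtain ⟨⟨⟨⟨⟨⟨⟨⟨⟨⟨⟨⟨⟨h1, h2⟩, h3⟩, h4⟩, h5⟩, h6⟩, h7⟩, h8⟩, h9⟩, h10⟩, h11⟩, h12⟩, h13⟩, h14⟩ := h
    have e6 := expGe_spec h6
    have e7 := expGe_spec h7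
    have e8 := expGe_spec h8
    have e9 := expGe_spec h9
    have hpD : c.p ≤ D := h1.le
    have hμD : c.μ ≤ D := h3.le
    rw [Nat.cast_sub hpD] at e6
    rw [Nat.cast_sub hμD] at e8
    have r1 : (c.p : ℝ) < 1000000000 := by rw [← hD]; exact_mod_cast h1
    have r2 : (0:ℝ) < c.p := by exact_mod_cast h2
    have r3 : (c.μ : ℝ) < 1000000000 := by rw [← hD]; exact_mod_cast h3
    have r4 : (0:ℝ) < c.μ := by exact_mod_cast h4
    have r5 : (0:ℝ) < c.wt := by exact_mod_cast h5
    have r10 : (c.L1 : ℝ) < c.wk := by exact_mod_cast h10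
    have r11 : (c.β : ℝ) * c.L2 < (1000000000 - c.μ) * (c.wk - c.L1) := by
      have : ((c.β * c.L2 : ℕ) : ℝ) < (((D - c.μ) * (c.wk - c.L1) : ℕ) : ℝ) := by exact_mod_cast h11
      rw [Nat.cast_mul, Nat.cast_mul, Nat.cast_sub hμD, Nat.cast_sub h10.le, hD] at this
      exact this
    have r12 : (c.β : ℝ) * c.Xt ≤ c.wk * 1000000000 := by
      rw [← hD]; exact_mod_cast h12
    have r13 : (c.wk:ℝ) * (1000000000 * 1000000000) + (c.wt * 1000000000 + c.β * c.Yt) * c.lo
        ≤ (1000000000 + c.β) * (c.X * 1000000000 + c.Y * c.lo) := by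
      rw [← hD]; exact_mod_cast h13
    have r14 : (c.wk:ℝ) * (1000000000 * 1000000000) + (c.wt * 1000000000 + c.β * c.Yt) * c.hi
        ≤ (1000000000 + c.β) * (c.X * 1000000000 + c.Y * c.hi) := by
      rw [← hD]; exact_mod_cast h14
    push_cast at e6 e7 e8 e9
    -- derived real inequalities
    set Xr := (c.X:ℝ) / 1000000000 with hXr
    set Yr := (c.Y:ℝ) / 1000000000 with hYr
    set pr := (c.p:ℝ) / 1000000000 with hpr
    set μr := (c.μ:ℝ) / 1000000000 with hμr
    set βr := (c.β:ℝ) / 1000000000 with hβr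
    set wtr := (c.wt:ℝ) / 1000000000 with hwtr
    set wkr := (c.wk:ℝ) / 1000000000 with hwkr
    set Xtr := (c.Xt:ℝ) / 1000000000 with hXtr
    set Ytr := (c.Yt:ℝ) / 1000000000 with hYtr
    have hp0 : 0 < pr := by positivity
    have hp1 : pr < 1 := by rw [hpr, div_lt_one (by norm_num)]; exact r1
    have hμ1 : μr < 1 := by rw [hμr, div_lt_one (by norm_num)]; exact r3
    have hμ0 : 0 < μr := by positivity
    have hβ0 : 0 ≤ βr := by positivity
    have hwt0 : 0 < wtr := by positivity
    have hpY : Real.exp (-Yr) < 1 - pr := by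
      rw [Real.exp_neg, inv_lt_comm₀ (Real.exp_pos _) (by linarith)]
      have h1p : (0:ℝ) < 1000000000 - c.p := by linarith
      have : (1 - pr)⁻¹ = 1000000000 / (1000000000 - c.p) := by
        rw [hpr]
        field_simp
      rw [this, div_lt_iff₀ h1p]
      linarith
    have hμexp : Real.exp (-wtr) ≤ μr := by
      rw [Real.exp_neg, inv_le_comm₀ (Real.exp_pos _) hμ0, hμr, inv_div, div_le_iff₀ r4]
      linarith
    have hL1 : -Real.log (1 - μr) ≤ (c.L1:ℝ) / 1000000000 := by
      rw [← Real.log_inv, Real.log_le_iff_le_exp (by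
        apply inv_pos.mpr; linarith)]
      have h1p : (0:ℝ) < 1000000000 - c.μ := by linarith
      have : (1 - μr)⁻¹ = 1000000000 / (1000000000 - c.μ) := by
        rw [hμr]
        field_simp
      rw [this, div_le_iff₀ h1p]
      linarith
    have hL2 : -Real.log pr ≤ (c.L2:ℝ) / 1000000000 := by
      rw [← Real.log_inv, Real.log_le_iff_le_exp (by positivity), hpr, inv_div, div_le_iff₀ r2]
      linarith
    have hlogμ : Real.log (1 - μr) ≤ Real.log (1 - Real.exp (-wtr)) :=
      Real.log_le_log (by linarith) (by linarith)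
    have hθ1 : 0 < wkr - (c.L1:ℝ) / 1000000000 := by
      rw [hwkr, ← sub_div]
      apply div_pos _ (by norm_num)
      linarith
    have hθ2 : wkr - (c.L1:ℝ) / 1000000000 ≤ wkr + Real.log (1 - Real.exp (-wtr)) := by linarith
    have hθ : 0 < wkr + Real.log (1 - Real.exp (-wtr)) := lt_of_lt_of_le hθ1 hθ2
    have hgap : βr * (-Real.log pr)
        < (1 - Real.exp (-wtr)) * (wkr + Real.log (1 - Real.exp (-wtr))) := by
      calc βr * (-Real.log pr) ≤ βr * ((c.L2:ℝ) / 1000000000) := mul_le_mul_of_nonneg_left hL2 hβ0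
        _ < (1 - μr) * (wkr - (c.L1:ℝ) / 1000000000) := by
          rw [hβr, hμr, hwkr]
          have : ((c.β:ℝ) / 1000000000 * ((c.L2:ℝ) / 1000000000)) = (c.β * c.L2) / (1000000000 * 1000000000) := by
            ring
          rw [this]
          have : (1 - (c.μ:ℝ) / 1000000000) * ((c.wk:ℝ) / 1000000000 - (c.L1:ℝ) / 1000000000)
              = ((1000000000 - c.μ) * (c.wk - c.L1)) / (1000000000 * 1000000000) := by
            ring
          rw [this]
          exact div_lt_div_of_pos_right r11 (by norm_num)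
        _ ≤ _ := by
          apply mul_le_mul _ hθ2 hθ1.le _
          · linarith
          · have : Real.exp (-wtr) < 1 := by rw [Real.exp_lt_one_iff]; linarith
            linarith
    have hXt : βr * Xtr ≤ wkr := by
      rw [hβr, hXtr, hwkr]
      have : (c.β:ℝ) / 1000000000 * ((c.Xt:ℝ) / 1000000000) = (c.β * c.Xt) / (1000000000 * 1000000000) := by ring
      rw [this]
      have : (c.wk:ℝ) / 1000000000 = (c.wk * 1000000000) / (1000000000 * 1000000000) := by ring
      rw [this]
      exact div_le_div_of_nonneg_right r12 (by norm_num)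
    obtain ⟨C0, hC0⟩ := cell_step (Xc := Xr) (Yc := Yr) (p := pr) (β := βr) (wt := wtr) (wk := wkr)
      (X' := Xtr) (Y' := Ytr) (by positivity) (by positivity) hβ0 hp0 hp1 hwt0 hpY hθ hgap hXt
    filter_upwards [Filter.eventually_ge_atTop C0] with C hC
    intro k l hl hlk hlo hhi hmin V _ G S hSk hSl hB _ hT
    have hesf : c.es = false := by simpa using hes
    have hmin' := hmin.resolve_right hes
    have hkpos : (0:ℝ) < k := by exact_mod_cast (by omega : 0 < k)
    have := hC0 C hC k l hl (by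
      have c3 : (c.lo:ℝ) * k ≤ 1000000000 * l := by rw [← hD]; exact_mod_cast hlo
      have c4 : (1000000000:ℝ) * l ≤ c.hi * k := by rw [← hD]; exact_mod_cast hhi
      have := lin_interp (a := ((1000000000 + c.β) * (c.X * 1000000000) - c.wk * (1000000000 * 1000000000) : ℝ))
        (b := ((1000000000 + c.β) * c.Y - (c.wt * 1000000000 + c.β * c.Yt) : ℝ)) hkpos
        (by linarith) (by linarith) c3 c4
      have h2 : (1 + βr) * (Xr * k + Yr * l) - (wkr * k + (wtr + βr * Ytr) * l)
          = (((1000000000 + c.β) * (c.X * 1000000000) - c.wk * (1000000000 * 1000000000) : ℝ) * k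
            + ((1000000000 + c.β) * c.Y - (c.wt * 1000000000 + c.β * c.Yt) : ℝ) * (1000000000 * l))
            / (1000000000 * 1000000000 * 1000000000) := by
        rw [hβr, hXr, hYr, hwkr, hwtr, hYtr]
        ring
      have h3 : 0 ≤ (1 + βr) * (Xr * k + Yr * l) - (wkr * k + (wtr + βr * Ytr) * l) := by
        rw [h2]
        positivity
      linarith) (by
        rw [hD] at hmin'
        exact hmin') G S hSk hSl (by
        intro T hT' v hv
        have := hB T hT' v hv
        unfold Bd at this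
        simp only at this
        rw [hD, Nat.cast_sub (by omega)] at this
        simpa using this) (by
        intro Y hY a ha hYa
        have := hT hesf Y hY a ha hYa
        unfold Bd at this
        simp only at this
        rw [hD] at this
        exact this)
    unfold Bd
    simp only
    rw [hD]
    exact this

/-- **Main theorem from a certificate.** -/
theorem main_of_check (cells : List Cell) (h : check cells = true) :
    ∃ C : ℝ, 0 < C ∧ ∀ k l : ℕ, Claims (claims cells) C k l := by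
  simp only [check, Bool.and_eq_true, List.all_eq_true] at h
  obtain ⟨⟨hchain, hok⟩, hbelow⟩ := h
  have hall : ∀ᶠ C in Filter.atTop, ∀ c ∈ cells, CellGood c C := by
    have : ∀ l : List Cell, (∀ c ∈ l, c.ok = true) → ∀ᶠ C in Filter.atTop, ∀ c ∈ l, CellGood c C := by
      intro l
      induction l with
      | nil => intro _; exact Filter.Eventually.of_forall (by simp)
      | cons c l ih =>
        intro hl
        filter_upwards [cellGood_of_ok c (hl c (by simp)), ih (fun c' hc' => hl c' (by simp [hc']))]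
          with C h1 h2
        intro c' hc'
        rcases List.mem_cons.mp hc' with rfl | h3
        · exact h1
        · exact h2 c' h3
    exact this cells hok
  obtain ⟨C, hCgood, hC1⟩ := (hall.and (Filter.eventually_ge_atTop (1:ℝ))).exists
  refine ⟨C, by linarith, ?_⟩
  have hmain : ∀ n k l : ℕ, k + l = n → Claims (claims cells) C k l := by
    intro n
    induction n using Nat.strong_induction_on with
    | _ n ih =>
      -- it suffices to treat `l ≤ k`
      have key : ∀ k l : ℕ, k + l = n → l ≤ k → Claims (claims cells) C k l := by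
        intro k l hkl hlk V _ G S hSk hSl f hf
        rcases Nat.eq_zero_or_pos l with rfl | hl
        · exact absurd hSl.zero id
        have hk : 0 < k := by omega
        obtain ⟨c, hc, hlo, hhi⟩ := chain_cover hchain hlk hl
        have hb := below_spec (hbelow c hc f hf) hk hlo hhi
        have hcX : (c.X, c.Y) ∈ claims cells := by
          unfold claims
          rw [List.mem_append]
          left
          exact List.mem_map.mpr ⟨c, hc, rfl⟩
        have hS : (S.card : ℝ) + 1 ≤ Bd C (c.X, c.Y) k l := by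
          refine hCgood c hc k l hl hlk hlo hhi ?_ G S hSk hSl ?_ ?_ ?_
          · by_cases hes : c.es = true
            · exact Or.inr hes
            · left
              have hmem : (c.Xt, c.Yt) ∈ claims cells := by
                unfold claims
                rw [List.mem_append]
                right
                exact List.mem_map.mpr ⟨c, List.mem_filter.mpr ⟨hc, by simpa using hes⟩, rfl⟩
              exact (below_spec (hbelow c hc _ hmem) hk hlo hhi).1
          · intro T hT v hv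
            refine (ih (k + (l - 1)) (by omega) k (l - 1) rfl G (nb Gᶜ v T)
              (hSk.mono ((nb_subset _ _ _).trans hT)) ?_ _ hcX).1
            have : l = (l - 1) + 1 := by omega
            rw [this] at hSl
            exact hSl.step (hT hv) ((nb_subset _ _ _).trans hT) (fun y hy => (mem_nb.mp hy).2)
          · intro T hT v hv
            refine (ih ((k - 1) + l) (by omega) (k - 1) l rfl G (nb G v T) ?_
              (hSl.mono ((nb_subset _ _ _).trans hT)) _ hcX).1
            have : k = (k - 1) + 1 := by omega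
            rw [this] at hSk
            exact hSk.step (hT hv) ((nb_subset _ _ _).trans hT) (fun y hy => (mem_nb.mp hy).2)
          · intro hes Y hY a ha hYa
            have hmem : (c.Xt, c.Yt) ∈ claims cells := by
              unfold claims
              rw [List.mem_append]
              right
              exact List.mem_map.mpr ⟨c, List.mem_filter.mpr ⟨hc, by simp [hes]⟩, rfl⟩
            exact (ih (a + l) (by omega) a l rfl G Y hYa (hSl.mono hY) _ hmem).1
        constructor
        · refine hS.trans ?_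
          unfold Bd
          exact mul_le_mul_of_nonneg_left (Real.exp_le_exp.mpr hb.1) (by linarith)
        · refine hS.trans ?_
          unfold Bd
          exact mul_le_mul_of_nonneg_left (Real.exp_le_exp.mpr hb.2) (by linarith)
      intro k l hkl
      rcases le_total l k with h1 | h1
      · exact key k l hkl h1
      · exact Claims.symm (key l k (by omega) h1)
  intro k l
  exact hmain (k + l) k l rfl

end Pool.Agent.H111R2
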