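import Pool.Agent.H111R2.Chain

open Finset

namespace Pool.Agent.H111R2

/-- An interval `[a, hi]` of densities (the lower end `a` is the upper end of the previous one)
together with the chain of stages which excludes it. `f` is (twice) the index of the functional used
for the first line, plus the orientation. -/
structure Ival where
  hi : ℕ
  pR : ℕ
  LR : ℕ
  pB : ℕ
  LB : ℕ
  red : Bool
  f : ℕ
  st : List ℕ

/-- the oriented functional with index `f` -/
def getF (cl : List (ℕ × ℕ)) (f : ℕ) : Option (ℕ × ℕ) :=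
  match cl[f / 2]? with
  | none => none
  | some g => if f % 2 = 0 then some g else some (g.2, g.1)

def Ival.ok (menu : List Mu) (cl : List (ℕ × ℕ)) (X Y lo hi a : ℕ) (iv : Ival) : Bool :=
  match getF cl iv.f, iv.st with
  | some g, n :: rest =>
    match menu[n % 128]? with
    | none => false
    | some m =>
      let okR := pok iv.pR iv.LR && Nat.blt iv.pR a
      let okB := pok iv.pB iv.LB && Nat.blt (iv.pB + iv.hi) D
      let β := n / 128
      if iv.red then
        okR && (rest.isEmpty || okB) &&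
          run menu Y X iv.LB iv.LR lo D hi D (cdiv ((β : ℕ) * ((g.2 : ℤ) - Y)))
            (cdiv ((β : ℕ) * ((0 : ℤ) - X)) + wkOf m iv.LR β g.1) m.wt rest
      else
        okB && (rest.isEmpty || okR) &&
          run menu X Y iv.LR iv.LB D lo D hi (cdiv ((β : ℕ) * ((g.1 : ℤ) - X)))
            (cdiv ((β : ℕ) * ((0 : ℤ) - Y)) + wkOf m iv.LB β g.2) m.wt rest
  | _, _ => false

/-- the lines provided by the claims -/
def Lines {V : Type} [DecidableEq V] (cl : List (ℕ × ℕ)) (C : ℝ) (G : SimpleGraph V) (S : Finset V)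
    (k l : ℕ) : Prop :=
  ∀ g ∈ cl,
    (Line G S k l 0 ((g.2:ℝ) / 1000000000) ((g.1:ℝ) / 1000000000) C ∧
     Line G S k l 0 ((g.1:ℝ) / 1000000000) ((g.2:ℝ) / 1000000000) C) ∧
    (Line Gᶜ S l k 0 ((g.1:ℝ) / 1000000000) ((g.2:ℝ) / 1000000000) C ∧
     Line Gᶜ S l k 0 ((g.2:ℝ) / 1000000000) ((g.1:ℝ) / 1000000000) C)

lemma getF_spec {V : Type} [DecidableEq V] {cl : List (ℕ × ℕ)} {f : ℕ} {g : ℕ × ℕ}
    (h : getF cl f = some g) {C : ℝ} {G : SimpleGraph V} {S : Finset V} {k l : ℕ}
    (hL : Lines cl C G S k l) :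
    Line G S k l 0 ((g.2:ℝ) / 1000000000) ((g.1:ℝ) / 1000000000) C ∧
    Line Gᶜ S l k 0 ((g.1:ℝ) / 1000000000) ((g.2:ℝ) / 1000000000) C := by
  unfold getF at h
  split at h
  · exact absurd h (by simp)
  · rename_i g' hg'
    have hmem := List.mem_of_getElem? hg'
    have := hL g' hmem
    split at h
    · simp only [Option.some.injEq] at h
      subst h
      exact ⟨this.1.1, this.2.1⟩
    · simp only [Option.some.injEq] at h
      subst h
      exact ⟨this.1.2, this.2.2⟩

lemma ival_sound (menu : List Mu) (hmenu : ∀ m ∈ menu, m.ok = true) (cl : List (ℕ × ℕ))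
    (X Y lo hi a : ℕ) (iv : Ival) (h : iv.ok menu cl X Y lo hi a = true) (ε : ℝ) (hε : 0 < ε) :
    ∀ᶠ C : ℝ in Filter.atTop, ∀ k l : ℕ, Cone 1000000000 lo 1000000000 hi k l →
      ∀ {V : Type} [DecidableEq V] (G : SimpleGraph V) (S : Finset V),
        KFree G S k → KFree Gᶜ S l →
        ε * (C * Real.exp ((X:ℝ) / 1000000000 * k + (Y:ℝ) / 1000000000 * l)) ≤ S.card →
        ∀ d : ℝ, (a:ℝ) / 1000000000 ≤ d → d ≤ (iv.hi : ℝ) / 1000000000 →
        (∀ x ∈ S, (d - 1 / 2000000000) * S.card ≤ ((nb G x S).card : ℝ)) →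
        (∀ x ∈ S, (1 - d - 1 / 2000000000) * S.card ≤ ((nb Gᶜ x S).card : ℝ)) →
        Lines cl C G S k l → False := by
  have hD : ((D:ℕ):ℝ) = 1000000000 := by norm_num
  unfold Ival.ok at h
  split at h
  · rename_i g n rest hg hst
    split at h
    · exact absurd h (by simp)
    · rename_i m hm
      have hmem : m ∈ menu := List.mem_of_getElem? hm
      -- density facts
      have hexR : Nat.blt iv.pR a = true → ∀ {V : Type} [DecidableEq V] (G : SimpleGraph V)
          (S : Finset V) (d : ℝ), (a:ℝ) / 1000000000 ≤ d →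
          (∀ x ∈ S, (d - 1 / 2000000000) * S.card ≤ ((nb G x S).card : ℝ)) →
          ∀ x ∈ S, (1:ℝ) / 2000000000 ≤ ex G ((iv.pR:ℝ) / 1000000000) S x := by
        intro hblt V _ G S d hda hdeg x hx
        rw [Nat.blt_eq] at hblt
        have h1 : (iv.pR:ℝ) + 1 ≤ a := by exact_mod_cast hblt
        have hSpos : (0:ℝ) < S.card := by
          exact_mod_cast Finset.card_pos.mpr ⟨x, hx⟩
        have h2 : d - 1 / 2000000000 ≤ ((nb G x S).card : ℝ) / S.card := by
          rw [le_div_iff₀ hSpos]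
          exact hdeg x hx
        have h3 : ((nb G x S).card : ℝ) / S.card - (iv.pR:ℝ) / 1000000000
            ≤ ex G ((iv.pR:ℝ) / 1000000000) S x := le_max_right _ _
        have h4 : ((iv.pR:ℝ) + 1) / 1000000000 ≤ (a:ℝ) / 1000000000 :=
          div_le_div_of_nonneg_right h1 (by norm_num)
        have h5 : ((iv.pR:ℝ) + 1) / 1000000000 = (iv.pR:ℝ) / 1000000000 + 1 / 1000000000 := by ring
        rw [h5] at h4
        linarith
      have hexB : Nat.blt (iv.pB + iv.hi) D = true → ∀ {V : Type} [DecidableEq V]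
          (G : SimpleGraph V) (S : Finset V) (d : ℝ), d ≤ (iv.hi : ℝ) / 1000000000 →
          (∀ x ∈ S, (1 - d - 1 / 2000000000) * S.card ≤ ((nb Gᶜ x S).card : ℝ)) →
          ∀ x ∈ S, (1:ℝ) / 2000000000 ≤ ex Gᶜ ((iv.pB:ℝ) / 1000000000) S x := by
        intro hblt V _ G S d hda hdeg x hx
        rw [Nat.blt_eq] at hblt
        have h1 : (iv.pB:ℝ) + iv.hi + 1 ≤ 1000000000 := by
          rw [← hD]
          exact_mod_cast hblt
        have hSpos : (0:ℝ) < S.card := by
          exact_mod_cast Finset.card_pos.mpr ⟨x, hx⟩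
        have h2 : 1 - d - 1 / 2000000000 ≤ ((nb Gᶜ x S).card : ℝ) / S.card := by
          rw [le_div_iff₀ hSpos]
          exact hdeg x hx
        have h3 : ((nb Gᶜ x S).card : ℝ) / S.card - (iv.pB:ℝ) / 1000000000
            ≤ ex Gᶜ ((iv.pB:ℝ) / 1000000000) S x := le_max_right _ _
        have h4 : ((iv.pB:ℝ) + iv.hi + 1) / 1000000000 ≤ (1000000000:ℝ) / 1000000000 :=
          div_le_div_of_nonneg_right h1 (by norm_num)
        have h5 : ((iv.pB:ℝ) + iv.hi + 1) / 1000000000
            = (iv.pB:ℝ) / 1000000000 + (iv.hi:ℝ) / 1000000000 + 1 / 1000000000 := by ring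
        rw [h5, div_self (by norm_num)] at h4
        linarith
      have hd0 : (0:ℝ) < 1 / 2000000000 := by norm_num
      simp only at h
      split at h
      · simp only [Bool.and_eq_true, Bool.or_eq_true] at h
        obtain ⟨⟨⟨hpR, hltR⟩, hB⟩, hrun⟩ := h
        obtain ⟨Λ', hΛ'0, hΛ'⟩ := stageZ (hmenu m hmem) (p := iv.pR) (L := iv.LR) (X := X) (Y := Y)
          (β := n / 128) (A := 0) (B := g.2) (E := g.1) hpR hε hd0 (show (0:ℝ) < 1 by norm_num)
        have hB' : 1 ≤ rest.length → pok iv.pB iv.LB = true ∧ Nat.blt (iv.pB + iv.hi) D = true := by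
          intro hlen
          rcases hB with h1 | h1
          · rw [List.isEmpty_iff] at h1
            rw [h1] at hlen
            exact absurd hlen (by simp)
          · exact h1
        have hrest := run_sound menu hmenu rest Y X iv.pB iv.pR iv.LB iv.LR lo D hi D _ _ _ hrun
          (fun h => (hB' h).1) (fun _ => hpR) ε (1 / 2000000000) Λ' hε hd0 hΛ'0
        filter_upwards [hrest, Filter.eventually_ge_atTop (1:ℝ)] with C hC hC1
        intro k l hcone V _ G S hSk hSl hSlow d hda hdhi hdR hdB hL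
        have hline := (getF_spec hg hL).1
        refine hC l k (by rw [hD]; exact hcone.swap) Gᶜ S hSl (by rw [compl_compl]; exact hSk) ?_ ?_ ?_ ?_
        · rw [add_comm]; exact hSlow
        · intro h
          exact hexB (hB' h).2 G S d hdhi hdB
        · intro _
          rw [compl_compl]
          exact hexR hltR G S d hda hdR
        · have := hΛ' C (by linarith) k l G S hSk hSlow (hexR hltR G S d hda hdR) (by
            rw [one_mul, Int.cast_zero, zero_div, Int.cast_natCast, Int.cast_natCast]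
            exact hline)
          rw [← Int.cast_natCast (R := ℝ) m.wt] at this
          exact this
      · simp only [Bool.and_eq_true, Bool.or_eq_true] at h
        obtain ⟨⟨⟨hpB, hltB⟩, hR⟩, hrun⟩ := h
        obtain ⟨Λ', hΛ'0, hΛ'⟩ := stageZ (hmenu m hmem) (p := iv.pB) (L := iv.LB) (X := Y) (Y := X)
          (β := n / 128) (A := 0) (B := g.1) (E := g.2) hpB hε hd0 (show (0:ℝ) < 1 by norm_num)
        have hR' : 1 ≤ rest.length → pok iv.pR iv.LR = true ∧ Nat.blt iv.pR a = true := by
          intro hlen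
          rcases hR with h1 | h1
          · rw [List.isEmpty_iff] at h1
            rw [h1] at hlen
            exact absurd hlen (by simp)
          · exact h1
        have hrest := run_sound menu hmenu rest X Y iv.pR iv.pB iv.LR iv.LB D lo D hi _ _ _ hrun
          (fun h => (hR' h).1) (fun _ => hpB) ε (1 / 2000000000) Λ' hε hd0 hΛ'0
        filter_upwards [hrest, Filter.eventually_ge_atTop (1:ℝ)] with C hC hC1
        intro k l hcone V _ G S hSk hSl hSlow d hda hdhi hdR hdB hL
        have hline := (getF_spec hg hL).2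
        refine hC k l (by rw [hD]; exact hcone) G S hSk hSl hSlow ?_ ?_ ?_
        · intro h
          exact hexR (hR' h).2 G S d hda hdR
        · intro _
          exact hexB hltB G S d hdhi hdB
        · have := hΛ' C (by linarith) l k Gᶜ S hSl (by rw [add_comm]; exact hSlow)
            (hexB hltB G S d hdhi hdB) (by
            rw [one_mul, Int.cast_zero, zero_div, Int.cast_natCast, Int.cast_natCast]
            exact hline)
          rw [← Int.cast_natCast (R := ℝ) m.wt, compl_compl] at this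
          exact this
  · exact absurd h (by simp)

/-- consecutive intervals cover `(a, 1]` -/
def ivs (menu : List Mu) (cl : List (ℕ × ℕ)) (X Y lo hi : ℕ) : ℕ → List Ival → Bool
  | a, [] => Nat.ble D a
  | a, iv :: l => iv.ok menu cl X Y lo hi a && ivs menu cl X Y lo hi iv.hi l

lemma ivs_sound (menu : List Mu) (hmenu : ∀ m ∈ menu, m.ok = true) (cl : List (ℕ × ℕ))
    (X Y lo hi : ℕ) (ε : ℝ) (hε : 0 < ε) : ∀ (l : List Ival) (a : ℕ),
    ivs menu cl X Y lo hi a l = true →
    ∀ᶠ C : ℝ in Filter.atTop, ∀ k l : ℕ, Cone 1000000000 lo 1000000000 hi k l →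
      ∀ {V : Type} [DecidableEq V] (G : SimpleGraph V) (S : Finset V),
        KFree G S k → KFree Gᶜ S l →
        ε * (C * Real.exp ((X:ℝ) / 1000000000 * k + (Y:ℝ) / 1000000000 * l)) ≤ S.card →
        ∀ d : ℝ, (a:ℝ) / 1000000000 < d → d ≤ 1 →
        (∀ x ∈ S, (d - 1 / 2000000000) * S.card ≤ ((nb G x S).card : ℝ)) →
        (∀ x ∈ S, (1 - d - 1 / 2000000000) * S.card ≤ ((nb Gᶜ x S).card : ℝ)) →
        Lines cl C G S k l → False
  | [], a, h => by
    have hD : ((D:ℕ):ℝ) = 1000000000 := by norm_num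
    simp only [ivs, Nat.ble_eq] at h
    refine Filter.Eventually.of_forall ?_
    intro C k l _ V _ G S _ _ _ d h1 h2
    exfalso
    have : (1000000000:ℝ) ≤ a := by rw [← hD]; exact_mod_cast h
    rw [div_lt_iff₀ (by norm_num)] at h1
    linarith
  | iv :: rest, a, h => by
    simp only [ivs, Bool.and_eq_true] at h
    filter_upwards [ival_sound menu hmenu cl X Y lo hi a iv h.1 ε hε,
      ivs_sound menu hmenu cl X Y lo hi ε hε rest iv.hi h.2] with C h1 h2
    intro k l hcone V _ G S hSk hSl hSlow d hd1 hd2 hdR hdB hL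
    rcases le_or_gt d ((iv.hi : ℝ) / 1000000000) with h3 | h3
    · exact h1 k l hcone G S hSk hSl hSlow d hd1.le h3 hdR hdB hL
    · exact h2 k l hcone G S hSk hSl hSlow d h3 hd2 hdR hdB hL

/-- A cell of the new certificate; all numbers are in units of `1 / D`. -/
structure Cell2 where
  es : Bool
  lo : ℕ
  hi : ℕ
  X : ℕ
  Y : ℕ
  px : ℕ
  py : ℕ
  ivs : List Ival

/-- claimed functionals -/
def claims2 (l : List Cell2) : List (ℕ × ℕ) := l.map (fun c => (c.X, c.Y))

def Cell2.ok (menu : List Mu) (cl : List (ℕ × ℕ)) (c : Cell2) : Bool :=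
  if c.es then
    Nat.blt 0 c.px && Nat.blt 0 c.py && expGe c.X D c.px && expGe c.Y D c.py &&
      Nat.ble (c.px + c.py) D
  else
    Nat.blt c.px D && expGe c.Y (D + 1) (D - c.px) &&
      H111R2.ivs menu cl c.X c.Y c.lo c.hi c.px c.ivs

/-- the functional `(X, Y)` of the cell `c` is below the functional `f` on the cell -/
def Cell2.below (c : Cell2) (f : ℕ × ℕ) : Bool :=
  Nat.ble (c.X * D + c.Y * c.lo) (f.1 * D + f.2 * c.lo) &&
  Nat.ble (c.X * D + c.Y * c.hi) (f.1 * D + f.2 * c.hi) &&
  Nat.ble (c.X * D + c.Y * c.lo) (f.2 * D + f.1 * c.lo) &&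
  Nat.ble (c.X * D + c.Y * c.hi) (f.2 * D + f.1 * c.hi)

/-- consecutive cells cover `[a, D]` -/
def chain2 : ℕ → List Cell2 → Bool
  | a, [] => Nat.ble D a
  | a, c :: l => Nat.ble c.lo a && Nat.ble a c.hi && chain2 c.hi l

/-- the complete check -/
def check2 (menu : List Mu) (l : List Cell2) : Bool :=
  menu.all Mu.ok && chain2 0 l && l.all (Cell2.ok menu (claims2 l)) &&
    l.all (fun c => (claims2 l).all (fun f => c.below f))

lemma chain2_spec : ∀ (l : List Cell2) (a : ℕ), chain2 a l = true → ∀ k n : ℕ, a * k ≤ D * n →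
    n ≤ k → 1 ≤ n → (∃ c ∈ l, c.lo * k ≤ D * n ∧ D * n ≤ c.hi * k) ∨ (D * n = a * k)
  | [], a, h, k, n, h1, h2, h3 => by
    right
    simp only [chain2, Nat.ble_eq] at h
    have : D * n ≤ D * k := Nat.mul_le_mul_left _ h2
    have : D * k ≤ a * k := Nat.mul_le_mul_right _ h
    omega
  | c :: l, a, h, k, n, h1, h2, h3 => by
    simp only [chain2, Bool.and_eq_true, Nat.ble_eq] at h
    obtain ⟨⟨h4, h5⟩, h6⟩ := h
    left
    rcases le_total (D * n) (c.hi * k) with h7 | h7
    · exact ⟨c, by simp, (Nat.mul_le_mul_right _ h4).trans h1, h7⟩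
    · rcases chain2_spec l c.hi h6 k n h7 h2 h3 with ⟨c', hc', h8⟩ | h8
      · exact ⟨c', by simp [hc'], h8⟩
      · refine ⟨c, by simp, ?_, h8.le⟩
        exact (Nat.mul_le_mul_right _ h4).trans h1

lemma chain2_cover {l : List Cell2} (h : chain2 0 l = true) {k n : ℕ} (h2 : n ≤ k) (h3 : 1 ≤ n) :
    ∃ c ∈ l, c.lo * k ≤ D * n ∧ D * n ≤ c.hi * k := by
  rcases chain2_spec l 0 h k n (by omega) h2 h3 with h4 | h4
  · exact h4
  · exfalso
    have : 0 < D * n := by positivity
    omega

lemma below2_spec {c : Cell2} {f : ℕ × ℕ} (h : c.below f = true) {k n : ℕ} (hk : 0 < k)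
    (h3 : c.lo * k ≤ D * n) (h4 : D * n ≤ c.hi * k) :
    (c.X : ℝ) / D * k + (c.Y : ℝ) / D * n ≤ (f.1 : ℝ) / D * k + (f.2 : ℝ) / D * n ∧
    (c.X : ℝ) / D * k + (c.Y : ℝ) / D * n ≤ (f.2 : ℝ) / D * k + (f.1 : ℝ) / D * n := by
  simp only [Cell2.below, Bool.and_eq_true, Nat.ble_eq] at h
  obtain ⟨⟨⟨a1, a2⟩, a3⟩, a4⟩ := h
  have b1 : ((c.X:ℝ) * D + c.Y * c.lo) ≤ (f.1 * D + f.2 * c.lo) := by exact_mod_cast a1
  have b2 : ((c.X:ℝ) * D + c.Y * c.hi) ≤ (f.1 * D + f.2 * c.hi) := by exact_mod_cast a2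
  have b3 : ((c.X:ℝ) * D + c.Y * c.lo) ≤ (f.2 * D + f.1 * c.lo) := by exact_mod_cast a3
  have b4 : ((c.X:ℝ) * D + c.Y * c.hi) ≤ (f.2 * D + f.1 * c.hi) := by exact_mod_cast a4
  have c3 : (c.lo:ℝ) * k ≤ D * n := by exact_mod_cast h3
  have c4 : (D:ℝ) * n ≤ c.hi * k := by exact_mod_cast h4
  have hD : ((D:ℕ):ℝ) = 1000000000 := by norm_num
  simp only [hD] at b1 b2 b3 b4 c3 c4 ⊢
  have hkr : (0:ℝ) < k := by exact_mod_cast hk
  constructor
  · have := lin_interp (a := ((f.1:ℝ) - c.X) * 1000000000) (b := (f.2:ℝ) - c.Y) hkr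
      (by linarith) (by linarith) c3 c4
    linarith
  · have := lin_interp (a := ((f.2:ℝ) - c.X) * 1000000000) (b := (f.1:ℝ) - c.Y) hkr
      (by linarith) (by linarith) c3 c4
    linarith

/-- what a cell provides -/
def CellGood2 (cl : List (ℕ × ℕ)) (c : Cell2) (C : ℝ) : Prop :=
  ∀ k l : ℕ, 1 ≤ l → l ≤ k → c.lo * k ≤ D * l → D * l ≤ c.hi * k →
    (∀ f ∈ cl, (c.X : ℝ) / D * k + (c.Y : ℝ) / D * l ≤ (f.1 : ℝ) / D * k + (f.2 : ℝ) / D * l ∧
      (c.X : ℝ) / D * k + (c.Y : ℝ) / D * l ≤ (f.2 : ℝ) / D * k + (f.1 : ℝ) / D * l) →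
    ∀ {V : Type} [DecidableEq V] (G : SimpleGraph V) (S : Finset V),
      KFree G S k → KFree Gᶜ S l →
      (∀ T ⊆ S, ∀ v ∈ T, ((nb Gᶜ v T).card : ℝ) + 1 ≤ Bd C (c.X, c.Y) k (l - 1)) →
      (∀ T ⊆ S, ∀ v ∈ T, ((nb G v T).card : ℝ) + 1 ≤ Bd C (c.X, c.Y) (k - 1) l) →
      (∀ Y ⊆ S, ∀ a < k, KFree G Y a → ∀ f ∈ cl, (Y.card : ℝ) + 1 ≤ Bd C f a l ∧
        (Y.card : ℝ) + 1 ≤ Bd C (f.2, f.1) a l) →
      (∀ Y ⊆ S, ∀ t < l, KFree Gᶜ Y t → ∀ f ∈ cl, (Y.card : ℝ) + 1 ≤ Bd C f k t ∧
        (Y.card : ℝ) + 1 ≤ Bd C (f.2, f.1) k t) →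
      (S.card : ℝ) + 1 ≤ Bd C (c.X, c.Y) k l

lemma cellGood2_es (cl : List (ℕ × ℕ)) (c : Cell2) (menu : List Mu) (h : c.ok menu cl = true)
    (hes : c.es = true) : ∀ᶠ C in Filter.atTop, CellGood2 cl c C := by
  have hD : ((D:ℕ):ℝ) = 1000000000 := by norm_num
  unfold Cell2.ok at h
  rw [if_pos hes] at h
  simp only [Bool.and_eq_true, Nat.ble_eq, Nat.blt_eq] at h
  obtain ⟨⟨⟨⟨h1, h2⟩, h3⟩, h4⟩, h5⟩ := h
  filter_upwards [Filter.eventually_ge_atTop (1:ℝ)] with C hC
  intro k l hl hlk _ _ _ V _ G S hSk hSl hB hR _ _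
  have e3 := expGe_spec h3
  have e4 := expGe_spec h4
  rw [hD] at e3 e4
  have p1 : (0:ℝ) < c.px := by exact_mod_cast h1
  have p2 : (0:ℝ) < c.py := by exact_mod_cast h2
  have g3 : Real.exp (-((c.X:ℝ) / 1000000000)) ≤ (c.px:ℝ) / 1000000000 := by
    rw [Real.exp_neg, inv_le_comm₀ (Real.exp_pos _) (by positivity), inv_div,
      div_le_iff₀ (by positivity)]
    linarith
  have g4 : Real.exp (-((c.Y:ℝ) / 1000000000)) ≤ (c.py:ℝ) / 1000000000 := by
    rw [Real.exp_neg, inv_le_comm₀ (Real.exp_pos _) (by positivity), inv_div,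
      div_le_iff₀ (by positivity)]
    linarith
  have g5 : (c.px:ℝ) + c.py ≤ 1000000000 := by
    have : ((c.px + c.py : ℕ) : ℝ) ≤ ((D:ℕ):ℝ) := by exact_mod_cast h5
    rw [hD] at this
    push_cast at this
    exact this
  have hXY : Real.exp (-((c.X:ℝ) / 1000000000)) + Real.exp (-((c.Y:ℝ) / 1000000000)) ≤ 1 := by
    have : (c.px:ℝ) / 1000000000 + (c.py:ℝ) / 1000000000 ≤ 1 := by
      rw [← add_div, div_le_one (by norm_num)]
      exact g5
    linarith
  have := es_step (X := (c.X:ℝ) / 1000000000) (Y := (c.Y:ℝ) / 1000000000) (C := C) (k := k) (l := l)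
    hXY (by positivity) (by positivity) hC G S (by
      intro v hv
      have := hR S (Finset.Subset.refl _) v hv
      unfold Bd at this
      simp only at this
      rw [hD, Nat.cast_sub (by omega)] at this
      simpa using this) (by
      intro v hv
      have := hB S (Finset.Subset.refl _) v hv
      unfold Bd at this
      simp only at this
      rw [hD, Nat.cast_sub (by omega)] at this
      simpa using this)
  unfold Bd
  simp only
  rw [hD]
  exact this

lemma dens_gt {V : Type} [DecidableEq V] (G : SimpleGraph V) (S' : Finset V) {y gap F q : ℝ}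
    (hy0 : 0 ≤ y) (hy1 : y ≤ 1) (hn0big : 2 / gap + 1 ≤ (S'.card : ℝ)) (hgap0 : 0 < gap)
    (hgap : gap = 1 - y - q) (hF : F ≤ (S'.card : ℝ) + 1)
    (hB : ∀ x ∈ S', ((nb Gᶜ x S').card : ℝ) + 1 ≤ F * y) : q < dens G S' := by
  set n0 : ℝ := (S'.card : ℝ) with hn0
  have hn0pos : (0:ℝ) < n0 := by
    have : 0 < 2 / gap := by positivity
    linarith
  have hdeg : ∀ x ∈ S', n0 * (1 - y) - y ≤ ((nb G x S').card : ℝ) := by
    intro x hx
    have h4 := hB x hx
    have h6 : F * y ≤ (n0 + 1) * y := mul_le_mul_of_nonneg_right hF hy0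
    have h7 : (S'.card : ℝ) = 1 + ((nb G x S').card + (nb Gᶜ x S').card) := by
      have := split_sum G S' x hx (fun _ => (1:ℝ))
      simpa using this
    rw [← hn0] at h7
    linarith
  have hsum : n0 * (n0 * (1 - y) - y) ≤ E2 G S' := by
    unfold E2
    have := Finset.sum_le_sum hdeg
    rw [Finset.sum_const, nsmul_eq_mul, ← hn0] at this
    exact this
  unfold dens
  rw [← hn0, lt_div_iff₀ (by positivity)]
  refine lt_of_lt_of_le ?_ hsum
  have h9 : y < gap * n0 := by
    have h10 : gap * (2 / gap + 1) ≤ gap * n0 := mul_le_mul_of_nonneg_left hn0big hgap0.le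
    have h11 : gap * (2 / gap + 1) = 2 + gap := by field_simp
    linarith
  have h12 : 0 < n0 * (gap * n0 - y) := mul_pos hn0pos (by linarith)
  have h13 : n0 * (n0 * (1 - y) - y) = q * n0 ^ 2 + n0 * (gap * n0 - y) := by
    rw [hgap]; ring
  linarith

lemma cellGood2_loc (cl : List (ℕ × ℕ)) (c : Cell2) (menu : List Mu)
    (hmenu : ∀ m ∈ menu, m.ok = true) (h : c.ok menu cl = true)
    (hes : ¬ c.es = true) : ∀ᶠ C in Filter.atTop, CellGood2 cl c C := by
  have hD : ((D:ℕ):ℝ) = 1000000000 := by norm_num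
  unfold Cell2.ok at h
  rw [if_neg hes] at h
  simp only [Bool.and_eq_true, Nat.blt_eq] at h
  obtain ⟨⟨h1, h2⟩, h3⟩ := h
  have e2 := expGe_spec h2
  rw [Nat.cast_sub h1.le] at e2
  push_cast at e2
  have r1 : (c.px:ℝ) + 1 ≤ 1000000000 := by
    rw [← hD]; exact_mod_cast h1
  set Xr := (c.X:ℝ) / 1000000000 with hXr
  set Yr := (c.Y:ℝ) / 1000000000 with hYr
  set y := Real.exp (-Yr) with hy
  have hy0 : 0 < y := Real.exp_pos _
  have hXr0 : 0 ≤ Xr := by positivity
  have hYr0 : 0 ≤ Yr := by positivity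
  have hy1 : y ≤ 1 := by
    rw [hy, Real.exp_le_one_iff]; linarith
  have hpY : (c.px:ℝ) / 1000000000 < 1 - y := by
    have h4 : y ≤ (1000000000 - c.px) / (1000000000 + 1) := by
      rw [hy, Real.exp_neg, inv_le_comm₀ (Real.exp_pos _) (by apply div_pos <;> linarith), inv_div,
        div_le_iff₀ (by linarith)]
      linarith
    have h5 : (1000000000 - (c.px:ℝ)) / (1000000000 + 1) < (1000000000 - c.px) / 1000000000 := by
      apply div_lt_div_of_pos_left _ (by norm_num) (by norm_num)
      linarith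
    have h6 : (1000000000 - (c.px:ℝ)) / 1000000000 = 1 - (c.px:ℝ) / 1000000000 := by
      rw [sub_div, div_self (by norm_num)]
    linarith
  set gap := 1 - y - (c.px:ℝ) / 1000000000 with hgap
  have hgap0 : 0 < gap := by rw [hgap]; linarith
  obtain ⟨ε, hε0, hε1, N, hreg⟩ := regularize (σ := 1 / 2000000000) (by norm_num) (by norm_num)
  have hiv := ivs_sound menu hmenu cl c.X c.Y c.lo c.hi (ε / 2) (by positivity) c.ivs c.px h3
  filter_upwards [hiv, Filter.eventually_ge_atTop (max (N + 2) (2 / gap + 2)),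
    Filter.eventually_ge_atTop (2:ℝ)] with C hC hCN hC2
  have hCN1 : N + 2 ≤ C := (le_max_left _ _).trans hCN
  have hCN2 : 2 / gap + 2 ≤ C := (le_max_right _ _).trans hCN
  intro k l hl hlk hlo hhi hbel V _ G S hSk hSl hB _ hclR hclB
  by_contra hlt
  push Not at hlt
  unfold Bd at hlt hB hclR hclB
  simp only at hlt hB hclR hclB hbel
  rw [hD] at hlt hB
  simp only [hD] at hclR hclB hbel
  rw [← hXr, ← hYr] at hlt hB hbel
  rw [Nat.cast_sub hl] at hB
  simp only [Nat.cast_one] at hB
  have hkpos : 0 < k := by omega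
  have hkr : (0:ℝ) < k := by exact_mod_cast hkpos
  set E := Real.exp (Xr * k + Yr * l) with hE
  have hE1 : 1 ≤ E := by
    rw [hE]
    exact Real.one_le_exp (by positivity)
  have hEpos : 0 < E := by linarith
  have hCpos : 0 < C := by linarith
  have hCE : C ≤ C * E := le_mul_of_one_le_right hCpos.le hE1
  have hCEpos : 0 < C * E := by positivity
  set n0 := ⌊C * E⌋₊ with hn0
  have hn0le : (n0 : ℝ) ≤ C * E := Nat.floor_le hCEpos.le
  have hn0gt : C * E < n0 + 1 := Nat.lt_floor_add_one _
  have hn0S : n0 ≤ S.card := by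
    have : (n0 : ℝ) < S.card + 1 := lt_of_le_of_lt hn0le hlt
    have : n0 < S.card + 1 := by exact_mod_cast this
    omega
  obtain ⟨S', hS'S, hS'card⟩ := Finset.exists_subset_card_eq hn0S
  have hn0r : (S'.card : ℝ) = n0 := by rw [hS'card]
  have hn0big : 2 / gap + 1 ≤ n0 := by linarith
  have hn0pos : (0:ℝ) < n0 := by
    have : 0 < 2 / gap := by positivity
    linarith
  -- density of S'
  have hdens : (c.px:ℝ) / 1000000000 < dens G S' := by
    refine dens_gt G S' hy0.le hy1 (by rw [hn0r]; exact hn0big) hgap0 hgap (F := C * E) (by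
      rw [hn0r]; exact hn0gt.le) ?_
    intro x hx
    have h4 := hB S' hS'S x hx
    have h50 : Xr * k + Yr * (l - 1 : ℝ) = (Xr * k + Yr * l) + (-Yr) := by ring
    have h5 : Real.exp (Xr * k + Yr * (l - 1 : ℝ)) = E * y :=
      (congrArg Real.exp h50).trans (Real.exp_add _ _)
    rw [h5, ← mul_assoc] at h4
    exact h4
  obtain ⟨S2, hS2S', d, hd1, hd2, hS2card, hdR, hdB⟩ := hreg G S' (by rw [hn0r]; linarith)
  have hS2S : S2 ⊆ S := hS2S'.trans hS'S
  have hS2le : (S2.card : ℝ) ≤ C * E := by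
    have : (S2.card : ℝ) ≤ n0 := by
      rw [← hn0r]; exact_mod_cast card_le_card hS2S'
    linarith
  have hcone : Cone 1000000000 c.lo 1000000000 c.hi k l := by
    intro α γ h4 h5
    have c3 : (c.lo:ℝ) * k ≤ 1000000000 * l := by rw [← hD]; exact_mod_cast hlo
    have c4 : (1000000000:ℝ) * l ≤ c.hi * k := by rw [← hD]; exact_mod_cast hhi
    have := lin_interp (a := α * 1000000000) (b := γ) hkr h4 h5 c3 c4
    linarith
  refine hC k l hcone G S2 (hSk.mono hS2S) (hSl.mono hS2S) ?_ d (lt_of_lt_of_le hdens hd1) hd2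
    hdR hdB ?_
  · rw [← hXr, ← hYr, ← hE]
    rw [hn0r] at hS2card
    have h4 : C * E / 2 ≤ n0 := by linarith
    have h5 : ε * (C * E / 2) ≤ ε * n0 := mul_le_mul_of_nonneg_left h4 hε0.le
    linarith
  · intro f hf
    have hb := hbel f hf
    refine ⟨⟨?_, ?_⟩, ⟨?_, ?_⟩⟩
    · intro a ha Y hY hYa
      rcases lt_or_eq_of_le ha with h4 | h4
      · have h5 := (hclR Y (hY.trans hS2S) a h4 hYa f hf).1
        rw [zero_mul, zero_add, add_comm ((f.2:ℝ) / 1000000000 * l)]
        linarith
      · have h5 : (Y.card : ℝ) ≤ S2.card := by exact_mod_cast card_le_card hY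
        refine (h5.trans hS2le).trans ?_
        apply mul_le_mul_of_nonneg_left _ hCpos.le
        apply Real.exp_le_exp.mpr
        rw [h4]
        linarith [hb.1]
    · intro a ha Y hY hYa
      rcases lt_or_eq_of_le ha with h4 | h4
      · have h5 := (hclR Y (hY.trans hS2S) a h4 hYa f hf).2
        rw [zero_mul, zero_add, add_comm ((f.1:ℝ) / 1000000000 * l)]
        linarith
      · have h5 : (Y.card : ℝ) ≤ S2.card := by exact_mod_cast card_le_card hY
        refine (h5.trans hS2le).trans ?_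
        apply mul_le_mul_of_nonneg_left _ hCpos.le
        apply Real.exp_le_exp.mpr
        rw [h4]
        linarith [hb.2]
    · intro a ha Y hY hYa
      rcases lt_or_eq_of_le ha with h4 | h4
      · have h5 := (hclB Y (hY.trans hS2S) a h4 hYa f hf).1
        rw [zero_mul, zero_add]
        linarith
      · have h5 : (Y.card : ℝ) ≤ S2.card := by exact_mod_cast card_le_card hY
        refine (h5.trans hS2le).trans ?_
        apply mul_le_mul_of_nonneg_left _ hCpos.le
        apply Real.exp_le_exp.mpr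
        rw [h4]
        linarith [hb.1]
    · intro a ha Y hY hYa
      rcases lt_or_eq_of_le ha with h4 | h4
      · have h5 := (hclB Y (hY.trans hS2S) a h4 hYa f hf).2
        rw [zero_mul, zero_add]
        linarith
      · have h5 : (Y.card : ℝ) ≤ S2.card := by exact_mod_cast card_le_card hY
        refine (h5.trans hS2le).trans ?_
        apply mul_le_mul_of_nonneg_left _ hCpos.le
        apply Real.exp_le_exp.mpr
        rw [h4]
        linarith [hb.2]

/-- **Main theorem from a certificate.** -/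
theorem main_of_check2 (menu : List Mu) (cells : List Cell2) (h : check2 menu cells = true) :
    ∃ C : ℝ, 0 < C ∧ ∀ k l : ℕ, Claims (claims2 cells) C k l := by
  simp only [check2, Bool.and_eq_true, List.all_eq_true] at h
  obtain ⟨⟨⟨hmenu, hchain⟩, hok⟩, hbelow⟩ := h
  have hall : ∀ᶠ C in Filter.atTop, ∀ c ∈ cells, CellGood2 (claims2 cells) c C := by
    have : ∀ l : List Cell2, (∀ c ∈ l, c.ok menu (claims2 cells) = true) →
        ∀ᶠ C in Filter.atTop, ∀ c ∈ l, CellGood2 (claims2 cells) c C := by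
      intro l
      induction l with
      | nil => intro _; exact Filter.Eventually.of_forall (by simp)
      | cons c l ih =>
        intro hl
        have h1 : ∀ᶠ C in Filter.atTop, CellGood2 (claims2 cells) c C := by
          by_cases hes : c.es = true
          · exact cellGood2_es _ c menu (hl c (by simp)) hes
          · exact cellGood2_loc _ c menu hmenu (hl c (by simp)) hes
        filter_upwards [h1, ih (fun c' hc' => hl c' (by simp [hc']))] with C h1 h2
        intro c' hc'
        rcases List.mem_cons.mp hc' with rfl | h3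
        · exact h1
        · exact h2 c' h3
    exact this cells hok
  obtain ⟨C, hCgood, hC1⟩ := (hall.and (Filter.eventually_ge_atTop (1:ℝ))).exists
  refine ⟨C, by linarith, ?_⟩
  have hmain : ∀ n k l : ℕ, k + l = n → Claims (claims2 cells) C k l := by
    intro n
    induction n using Nat.strong_induction_on with
    | _ n ih =>
      -- it suffices to treat `l ≤ k`
      have key : ∀ k l : ℕ, k + l = n → l ≤ k → Claims (claims2 cells) C k l := by
        intro k l hkl hlk V _ G S hSk hSl f hf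
        rcases Nat.eq_zero_or_pos l with rfl | hl
        · exact absurd hSl.zero id
        have hk : 0 < k := by omega
        obtain ⟨c, hc, hlo, hhi⟩ := chain2_cover hchain hlk hl
        have hb := below2_spec (hbelow c hc f hf) hk hlo hhi
        have hcX : (c.X, c.Y) ∈ claims2 cells := by
          unfold claims2
          exact List.mem_map.mpr ⟨c, hc, rfl⟩
        have hS : (S.card : ℝ) + 1 ≤ Bd C (c.X, c.Y) k l := by
          refine hCgood c hc k l hl hlk hlo hhi ?_ G S hSk hSl ?_ ?_ ?_ ?_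
          · intro f' hf'
            exact below2_spec (hbelow c hc f' hf') hk hlo hhi
          · intro T hT v hv
            refine (ih (k + (l - 1)) (by omega) k (l - 1) rfl G (nb Gᶜ v T)
              (hSk.mono ((nb_subset _ _ _).trans hT)) ?_ _ hcX).1
            have : l = (l - 1) + 1 := by omega
            rw [this] at hSl
            exact hSl.step (hT hv) ((nb_subset _ _ _).trans hT) (fun y hy => (mem_nb.mp hy).2)
          · intro T hT v hv
            refine (ih ((k - 1) + l) (by omega) (k - 1) l rfl G (nb G v T) ?_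
              (hSl.mono ((nb_subset _ _ _).trans hT)) _ hcX).1
            have : k = (k - 1) + 1 := by omega
            rw [this] at hSk
            exact hSk.step (hT hv) ((nb_subset _ _ _).trans hT) (fun y hy => (mem_nb.mp hy).2)
          · intro Y hY a ha hYa f' hf'
            exact ih (a + l) (by omega) a l rfl G Y hYa (hSl.mono hY) f' hf'
          · intro Y hY t ht hYt f' hf'
            exact ih (k + t) (by omega) k t rfl G Y (hSk.mono hY) hYt f' hf'
        constructor
        · refine hS.trans ?_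
          unfold Bd
          exact mul_le_mul_of_nonneg_left (Real.exp_le_exp.mpr hb.1) (by linarith)
        · refine hS.trans ?_
          unfold Bd
          exact mul_le_mul_of_nonneg_left (Real.exp_le_exp.mpr hb.2) (by linarith)
      intro k l hkl
      rcases le_total l k with h1 | h1
      · exact key k l hkl h1
      · exact Claims.symm (key l k (by omega) h1)
  intro k l
  exact hmain (k + l) k l rfl

end Pool.Agent.H111R2
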