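import Pool.Agent.H111R2.Line
import Pool.Agent.H111R2.Cert

open Finset

namespace Pool.Agent.H111R2

/-! ### Chains of stages, checked with integers (scale `10 ^ 9`) -/

/-- ceiling division by `10 ^ 9` -/
def cdiv (x : ℤ) : ℤ := (x + 999999999) / 1000000000

lemma le_cdiv (x : ℤ) : x ≤ 1000000000 * cdiv x := by
  unfold cdiv
  have h1 := Int.mul_ediv_add_emod (x + 999999999) 1000000000
  have h2 := Int.emod_lt_of_pos (x + 999999999) (show (0:ℤ) < 1000000000 by norm_num)
  linarith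

lemma le_cdiv_real (x : ℤ) : (x:ℝ) / 1000000000 ≤ (cdiv x : ℝ) := by
  rw [div_le_iff₀ (by norm_num)]
  have : (x:ℝ) ≤ 1000000000 * (cdiv x : ℝ) := by exact_mod_cast le_cdiv x
  linarith

/-- an admissible value of `μ`, with a bound `L1 ≥ -log (1 - μ)` and `wt` with `exp (-wt) ≤ μ` -/
structure Mu where
  μ : ℕ
  L1 : ℕ
  wt : ℕ

def Mu.ok (m : Mu) : Bool :=
  Nat.blt m.μ D && Nat.blt 0 m.μ && Nat.blt 0 m.wt && expGe m.wt D m.μ && expGe m.L1 D (D - m.μ)

/-- a density `p` with `L ≥ -log p` -/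
def pok (p L : ℕ) : Bool := Nat.blt 0 p && Nat.blt p D && expGe L D p

/-- the weight of a red step -/
def wkOf (m : Mu) (L β : ℕ) (E : ℤ) : ℤ :=
  max (cdiv (β * E)) ((m.L1 + β * L / (D - m.μ) + 1 : ℕ) : ℤ)

/-- run a chain of stages -/
def run (menu : List Mu) : (X Y La Lb r1 s1 r2 s2 : ℕ) → (A B E : ℤ) → List ℕ → Bool
  | X, Y, _, _, r1, s1, r2, s2, A, B, E, [] =>
    decide ((A + E) * r1 + B * s1 ≤ X * r1 + Y * s1) &&
      decide ((A + E) * r2 + B * s2 ≤ X * r2 + Y * s2)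
  | X, Y, La, Lb, r1, s1, r2, s2, A, B, E, n :: rest =>
    match menu[n % 128]? with
    | none => false
    | some m =>
      run menu Y X Lb La s1 r1 s2 r2 (cdiv ((n / 128 : ℕ) * (B - Y)))
        (cdiv ((n / 128 : ℕ) * (A - X)) + wkOf m La (n / 128) E) m.wt rest

/-- the cone spanned by two rays, in dual form -/
def Cone (r1 s1 r2 s2 k l : ℝ) : Prop :=
  ∀ α γ : ℝ, 0 ≤ α * r1 + γ * s1 → 0 ≤ α * r2 + γ * s2 → 0 ≤ α * k + γ * l

lemma Cone.swap {r1 s1 r2 s2 k l : ℝ} (h : Cone r1 s1 r2 s2 k l) : Cone s1 r1 s2 r2 l k := by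
  intro α γ h1 h2
  have := h γ α (by linarith) (by linarith)
  linarith

/-- one stage in integer form -/
lemma stageZ {m : Mu} (hm : m.ok = true) {p L X Y β : ℕ} {A B E : ℤ} (hp : pok p L = true)
    {ε d0 Λ : ℝ} (hε : 0 < ε) (hd0 : 0 < d0) (hΛ : 0 < Λ) :
    ∃ Λ' : ℝ, 0 < Λ' ∧ ∀ C : ℝ, 0 < C → ∀ k l : ℕ,
      ∀ {V : Type} [DecidableEq V] (G : SimpleGraph V) (S : Finset V),
        KFree G S k →
        ε * (C * Real.exp ((X:ℝ) / 1000000000 * k + (Y:ℝ) / 1000000000 * l)) ≤ S.card →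
        (∀ x ∈ S, d0 ≤ ex G ((p:ℝ) / 1000000000) S x) →
        Line G S k l ((A:ℝ) / 1000000000) ((B:ℝ) / 1000000000) ((E:ℝ) / 1000000000) (Λ * C) →
        Line Gᶜ S l k ((cdiv (β * (B - Y)) : ℝ) / 1000000000)
          (((cdiv (β * (A - X)) + wkOf m L β E : ℤ) : ℝ) / 1000000000)
          ((m.wt : ℝ) / 1000000000) Λ' := by
  have hD : ((D:ℕ):ℝ) = 1000000000 := by norm_num
  simp only [Mu.ok, Bool.and_eq_true, Nat.blt_eq] at hm
  obtain ⟨⟨⟨⟨h1, h2⟩, h3⟩, h4⟩, h5⟩ := hm
  simp only [pok, Bool.and_eq_true, Nat.blt_eq] at hp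
  obtain ⟨⟨h6, h7⟩, h8⟩ := hp
  have e4 := expGe_spec h4
  have e5 := expGe_spec h5
  have e8 := expGe_spec h8
  rw [Nat.cast_sub h1.le] at e5
  rw [hD] at e4 e5 e8
  have r1 : (m.μ : ℝ) < 1000000000 := by rw [← hD]; exact_mod_cast h1
  have r2 : (0:ℝ) < m.μ := by exact_mod_cast h2
  have r3 : (0:ℝ) < m.wt := by exact_mod_cast h3
  have r6 : (0:ℝ) < p := by exact_mod_cast h6
  have r7 : (p:ℝ) < 1000000000 := by rw [← hD]; exact_mod_cast h7
  set wk := wkOf m L β E with hwk
  have hwk1 : cdiv (β * E) ≤ wk := le_max_left _ _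
  have hwk2 : ((m.L1 + β * L / (D - m.μ) + 1 : ℕ) : ℤ) ≤ wk := le_max_right _ _
  have hwk1r : (cdiv (β * E) : ℝ) ≤ wk := by exact_mod_cast hwk1
  have hwk2r : ((m.L1 + β * L / (D - m.μ) + 1 : ℕ) : ℝ) ≤ wk := by
    have h := (Int.cast_le (R := ℝ)).mpr hwk2
    rw [Int.cast_natCast] at h
    exact h
  set μr := (m.μ:ℝ) / 1000000000 with hμr
  set βr := (β:ℝ) / 1000000000 with hβr
  set pr := (p:ℝ) / 1000000000 with hpr
  set wtr := (m.wt:ℝ) / 1000000000 with hwtr
  set wkr := (wk:ℝ) / 1000000000 with hwkr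
  have hp0 : 0 < pr := by positivity
  have hp1 : pr < 1 := by rw [hpr, div_lt_one (by norm_num)]; exact r7
  have hμ1 : μr < 1 := by rw [hμr, div_lt_one (by norm_num)]; exact r1
  have hμ0 : 0 < μr := by positivity
  have hβ0 : 0 ≤ βr := by positivity
  have hwt0 : 0 < wtr := by positivity
  have hμexp : Real.exp (-wtr) ≤ μr := by
    rw [Real.exp_neg, inv_le_comm₀ (Real.exp_pos _) hμ0, hμr, inv_div, div_le_iff₀ r2]
    linarith
  have hL1 : -Real.log (1 - μr) ≤ (m.L1:ℝ) / 1000000000 := by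
    rw [← Real.log_inv, Real.log_le_iff_le_exp (by
      apply inv_pos.mpr; linarith)]
    have h1p : (0:ℝ) < 1000000000 - m.μ := by linarith
    have : (1 - μr)⁻¹ = 1000000000 / (1000000000 - m.μ) := by
      rw [hμr]
      field_simp
    rw [this, div_le_iff₀ h1p]
    linarith
  have hL2 : -Real.log pr ≤ (L:ℝ) / 1000000000 := by
    rw [← Real.log_inv, Real.log_le_iff_le_exp (by positivity), hpr, inv_div, div_le_iff₀ r6]
    linarith
  have hlogμ : Real.log (1 - μr) ≤ Real.log (1 - Real.exp (-wtr)) :=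
    Real.log_le_log (by linarith) (by linarith)
  have hL1wk : (m.L1:ℝ) + (β * L / (D - m.μ) : ℕ) + 1 ≤ wk := by
    have := hwk2r
    push_cast at this ⊢
    exact this
  have hdivnn : (0:ℝ) ≤ ((β * L / (D - m.μ) : ℕ) : ℝ) := by positivity
  have hgap1 : (β:ℝ) * L < (1000000000 - m.μ) * (wk - m.L1) := by
    have h9 : β * L < (D - m.μ) * (β * L / (D - m.μ) + 1) := by
      have hpos : 0 < D - m.μ := by omega
      have := Nat.lt_div_mul_add (a := β * L) hpos
      calc β * L < β * L / (D - m.μ) * (D - m.μ) + (D - m.μ) := this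
        _ = _ := by ring
    have h10 : ((β * L : ℕ) : ℝ) < (((D - m.μ) * (β * L / (D - m.μ) + 1) : ℕ) : ℝ) := by
      exact_mod_cast h9
    rw [Nat.cast_mul, Nat.cast_mul, Nat.cast_sub h1.le, hD] at h10
    refine lt_of_lt_of_le h10 ?_
    apply mul_le_mul_of_nonneg_left _ (by linarith)
    push_cast
    linarith
  have hθ1 : 0 < wkr - (m.L1:ℝ) / 1000000000 := by
    rw [hwkr, ← sub_div]
    apply div_pos _ (by norm_num)
    linarith
  have hθ2 : wkr - (m.L1:ℝ) / 1000000000 ≤ wkr + Real.log (1 - Real.exp (-wtr)) := by linarith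
  have hθ : 0 < wkr + Real.log (1 - Real.exp (-wtr)) := lt_of_lt_of_le hθ1 hθ2
  have hgap : βr * (-Real.log pr)
      < (1 - Real.exp (-wtr)) * (wkr + Real.log (1 - Real.exp (-wtr))) := by
    calc βr * (-Real.log pr) ≤ βr * ((L:ℝ) / 1000000000) := mul_le_mul_of_nonneg_left hL2 hβ0
      _ < (1 - μr) * (wkr - (m.L1:ℝ) / 1000000000) := by
        rw [hβr, hμr, hwkr]
        have : ((β:ℝ) / 1000000000 * ((L:ℝ) / 1000000000)) = (β * L) / (1000000000 * 1000000000) := by
          ring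
        rw [this]
        have : (1 - (m.μ:ℝ) / 1000000000) * ((wk:ℝ) / 1000000000 - (m.L1:ℝ) / 1000000000)
            = ((1000000000 - m.μ) * (wk - m.L1)) / (1000000000 * 1000000000) := by
          ring
        rw [this]
        exact div_lt_div_of_pos_right hgap1 (by norm_num)
      _ ≤ _ := by
        apply mul_le_mul _ hθ2 hθ1.le _
        · linarith
        · have : Real.exp (-wtr) < 1 := by rw [Real.exp_lt_one_iff]; linarith
          linarith
  have hE : βr * ((E:ℝ) / 1000000000) ≤ wkr := by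
    have := le_cdiv_real (β * E)
    push_cast at this
    rw [hβr, hwkr]
    have h9 : (β:ℝ) / 1000000000 * ((E:ℝ) / 1000000000) = ((β * E : ℝ) / 1000000000) / 1000000000 := by
      ring
    rw [h9]
    apply div_le_div_of_nonneg_right _ (by norm_num)
    exact this.trans hwk1r
  obtain ⟨Λ', hΛ'0, hΛ'⟩ := stage (Xc := (X:ℝ) / 1000000000) (Yc := (Y:ℝ) / 1000000000)
    (A := (A:ℝ) / 1000000000) (B := (B:ℝ) / 1000000000) (E := (E:ℝ) / 1000000000)
    hβ0 hp0 hp1 hwt0 hθ hgap hE hε hd0 hΛ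
  refine ⟨Λ', hΛ'0, ?_⟩
  intro C hC k l V _ G S hSk hSlow hex hline
  refine (hΛ' C hC k l G S hSk hSlow hex hline).mono ?_ ?_ le_rfl le_rfl hΛ'0.le
  · have := le_cdiv_real (β * (B - Y))
    push_cast at this
    have h9 : βr * ((B:ℝ) / 1000000000 - (Y:ℝ) / 1000000000)
        = ((β * (B - Y) : ℝ) / 1000000000) / 1000000000 := by
      rw [hβr]; ring
    rw [h9]
    exact div_le_div_of_nonneg_right this (by norm_num)
  · have := le_cdiv_real (β * (A - X))
    push_cast at this ⊢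
    have h9 : βr * ((A:ℝ) / 1000000000 - (X:ℝ) / 1000000000)
        = ((β * (A - X) : ℝ) / 1000000000) / 1000000000 := by
      rw [hβr]; ring
    rw [h9, hwkr, ← add_div]
    apply div_le_div_of_nonneg_right _ (by norm_num)
    linarith

/-- soundness of `run` -/
lemma run_sound (menu : List Mu) (hmenu : ∀ m ∈ menu, m.ok = true) :
    ∀ (st : List ℕ) (X Y pa pb La Lb r1 s1 r2 s2 : ℕ) (A B E : ℤ),
      run menu X Y La Lb r1 s1 r2 s2 A B E st = true →
      (1 ≤ st.length → pok pa La = true) → (2 ≤ st.length → pok pb Lb = true) →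
      ∀ ε d0 Λ : ℝ, 0 < ε → 0 < d0 → 0 < Λ → ∀ᶠ C : ℝ in Filter.atTop, ∀ k l : ℕ,
        Cone r1 s1 r2 s2 k l →
        ∀ {V : Type} [DecidableEq V] (G : SimpleGraph V) (S : Finset V),
          KFree G S k → KFree Gᶜ S l →
          ε * (C * Real.exp ((X:ℝ) / 1000000000 * k + (Y:ℝ) / 1000000000 * l)) ≤ S.card →
          (1 ≤ st.length → ∀ x ∈ S, d0 ≤ ex G ((pa:ℝ) / 1000000000) S x) →
          (2 ≤ st.length → ∀ x ∈ S, d0 ≤ ex Gᶜ ((pb:ℝ) / 1000000000) S x) →
          Line G S k l ((A:ℝ) / 1000000000) ((B:ℝ) / 1000000000) ((E:ℝ) / 1000000000) Λ →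
          False := by
  intro st
  induction st with
  | nil =>
    intro X Y pa pb La Lb r1 s1 r2 s2 A B E hrun _ _ ε d0 Λ hε hd0 hΛ
    simp only [run, Bool.and_eq_true, decide_eq_true_eq] at hrun
    obtain ⟨q1, q2⟩ := hrun
    filter_upwards [Filter.eventually_gt_atTop (Λ / ε)] with C hC
    intro k l hcone V _ G S hSk _ hSlow _ _ hline
    have h1 := hline k le_rfl S (Finset.Subset.refl _) hSk
    have q1' : ((A:ℝ) + E) * r1 + B * s1 ≤ X * r1 + Y * s1 := by exact_mod_cast q1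
    have q2' : ((A:ℝ) + E) * r2 + B * s2 ≤ X * r2 + Y * s2 := by exact_mod_cast q2
    have q3 := hcone ((X:ℝ) - (A + E)) ((Y:ℝ) - B) (by linarith) (by linarith)
    have h2 : Real.exp ((A:ℝ) / 1000000000 * k + (B:ℝ) / 1000000000 * l + (E:ℝ) / 1000000000 * k)
        ≤ Real.exp ((X:ℝ) / 1000000000 * k + (Y:ℝ) / 1000000000 * l) := by
      apply Real.exp_le_exp.mpr
      have : (A:ℝ) / 1000000000 * k + (B:ℝ) / 1000000000 * l + (E:ℝ) / 1000000000 * k
          = (((A:ℝ) + E) * k + B * l) / 1000000000 := by ring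
      rw [this]
      have : (X:ℝ) / 1000000000 * k + (Y:ℝ) / 1000000000 * l = (X * k + Y * l) / 1000000000 := by ring
      rw [this]
      apply div_le_div_of_nonneg_right _ (by norm_num)
      linarith
    set F := Real.exp ((X:ℝ) / 1000000000 * k + (Y:ℝ) / 1000000000 * l) with hF
    have hFpos : 0 < F := Real.exp_pos _
    have h3 : ε * (C * F) ≤ Λ * F := hSlow.trans (h1.trans (mul_le_mul_of_nonneg_left h2 hΛ.le))
    have h4 : Λ * F < ε * (C * F) := by
      rw [div_lt_iff₀ hε] at hC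
      calc Λ * F < (C * ε) * F := mul_lt_mul_of_pos_right hC hFpos
        _ = _ := by ring
    linarith
  | cons n rest ih =>
    intro X Y pa pb La Lb r1 s1 r2 s2 A B E hrun hpa hpb ε d0 Λ hε hd0 hΛ
    simp only [run] at hrun
    split at hrun
    · exact absurd hrun (by simp)
    · rename_i m hm
      have hmem : m ∈ menu := List.mem_of_getElem? hm
      obtain ⟨Λ', hΛ'0, hΛ'⟩ := stageZ (hmenu m hmem) (p := pa) (L := La) (X := X) (Y := Y)
        (β := n / 128) (A := A) (B := B) (E := E) (hpa (by simp)) hε hd0 hΛ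
      have hrest := ih Y X pb pa Lb La s1 r1 s2 r2 _ _ _ hrun
        (fun h => hpb (by simp only [List.length_cons]; omega))
        (fun _ => hpa (by simp)) ε d0 Λ' hε hd0 hΛ'0
      filter_upwards [hrest, Filter.eventually_ge_atTop (1:ℝ)] with C hC hC1
      intro k l hcone V _ G S hSk hSl hSlow hexa hexb hline
      refine hC l k hcone.swap Gᶜ S hSl (by rw [compl_compl]; exact hSk) ?_ ?_ ?_ ?_
      · rw [add_comm]; exact hSlow
      · intro h
        exact hexb (by simp only [List.length_cons]; omega)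
      · intro _
        rw [compl_compl]
        exact hexa (by simp)
      · have := hΛ' C (by linarith) k l G S hSk hSlow (hexa (by simp))
          (hline.mono le_rfl le_rfl le_rfl (by nlinarith) (by positivity))
        rw [← Int.cast_natCast (R := ℝ) m.wt] at this
        exact this

end Pool.Agent.H111R2
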