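import Pool.Agent.H111R2.Stage2
import Pool.Agent.H111R2.Chain

open Finset

namespace Pool.Agent.H111R2

/-! ### Upper bounds for the exponential with natural numbers -/

/-- Horner scheme for an upper bound of the exponential series at `q / (8 D)` -/
def exU (q : ℕ) : ℕ → ℕ → ℕ × ℕ
  | 0, i => (i, i - 1)
  | n + 1, i =>
    let r := exU q n (i + 1)
    (i * (8 * D) * r.2 + q * r.1, i * (8 * D) * r.2)

lemma exU_pos (q : ℕ) : ∀ n i : ℕ, 2 ≤ i → 0 < (exU q n i).2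
  | 0, i, hi => by
    simp only [exU]
    omega
  | n + 1, i, hi => by
    have := exU_pos q n (i + 1) (by omega)
    simp only [exU]
    positivity

lemma exU_le (q : ℕ) {y : ℝ} (hy : y = (q:ℝ) / (8 * (D:ℕ))) (hy1 : y ≤ 1) : ∀ n i : ℕ, 1 ≤ i →
    Real.exp y ≤ ∑ j ∈ range i, y ^ j / (j.factorial : ℝ)
      + (y ^ i / (i.factorial : ℝ)) *
        (((exU q n (i + 1)).1 : ℝ) / ((exU q n (i + 1)).2 : ℝ))
  | 0, i, hi => by
    have hy0 : 0 ≤ y := by rw [hy]; positivity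
    have h := Real.exp_bound' hy0 hy1 (n := i) (by omega)
    refine h.trans (le_of_eq ?_)
    simp only [exU]
    have hi0 : (0:ℝ) < i := by exact_mod_cast hi
    have h5 : (0:ℝ) < (i.factorial : ℝ) := by positivity
    rw [Nat.add_sub_cancel]
    push_cast
    congr 1
    field_simp
  | n + 1, i, hi => by
    have h := exU_le q hy hy1 n (i + 1) (by omega)
    rw [Finset.sum_range_succ] at h
    have hpos : (0:ℝ) < ((exU q n (i + 2)).2 : ℝ) := by
      exact_mod_cast exU_pos q n (i + 2) (by omega)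
    have hDpos : (0:ℝ) < ((D:ℕ):ℝ) := by norm_num
    have h2 : (((exU q (n + 1) (i + 1)).1 : ℝ) / ((exU q (n + 1) (i + 1)).2 : ℝ))
        = 1 + y / (i + 1) * (((exU q n (i + 2)).1 : ℝ) / (exU q n (i + 2)).2) := by
      simp only [exU]
      rw [hy]
      generalize exU q n (i + 1 + 1) = r at hpos ⊢
      rw [Nat.cast_add, Nat.cast_mul, Nat.cast_mul, Nat.cast_mul, Nat.cast_mul, Nat.cast_add]
      generalize ((D:ℕ):ℝ) = N at hDpos ⊢
      push_cast
      have : ((i:ℝ) + 1) ≠ 0 := by positivity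
      field_simp
    rw [h2]
    refine h.trans (le_of_eq ?_)
    have h3 : ((i + 1).factorial : ℝ) = ((i:ℝ) + 1) * (i.factorial : ℝ) := by
      rw [Nat.factorial_succ i]
      push_cast
      ring
    rw [h3]
    have h4 : (i.factorial : ℝ) ≠ 0 := by positivity
    have h5 : ((i:ℝ) + 1) ≠ 0 := by positivity
    have h6 : i + 1 + 1 = i + 2 := by omega
    rw [h6]
    field_simp
    ring

/-- `exp (q / D) ≤ b / a`, checked with `12` terms for the eighth root -/
def expLe (q b a : ℕ) : Bool :=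
  Nat.ble q (8 * D) &&
  Nat.ble (a * (8 * D * (exU q 12 2).2 + q * (exU q 12 2).1) ^ 8) (b * (8 * D * (exU q 12 2).2) ^ 8)

lemma expLe_spec {q b a : ℕ} (h : expLe q b a = true) : a * Real.exp ((q:ℝ) / D) ≤ (b:ℝ) := by
  unfold expLe at h
  rw [Bool.and_eq_true, Nat.ble_eq, Nat.ble_eq] at h
  obtain ⟨hq, h⟩ := h
  have hD : (0:ℝ) < ((D:ℕ):ℝ) := by norm_num
  have hqr : (q:ℝ) ≤ 8 * ((D:ℕ):ℝ) := by exact_mod_cast hq
  have hy1 : (q:ℝ) / (8 * (D:ℕ)) ≤ 1 := by
    rw [div_le_one (by positivity)]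
    exact hqr
  have h1 := exU_le q rfl hy1 12 1 le_rfl
  have hpos : (0:ℝ) < ((exU q 12 2).2 : ℝ) := by
    exact_mod_cast exU_pos q 12 2 (by omega)
  simp only [range_one, sum_singleton, pow_zero, Nat.factorial_zero, Nat.cast_one,
    div_one, pow_one, Nat.factorial_one, one_add_one_eq_two] at h1
  generalize exU q 12 2 = r at h h1 hpos
  have h2 : ((a * (8 * D * r.2 + q * r.1) ^ 8 : ℕ) : ℝ) ≤ ((b * (8 * D * r.2) ^ 8 : ℕ) : ℝ) := by
    exact_mod_cast h
  rw [Nat.cast_mul, Nat.cast_mul, Nat.cast_pow, Nat.cast_pow, Nat.cast_add, Nat.cast_mul,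
    Nat.cast_mul, Nat.cast_mul] at h2
  generalize ((D:ℕ):ℝ) = N at hD hqr hy1 h1 h2 ⊢
  push_cast at h2
  set w := 8 * N * (r.2:ℝ) with hw
  have hw0 : 0 < w := by positivity
  have h3 : 1 + (q:ℝ) / (8 * N) * ((r.1:ℝ) / r.2) = (w + q * r.1) / w := by
    rw [hw]
    field_simp
  rw [h3] at h1
  have h4 : Real.exp ((q:ℝ) / N) = Real.exp ((q:ℝ) / (8 * N)) ^ 8 := by
    rw [← Real.exp_nat_mul]
    congr 1
    push_cast
    field_simp
  rw [h4]
  have h5 : Real.exp ((q:ℝ) / (8 * N)) ^ 8 ≤ ((w + q * r.1) / w) ^ 8 :=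
    pow_le_pow_left₀ (Real.exp_pos _).le h1 8
  refine (mul_le_mul_of_nonneg_left h5 (by positivity)).trans ?_
  rw [div_pow, ← mul_div_assoc, div_le_iff₀ (by positivity)]
  exact h2

/-! ### Chains of stages with the norm book, checked with integers (scale `10 ^ 9`) -/

/-- an admissible value of `a = p + (1 - p) T`, with `la ≤ -log a`, `lb ≤ -log (1 - a)` -/
structure Am where
  a : ℕ
  la : ℕ
  lb : ℕ

def Am.ok (m : Am) : Bool :=
  Nat.blt 0 m.a && Nat.blt m.a D && expLe m.la D m.a && expLe m.lb D (D - m.a)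

/-- a density `p` with `L ≥ -log p` and `M ≥ -log (1 - p)` -/
structure Pd where
  p : ℕ
  L : ℕ
  M : ℕ

def Pd.ok (P : Pd) : Bool :=
  Nat.blt 0 P.p && Nat.blt P.p D && expGe P.L D P.p && expGe P.M D (D - P.p)

/-- the weight of a red step -/
def wkOf3 (m : Mu) (α : Am) (P : Pd) (β : ℕ) (E : ℤ) : ℤ :=
  max (cdiv (β * E)) ((m.L1 + β * P.L / D + m.μ * (D - α.a) / (α.a - P.p) + 2 : ℕ) : ℤ)

/-- the slope of the new line -/
def wtOf3 (m : Mu) (α : Am) (P : Pd) (β : ℕ) : ℤ :=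
  max 0 ((m.wt : ℤ) + cdiv (cdiv (β * (α.a * ((P.L : ℤ) - α.la) + (1000000000 - α.a) * ((P.M : ℤ) - α.lb))))
    - (((D - m.μ) * (D - α.a) / (D - P.p) : ℕ) : ℤ) + 1)

/-- entry `i` of the table `T` of values of `b` (36 bits for each number) -/
def decMu (T i : ℕ) : Mu :=
  ⟨Nat.shiftRight T (108 * i) % 68719476736, Nat.shiftRight T (108 * i + 36) % 68719476736,
    Nat.shiftRight T (108 * i + 72) % 68719476736⟩

/-- entry `i` of the table `T` of values of `a` (36 bits for each number) -/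
def decAm (T i : ℕ) : Am :=
  ⟨Nat.shiftRight T (108 * i) % 68719476736, Nat.shiftRight T (108 * i + 36) % 68719476736,
    Nat.shiftRight T (108 * i + 72) % 68719476736⟩

/-- all entries of the tables are admissible -/
def MuTab (T : ℕ) : Prop := ∀ i < 512, (decMu T i).ok = true

/-- all entries of the tables are admissible -/
def AmTab (T : ℕ) : Prop := ∀ i < 256, (decAm T i).ok = true

/-- run a chain of stages -/
def run3 (mb ma : ℕ) :
    (X Y : ℕ) → (Pa Pb : Pd) → (r1 s1 r2 s2 : ℕ) → (A B E : ℤ) → List ℕ → Bool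
  | X, Y, _, _, r1, s1, r2, s2, A, B, E, [] =>
    decide ((A + E) * r1 + B * s1 ≤ X * r1 + Y * s1) &&
      decide ((A + E) * r2 + B * s2 ≤ X * r2 + Y * s2)
  | X, Y, Pa, Pb, r1, s1, r2, s2, A, B, E, n :: rest =>
    Nat.blt 0 (n / 131072) && Nat.blt Pa.p (decAm ma (n / 512 % 256)).a &&
      run3 mb ma Y X Pb Pa s1 r1 s2 r2 (cdiv ((n / 131072 : ℕ) * (B - Y)))
        (cdiv ((n / 131072 : ℕ) * (A - X)) +
          wkOf3 (decMu mb (n % 512)) (decAm ma (n / 512 % 256)) Pa (n / 131072) E)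
        (wtOf3 (decMu mb (n % 512)) (decAm ma (n / 512 % 256)) Pa (n / 131072)) rest

lemma num3A {N p a b β L L1 u v wk : ℝ} (hN : 0 < N) (hp : 0 < p) (hpa : p < a) (haN : a < N)
    (hβ : 0 ≤ β) (hL : -Real.log (p / N) ≤ L / N)
    (hL1 : -Real.log (1 - b / N) ≤ L1 / N) (hu : β * L / N < u + 1)
    (hv : b * (N - a) / (a - p) < v + 1) (hwk : L1 + u + v + 2 ≤ wk) :
    β / N * Real.log (1 / (p / N)) + Real.log (1 / (1 - b / N))
      + b / N * (1 - (a - p) / (N - p)) / ((a - p) / (N - p)) < wk / N := by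
  have h1 : 0 < a - p := by linarith
  have h2 : 0 < N - p := by linarith
  have e1 : b / N * (1 - (a - p) / (N - p)) / ((a - p) / (N - p)) = (b * (N - a) / (a - p)) / N := by
    have : 1 - (a - p) / (N - p) = (N - a) / (N - p) := by
      field_simp
      ring
    rw [this]
    field_simp
  rw [e1, one_div, one_div, Real.log_inv, Real.log_inv]
  have h3 : β / N * (-Real.log (p / N)) ≤ β / N * (L / N) :=
    mul_le_mul_of_nonneg_left hL (by positivity)
  have h4 : β / N * (L / N) = (β * L / N) / N := by ring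
  rw [h4] at h3
  have h5 : (β * L / N) / N + L1 / N + (b * (N - a) / (a - p)) / N
      = (L1 + β * L / N + b * (N - a) / (a - p)) / N := by ring
  have h6 : (L1 + β * L / N + b * (N - a) / (a - p)) / N < wk / N :=
    div_lt_div_of_pos_right (by linarith) hN
  linarith

lemma num3W {N p a b β L M la lb w0 z w wt : ℝ} (hN : 0 < N) (hp : 0 < p) (hpa : p < a)
    (haN : a < N) (hβ : 0 ≤ β) (hL : -Real.log (p / N) ≤ L / N)
    (hM : -Real.log (1 - p / N) ≤ M / N)
    (hla : la / N ≤ -Real.log (a / N)) (hlb : lb / N ≤ -Real.log (1 - a / N))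
    (hw0 : -Real.log (b / N) ≤ w0 / N)
    (hz : β * (a * (L - la) + (N - a) * (M - lb)) / (N * N) ≤ z)
    (hw : w ≤ (N - b) * (N - a) / (N - p)) (hwt : w0 + z - w + 1 ≤ wt) :
    Real.log (1 / (b / N)) + β / N * H110R2.KK (p / N) ((a - p) / (N - p))
      - (1 - b / N) * (1 - (a - p) / (N - p)) < wt / N := by
  have h1 : 0 < a - p := by linarith
  have h2 : 0 < N - p := by linarith
  have h2a : 0 < N - a := by linarith
  have ha : 0 < a := by linarith
  have e1 : p / N + (1 - p / N) * ((a - p) / (N - p)) = a / N := by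
    have : 1 - p / N = (N - p) / N := by field_simp
    rw [this]
    field_simp
    ring
  have e2 : (1 - p / N) * (1 - (a - p) / (N - p)) = 1 - a / N := by
    have : 1 - p / N = (N - p) / N := by field_simp
    rw [this]
    field_simp
    ring
  have e3 : 1 - (a - p) / (N - p) = (1 - a / N) / (1 - p / N) := by
    have : 1 - p / N = (N - p) / N := by field_simp
    rw [this]
    field_simp
    ring
  have e4 : (0:ℝ) < 1 - p / N := by
    have : 1 - p / N = (N - p) / N := by field_simp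
    rw [this]
    positivity
  have e5 : (0:ℝ) < 1 - a / N := by
    have : 1 - a / N = (N - a) / N := by field_simp
    rw [this]
    positivity
  have hKK : H110R2.KK (p / N) ((a - p) / (N - p))
      ≤ (a * (L - la) + (N - a) * (M - lb)) / (N * N) := by
    unfold H110R2.KK
    rw [e1, e2, e3, Real.log_div (by positivity) (by positivity),
      Real.log_div e5.ne' e4.ne']
    have h3 : a / N * (Real.log (a / N) - Real.log (p / N)) ≤ a / N * (-(la / N) + L / N) :=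
      mul_le_mul_of_nonneg_left (by linarith) (by positivity)
    have h4 : (1 - a / N) * (Real.log (1 - a / N) - Real.log (1 - p / N))
        ≤ (1 - a / N) * (-(lb / N) + M / N) :=
      mul_le_mul_of_nonneg_left (by linarith) e5.le
    refine (add_le_add h3 h4).trans (le_of_eq ?_)
    field_simp
    ring
  have h5 := mul_le_mul_of_nonneg_left hKK (show 0 ≤ β / N by positivity)
  have h6 : β / N * ((a * (L - la) + (N - a) * (M - lb)) / (N * N))
      = (β * (a * (L - la) + (N - a) * (M - lb)) / (N * N)) / N := by ring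
  rw [h6] at h5
  have h7 : (β * (a * (L - la) + (N - a) * (M - lb)) / (N * N)) / N ≤ z / N :=
    div_le_div_of_nonneg_right hz hN.le
  have h8 : (1 - b / N) * (1 - (a - p) / (N - p)) = ((N - b) * (N - a) / (N - p)) / N := by
    have : 1 - (a - p) / (N - p) = (N - a) / (N - p) := by
      field_simp
      ring
    rw [this]
    field_simp
  have h9 : w / N ≤ ((N - b) * (N - a) / (N - p)) / N := div_le_div_of_nonneg_right hw hN.le
  rw [h8, one_div, Real.log_inv]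
  have h10 : w0 / N + z / N - w / N < wt / N := by
    rw [← add_div, ← sub_div]
    exact div_lt_div_of_pos_right (by linarith) hN
  linarith

lemma natdiv_lt (x y : ℕ) (hy : 0 < y) : (x:ℝ) / y < ((x / y : ℕ) : ℝ) + 1 := by
  rw [div_lt_iff₀ (by exact_mod_cast hy)]
  have h := Nat.lt_div_mul_add (a := x) hy
  have h2 : (x:ℝ) < ((x / y * y + y : ℕ) : ℝ) := by exact_mod_cast h
  push_cast at h2
  linarith

lemma natdiv_le (x y : ℕ) (hy : 0 < y) : ((x / y : ℕ) : ℝ) ≤ (x:ℝ) / y := by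
  rw [le_div_iff₀ (by exact_mod_cast hy)]
  exact_mod_cast Nat.div_mul_le_self x y

/-- one stage in integer form -/
lemma stageZ3 {m : Mu} (hm : m.ok = true) {α : Am} (hα : α.ok = true) {P : Pd} (hP : P.ok = true)
    (hpa : P.p < α.a) {X Y β : ℕ} (hβ : 0 < β) {A B E : ℤ}
    {ε Λ : ℝ} (hε : 0 < ε) (hΛ : 0 < Λ) :
    ∃ Λ' : ℝ, 0 < Λ' ∧ ∀ C : ℝ, 0 < C → ∀ k l : ℕ,
      ∀ {V : Type} [DecidableEq V] (G : SimpleGraph V) (S : Finset V),
        KFree G S k → KFree Gᶜ S l →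
        ε * (C * Real.exp ((X:ℝ) / 1000000000 * k + (Y:ℝ) / 1000000000 * l)) ≤ S.card →
        (∀ x ∈ S, ((P.p:ℝ) / 1000000000 + 1 / 2000000000) * S.card ≤ ((nb G x S).card : ℝ)) →
        Line G S k l ((A:ℝ) / 1000000000) ((B:ℝ) / 1000000000) ((E:ℝ) / 1000000000) (Λ * C) →
        Line Gᶜ S l k ((cdiv (β * (B - Y)) : ℝ) / 1000000000)
          (((cdiv (β * (A - X)) + wkOf3 m α P β E : ℤ) : ℝ) / 1000000000)
          ((wtOf3 m α P β : ℝ) / 1000000000) Λ' := by
  have hD : ((D:ℕ):ℝ) = 1000000000 := by norm_num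
  simp only [Mu.ok, Bool.and_eq_true, Nat.blt_eq] at hm
  obtain ⟨⟨⟨⟨h1, h2⟩, h3⟩, h4⟩, h5⟩ := hm
  simp only [Pd.ok, Bool.and_eq_true, Nat.blt_eq] at hP
  obtain ⟨⟨⟨h6, h7⟩, h8⟩, h9⟩ := hP
  simp only [Am.ok, Bool.and_eq_true, Nat.blt_eq] at hα
  obtain ⟨⟨⟨h10, h11⟩, h12⟩, h13⟩ := hα
  have e4 := expGe_spec h4
  have e5 := expGe_spec h5
  have e8 := expGe_spec h8
  have e9 := expGe_spec h9
  have e12 := expLe_spec h12
  have e13 := expLe_spec h13
  rw [Nat.cast_sub h1.le] at e5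
  rw [Nat.cast_sub h7.le] at e9
  rw [Nat.cast_sub h11.le] at e13
  have r1 : (m.μ : ℝ) < ((D:ℕ):ℝ) := by exact_mod_cast h1
  have r2 : (0:ℝ) < m.μ := by exact_mod_cast h2
  have r6 : (0:ℝ) < P.p := by exact_mod_cast h6
  have r7 : (P.p:ℝ) < ((D:ℕ):ℝ) := by exact_mod_cast h7
  have r10 : (0:ℝ) < α.a := by exact_mod_cast h10
  have r11 : (α.a:ℝ) < ((D:ℕ):ℝ) := by exact_mod_cast h11
  have rpa : (P.p:ℝ) < α.a := by exact_mod_cast hpa
  have rβ : (0:ℝ) < β := by exact_mod_cast hβ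
  have hu := natdiv_lt (β * P.L) D (by norm_num)
  have hv := natdiv_lt (m.μ * (D - α.a)) (α.a - P.p) (by omega)
  have hw := natdiv_le ((D - m.μ) * (D - α.a)) (D - P.p) (by omega)
  rw [Nat.cast_mul] at hu
  rw [Nat.cast_mul, Nat.cast_sub h11.le, Nat.cast_sub hpa.le] at hv
  rw [Nat.cast_mul, Nat.cast_sub h11.le, Nat.cast_sub h1.le, Nat.cast_sub h7.le] at hw
  have hwk1 : cdiv (β * E) ≤ wkOf3 m α P β E := le_max_left _ _
  have hwk2 : ((m.L1 + β * P.L / D + m.μ * (D - α.a) / (α.a - P.p) + 2 : ℕ) : ℤ)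
      ≤ wkOf3 m α P β E := le_max_right _ _
  have hwk1r : (cdiv (β * E) : ℝ) ≤ wkOf3 m α P β E := by exact_mod_cast hwk1
  have hwk2r : (m.L1 : ℝ) + ((β * P.L / D : ℕ) : ℝ) + ((m.μ * (D - α.a) / (α.a - P.p) : ℕ) : ℝ) + 2
      ≤ wkOf3 m α P β E := by
    have h := (Int.cast_le (R := ℝ)).mpr hwk2
    rw [Int.cast_natCast, Nat.cast_add, Nat.cast_add, Nat.cast_add] at h
    exact_mod_cast h
  have hwt1 : (0:ℤ) ≤ wtOf3 m α P β := le_max_left _ _
  have hwt2 : (m.wt : ℤ) + cdiv (cdiv (β * (α.a * ((P.L : ℤ) - α.la) + (1000000000 - α.a) * ((P.M : ℤ) - α.lb))))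
    - (((D - m.μ) * (D - α.a) / (D - P.p) : ℕ) : ℤ) + 1 ≤ wtOf3 m α P β := le_max_right _ _
  have hwt1r : (0:ℝ) ≤ wtOf3 m α P β := by exact_mod_cast hwt1
  set z := cdiv (cdiv (β * (α.a * ((P.L : ℤ) - α.la) + (1000000000 - α.a) * ((P.M : ℤ) - α.lb))))
    with hzdef
  have hwt2r : (m.wt : ℝ) + (z:ℝ) - (((D - m.μ) * (D - α.a) / (D - P.p) : ℕ) : ℝ) + 1
      ≤ wtOf3 m α P β := by
    have h := (Int.cast_le (R := ℝ)).mpr hwt2
    rw [Int.cast_add, Int.cast_sub, Int.cast_add, Int.cast_natCast, Int.cast_natCast] at h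
    exact_mod_cast h
  have hz : (β:ℝ) * (α.a * ((P.L : ℝ) - α.la) + (((D:ℕ):ℝ) - α.a) * ((P.M : ℝ) - α.lb))
      / (((D:ℕ):ℝ) * ((D:ℕ):ℝ)) ≤ z := by
    rw [hD]
    set t : ℤ := β * (α.a * ((P.L : ℤ) - α.la) + (1000000000 - α.a) * ((P.M : ℤ) - α.lb)) with ht
    have q1 := le_cdiv_real t
    have q2 := le_cdiv_real (cdiv t)
    have q3 : (t:ℝ) / (1000000000 * 1000000000) ≤ z := by
      rw [← div_div]
      exact (div_le_div_of_nonneg_right q1 (by norm_num)).trans q2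
    refine le_trans (le_of_eq ?_) q3
    rw [ht]
    push_cast
    ring
  set wk := wkOf3 m α P β E with hwk
  set wt := wtOf3 m α P β with hwt
  have hDD : (D:ℕ) = 1000000000 := rfl
  -- abstract the scale
  have hNpos : (0:ℝ) < ((D:ℕ):ℝ) := by rw [hD]; norm_num
  have hL : -Real.log ((P.p:ℝ) / ((D:ℕ):ℝ)) ≤ (P.L:ℝ) / ((D:ℕ):ℝ) := by
    rw [← Real.log_inv, Real.log_le_iff_le_exp (by positivity), inv_div, div_le_iff₀ r6]
    linarith
  have hM : -Real.log (1 - (P.p:ℝ) / ((D:ℕ):ℝ)) ≤ (P.M:ℝ) / ((D:ℕ):ℝ) := by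
    have hx : (1 - (P.p:ℝ) / ((D:ℕ):ℝ)) = (((D:ℕ):ℝ) - P.p) / ((D:ℕ):ℝ) := by
      field_simp
    rw [hx, ← Real.log_inv, Real.log_le_iff_le_exp (by
      apply inv_pos.mpr; apply div_pos _ hNpos; linarith), inv_div, div_le_iff₀ (by linarith)]
    linarith
  have hL1 : -Real.log (1 - (m.μ:ℝ) / ((D:ℕ):ℝ)) ≤ (m.L1:ℝ) / ((D:ℕ):ℝ) := by
    have hx : (1 - (m.μ:ℝ) / ((D:ℕ):ℝ)) = (((D:ℕ):ℝ) - m.μ) / ((D:ℕ):ℝ) := by
      field_simp
    rw [hx, ← Real.log_inv, Real.log_le_iff_le_exp (by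
      apply inv_pos.mpr; apply div_pos _ hNpos; linarith), inv_div, div_le_iff₀ (by linarith)]
    linarith
  have hw0 : -Real.log ((m.μ:ℝ) / ((D:ℕ):ℝ)) ≤ (m.wt:ℝ) / ((D:ℕ):ℝ) := by
    rw [← Real.log_inv, Real.log_le_iff_le_exp (by positivity), inv_div, div_le_iff₀ r2]
    linarith
  have hla : (α.la:ℝ) / ((D:ℕ):ℝ) ≤ -Real.log ((α.a:ℝ) / ((D:ℕ):ℝ)) := by
    rw [← Real.log_inv, Real.le_log_iff_exp_le (by positivity), inv_div, le_div_iff₀ r10]
    linarith
  have hlb : (α.lb:ℝ) / ((D:ℕ):ℝ) ≤ -Real.log (1 - (α.a:ℝ) / ((D:ℕ):ℝ)) := by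
    have hx : (1 - (α.a:ℝ) / ((D:ℕ):ℝ)) = (((D:ℕ):ℝ) - α.a) / ((D:ℕ):ℝ) := by
      field_simp
    rw [hx, ← Real.log_inv, Real.le_log_iff_exp_le (by
      apply inv_pos.mpr; apply div_pos _ hNpos; linarith), inv_div, le_div_iff₀ (by linarith)]
    linarith
  have hAA := num3A (wk := (wk:ℝ)) hNpos r6 rpa r11 rβ.le hL hL1 hu hv hwk2r
  have hWW := num3W (wt := (wt:ℝ)) hNpos r6 rpa r11 rβ.le hL hM hla hlb hw0 hz hw hwt2r
  have hEE : (β:ℝ) / ((D:ℕ):ℝ) * ((E:ℝ) / ((D:ℕ):ℝ)) ≤ (wk:ℝ) / ((D:ℕ):ℝ) := by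
    have := le_cdiv_real (β * E)
    push_cast at this
    rw [← hD] at this
    have h9 : (β:ℝ) / ((D:ℕ):ℝ) * ((E:ℝ) / ((D:ℕ):ℝ)) = ((β * E : ℝ) / ((D:ℕ):ℝ)) / ((D:ℕ):ℝ) := by
      ring
    rw [h9]
    apply div_le_div_of_nonneg_right _ hNpos.le
    exact this.trans hwk1r
  rw [hD] at hAA hWW hEE r1 r7 r11
  have hT0 : 0 < ((α.a:ℝ) - P.p) / (1000000000 - P.p) := by
    apply div_pos <;> linarith
  have hT1 : ((α.a:ℝ) - P.p) / (1000000000 - P.p) < 1 := by
    rw [div_lt_one (by linarith)]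
    linarith
  obtain ⟨Λ', hΛ'0, hΛ'⟩ := stage2 (Xc := (X:ℝ) / 1000000000) (Yc := (Y:ℝ) / 1000000000)
    (A := (A:ℝ) / 1000000000) (B := (B:ℝ) / 1000000000) (E := (E:ℝ) / 1000000000)
    (δ0 := 1 / 2000000000)
    (show 0 < (β:ℝ) / 1000000000 by positivity)
    (show 0 < (P.p:ℝ) / 1000000000 by positivity)
    (show (P.p:ℝ) / 1000000000 < 1 by rw [div_lt_one (by norm_num)]; exact r7)
    (show 0 < (m.μ:ℝ) / 1000000000 by positivity)
    (show (m.μ:ℝ) / 1000000000 < 1 by rw [div_lt_one (by norm_num)]; exact r1)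
    hT0 hT1 (show 0 ≤ (wt:ℝ) / 1000000000 by positivity)
    hAA hWW hEE hε (by norm_num) hΛ
  refine ⟨Λ', hΛ'0, ?_⟩
  intro C hC k l V _ G S hSk hSl hSlow hdeg hline
  refine (hΛ' C hC k l G S hSk hSl hSlow hdeg hline).mono ?_ ?_ le_rfl le_rfl hΛ'0.le
  · have := le_cdiv_real (β * (B - Y))
    push_cast at this
    have h9 : (β:ℝ) / 1000000000 * ((B:ℝ) / 1000000000 - (Y:ℝ) / 1000000000)
        = ((β * (B - Y) : ℝ) / 1000000000) / 1000000000 := by
      ring
    rw [h9]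
    exact div_le_div_of_nonneg_right this (by norm_num)
  · have := le_cdiv_real (β * (A - X))
    push_cast at this ⊢
    have h9 : (β:ℝ) / 1000000000 * ((A:ℝ) / 1000000000 - (X:ℝ) / 1000000000)
        = ((β * (A - X) : ℝ) / 1000000000) / 1000000000 := by
      ring
    rw [h9, ← add_div]
    apply div_le_div_of_nonneg_right _ (by norm_num)
    linarith

/-- soundness of `run3` -/
lemma run3_sound (mb : ℕ) (hmb : MuTab mb) (ma : ℕ) (hma : AmTab ma) :
    ∀ (st : List ℕ) (X Y : ℕ) (Pa Pb : Pd) (r1 s1 r2 s2 : ℕ) (A B E : ℤ),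
      run3 mb ma X Y Pa Pb r1 s1 r2 s2 A B E st = true →
      (1 ≤ st.length → Pa.ok = true) → (2 ≤ st.length → Pb.ok = true) →
      ∀ ε Λ : ℝ, 0 < ε → 0 < Λ → ∀ᶠ C : ℝ in Filter.atTop, ∀ k l : ℕ,
        Cone r1 s1 r2 s2 k l →
        ∀ {V : Type} [DecidableEq V] (G : SimpleGraph V) (S : Finset V),
          KFree G S k → KFree Gᶜ S l →
          ε * (C * Real.exp ((X:ℝ) / 1000000000 * k + (Y:ℝ) / 1000000000 * l)) ≤ S.card →
          (1 ≤ st.length → ∀ x ∈ S,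
            ((Pa.p:ℝ) / 1000000000 + 1 / 2000000000) * S.card ≤ ((nb G x S).card : ℝ)) →
          (2 ≤ st.length → ∀ x ∈ S,
            ((Pb.p:ℝ) / 1000000000 + 1 / 2000000000) * S.card ≤ ((nb Gᶜ x S).card : ℝ)) →
          Line G S k l ((A:ℝ) / 1000000000) ((B:ℝ) / 1000000000) ((E:ℝ) / 1000000000) Λ →
          False := by
  intro st
  induction st with
  | nil =>
    intro X Y Pa Pb r1 s1 r2 s2 A B E hrun _ _ ε Λ hε hΛ
    simp only [run3, Bool.and_eq_true, decide_eq_true_eq] at hrun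
    obtain ⟨q1, q2⟩ := hrun
    filter_upwards [Filter.eventually_gt_atTop (Λ / ε)] with C hC
    intro k l hcone V _ G S hSk _ hSlow _ _ hline
    have h1 := hline k le_rfl S (Finset.Subset.refl _) hSk
    have q1' : ((A:ℝ) + E) * r1 + B * s1 ≤ X * r1 + Y * s1 := by exact_mod_cast q1
    have q2' : ((A:ℝ) + E) * r2 + B * s2 ≤ X * r2 + Y * s2 := by exact_mod_cast q2
    have q3 := hcone ((X:ℝ) - (A + E)) ((Y:ℝ) - B) (by linarith) (by linarith)
    have h2 : Real.exp ((A:ℝ) / 1000000000 * k + (B:ℝ) / 1000000000 * l + (E:ℝ) / 1000000000 * k)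
        ≤ Real.exp ((X:ℝ) / 1000000000 * k + (Y:ℝ) / 1000000000 * l) := by
      apply Real.exp_le_exp.mpr
      have : (A:ℝ) / 1000000000 * k + (B:ℝ) / 1000000000 * l + (E:ℝ) / 1000000000 * k
          = (((A:ℝ) + E) * k + B * l) / 1000000000 := by ring
      rw [this]
      have : (X:ℝ) / 1000000000 * k + (Y:ℝ) / 1000000000 * l = (X * k + Y * l) / 1000000000 := by ring
      rw [this]
      apply div_le_div_of_nonneg_right _ (by norm_num)
      linarith
    set F := Real.exp ((X:ℝ) / 1000000000 * k + (Y:ℝ) / 1000000000 * l) with hF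
    have hFpos : 0 < F := Real.exp_pos _
    have h3 : ε * (C * F) ≤ Λ * F := hSlow.trans (h1.trans (mul_le_mul_of_nonneg_left h2 hΛ.le))
    have h4 : Λ * F < ε * (C * F) := by
      rw [div_lt_iff₀ hε] at hC
      calc Λ * F < (C * ε) * F := mul_lt_mul_of_pos_right hC hFpos
        _ = _ := by ring
    linarith
  | cons n rest ih =>
    intro X Y Pa Pb r1 s1 r2 s2 A B E hrun hpa hpb ε Λ hε hΛ
    simp only [run3, Bool.and_eq_true, Nat.blt_eq] at hrun
    obtain ⟨⟨hβ, hpα⟩, hrun⟩ := hrun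
    obtain ⟨Λ', hΛ'0, hΛ'⟩ := stageZ3 (hmb (n % 512) (Nat.mod_lt _ (by norm_num)))
      (hma (n / 512 % 256) (Nat.mod_lt _ (by norm_num))) (hpa (by simp)) hpα
      (X := X) (Y := Y) (β := n / 131072) hβ (A := A) (B := B) (E := E) hε hΛ
    have hrest := ih Y X Pb Pa s1 r1 s2 r2 _ _ _ hrun
      (fun h => hpb (by simp only [List.length_cons]; omega))
      (fun _ => hpa (by simp)) ε Λ' hε hΛ'0
    filter_upwards [hrest, Filter.eventually_ge_atTop (1:ℝ)] with C hC hC1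
    intro k l hcone V _ G S hSk hSl hSlow hexa hexb hline
    refine hC l k hcone.swap Gᶜ S hSl (by rw [compl_compl]; exact hSk) ?_ ?_ ?_ ?_
    · rw [add_comm]; exact hSlow
    · intro h
      exact hexb (by simp only [List.length_cons]; omega)
    · intro _
      rw [compl_compl]
      exact hexa (by simp)
    · exact hΛ' C (by linarith) k l G S hSk hSl hSlow (hexa (by simp))
        (hline.mono le_rfl le_rfl le_rfl (by nlinarith) (by positivity))

end Pool.Agent.H111R2
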