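import Mathlib

open Finset

namespace Pool.Agent.H111R2

variable {V : Type*} [DecidableEq V]
set_option linter.unusedSectionVars false

/-- `S` contains no clique of `G` with `k` vertices. -/
def KFree (G : SimpleGraph V) (S : Finset V) (k : ℕ) : Prop := ∀ t ⊆ S, ¬ G.IsNClique k t

open Classical in
/-- The neighbours of `x` in `S`. -/
noncomputable def nb (G : SimpleGraph V) (x : V) (S : Finset V) : Finset V := S.filter (G.Adj x)

lemma mem_nb {G : SimpleGraph V} {x y : V} {S : Finset V} : y ∈ nb G x S ↔ y ∈ S ∧ G.Adj x y := by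
  classical
  simp [nb]

lemma nb_subset (G : SimpleGraph V) (x : V) (S : Finset V) : nb G x S ⊆ S := fun _ h => (mem_nb.mp h).1

lemma KFree.mono {G : SimpleGraph V} {S T : Finset V} {k : ℕ} (h : KFree G S k) (hT : T ⊆ S) :
    KFree G T k := fun t ht => h t (ht.trans hT)

lemma KFree.zero {G : SimpleGraph V} {S : Finset V} (h : KFree G S 0) : False :=
  h ∅ (empty_subset _) (by simp [SimpleGraph.isNClique_iff])

lemma KFree.step {G : SimpleGraph V} {S T : Finset V} {k : ℕ} (h : KFree G S (k + 1)) {x : V}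
    (hx : x ∈ S) (hT : T ⊆ S) (hadj : ∀ y ∈ T, G.Adj x y) : KFree G T k := by
  intro t ht hc
  refine h (insert x t) (insert_subset hx (ht.trans hT)) ?_
  exact hc.insert (fun b hb => hadj b (ht hb))

lemma KFree.empty_of_one {G : SimpleGraph V} {S : Finset V} (h : KFree G S 1) : S = ∅ := by
  rw [Finset.eq_empty_iff_forall_notMem]
  intro x hx
  exact h {x} (by simpa using hx) (by simp [SimpleGraph.isNClique_iff])

/-- the excess of the density of `x` into `Y` over `p` (nonnegative part) -/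
noncomputable def ex (G : SimpleGraph V) (p : ℝ) (Y : Finset V) (x : V) : ℝ :=
  max 0 (((nb G x Y).card : ℝ) / Y.card - p)

lemma ex_nonneg (G : SimpleGraph V) (p : ℝ) (Y : Finset V) (x : V) : 0 ≤ ex G p Y x := le_max_left _ _

lemma ex_le (G : SimpleGraph V) {p : ℝ} (hp1 : p < 1) (Y : Finset V) (x : V) :
    ex G p Y x ≤ 1 - p := by
  unfold ex
  apply max_le (by linarith)
  have h1 : ((nb G x Y).card : ℝ) ≤ Y.card := by
    exact_mod_cast card_le_card (nb_subset G x Y)
  have h2 : ((nb G x Y).card : ℝ) / Y.card ≤ 1 := div_le_one_of_le₀ h1 (by positivity)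
  linarith

lemma amgm (c : ℕ) (hc : 1 ≤ c) (x y : ℝ) (hx : 0 ≤ x) (hy : 0 ≤ y) :
    c * (x ^ (c - 1) * y) ≤ (c - 1) * x ^ c + y ^ c := by
  obtain ⟨d, rfl⟩ : ∃ d, c = d + 1 := ⟨c - 1, by omega⟩
  simp only [Nat.add_sub_cancel]
  rcases hx.eq_or_lt with rfl | hx
  · rcases Nat.eq_zero_or_pos d with rfl | hd
    · simp
    · have : (0:ℝ) ^ d = 0 := zero_pow (by omega)
      have h2 : (0:ℝ) ^ (d+1) = 0 := zero_pow (by omega)
      rw [this, h2]
      have : 0 ≤ y ^ (d+1) := by positivity
      linarith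
  · have hb := one_add_mul_le_pow (a := y / x - 1) (by
      have : 0 ≤ y / x := by positivity
      linarith) (d + 1)
    have h1 : (1 + (y / x - 1)) ^ (d+1) = y ^ (d+1) / x ^ (d+1) := by
      rw [show 1 + (y / x - 1) = y / x by ring, div_pow]
    rw [h1, le_div_iff₀ (by positivity)] at hb
    have h2 : (1 + ((d+1 : ℕ) : ℝ) * (y / x - 1)) * x ^ (d+1)
        = x ^ (d+1) + (d+1) * (x ^ d * y) - (d+1) * x ^ (d+1) := by
      push_cast
      field_simp
      ring
    rw [h2] at hb
    push_cast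
    linarith

lemma young (c : ℕ) (hc : 1 ≤ c) (x y s : ℝ) (hx : 0 ≤ x) (hy : 0 ≤ y) (hs : 0 < s) :
    c * (x ^ (c - 1) * y) ≤ s * ((c - 1) * x ^ c + y ^ c / s ^ c) := by
  have h := amgm c hc x (y / s) hx (by positivity)
  have h2 : c * (x ^ (c - 1) * y) = s * (c * (x ^ (c - 1) * (y / s))) := by
    field_simp
  rw [h2, ← div_pow]
  exact mul_le_mul_of_nonneg_left h hs.le

open Classical in
/-- adjacency indicator -/
noncomputable def ad (G : SimpleGraph V) (x y : V) : ℝ := if G.Adj x y then 1 else 0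

lemma card_nb (G : SimpleGraph V) (x : V) (S : Finset V) :
    ((nb G x S).card : ℝ) = ∑ y ∈ S, ad G x y := by
  classical
  unfold nb ad
  rw [← Finset.sum_filter, Finset.sum_const, nsmul_eq_mul, mul_one]

lemma card_nb_nb (G : SimpleGraph V) (x z : V) (S : Finset V) :
    ((nb G z (nb G x S)).card : ℝ) = ∑ y ∈ S, ad G x y * ad G z y := by
  classical
  rw [card_nb]
  unfold nb ad
  rw [Finset.sum_filter]
  apply Finset.sum_congr rfl
  intro y _
  by_cases h : G.Adj x y <;> simp [h]

/-- the quadratic (Cauchy-Schwarz) inequality -/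
lemma quad (G : SimpleGraph V) (X Y : Finset V) (q : V → ℝ) :
    (∑ x ∈ X, q x * ((nb G x Y).card : ℝ)) ^ 2
      ≤ Y.card * ∑ x ∈ X, q x * ∑ z ∈ X, q z * ((nb G z (nb G x Y)).card : ℝ) := by
  classical
  have h1 : ∑ x ∈ X, q x * ((nb G x Y).card : ℝ)
      = ∑ y ∈ Y, ∑ x ∈ X, q x * ad G x y := by
    rw [Finset.sum_comm]
    apply Finset.sum_congr rfl
    intro x _
    rw [card_nb, Finset.mul_sum]
  have h2 : ∑ x ∈ X, q x * ∑ z ∈ X, q z * ((nb G z (nb G x Y)).card : ℝ)
      = ∑ y ∈ Y, (∑ x ∈ X, q x * ad G x y) ^ 2 := by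
    have : ∀ x ∈ X, q x * ∑ z ∈ X, q z * ((nb G z (nb G x Y)).card : ℝ)
        = ∑ y ∈ Y, ∑ z ∈ X, (q x * ad G x y)
            * (q z * ad G z y) := by
      intro x _
      rw [Finset.sum_comm, Finset.mul_sum]
      apply Finset.sum_congr rfl
      intro z _
      rw [card_nb_nb, Finset.mul_sum, Finset.mul_sum]
      apply Finset.sum_congr rfl
      intro y _
      ring
    rw [Finset.sum_congr rfl this, Finset.sum_comm]
    apply Finset.sum_congr rfl
    intro y _
    rw [sq, Finset.sum_mul_sum]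
  rw [h1, h2]
  exact sq_sum_le_card_mul_sum_sq

lemma split_sum (G : SimpleGraph V) (X : Finset V) (x : V) (hx : x ∈ X) (g : V → ℝ) :
    ∑ z ∈ X, g z = g x + (∑ z ∈ nb G x X, g z + ∑ z ∈ nb Gᶜ x X, g z) := by
  classical
  rw [← Finset.add_sum_erase X g hx]
  congr 1
  rw [← Finset.sum_union]
  · apply Finset.sum_congr _ (fun _ _ => rfl)
    ext z
    simp only [Finset.mem_erase, Finset.mem_union, mem_nb, SimpleGraph.compl_adj]
    constructor
    · rintro ⟨h1, h2⟩
      by_cases h : G.Adj x z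
      · exact Or.inl ⟨h2, h⟩
      · exact Or.inr ⟨h2, Ne.symm h1, h⟩
    · rintro (⟨h1, h2⟩ | ⟨h1, h2, h3⟩)
      · exact ⟨h2.ne', h1⟩
      · exact ⟨Ne.symm h2, h1⟩
  · rw [Finset.disjoint_left]
    intro z h1 h2
    rw [mem_nb] at h1 h2
    exact ((SimpleGraph.compl_adj _ _ _).mp h2.2).2 h1.2

lemma nb_card_lt (G : SimpleGraph V) (X : Finset V) (x : V) (hx : x ∈ X) :
    (nb G x X).card < X.card := by
  apply Finset.card_lt_card
  refine ⟨nb_subset G x X, fun h => ?_⟩
  have := (mem_nb.mp (h hx)).2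
  exact G.loopless.irrefl x this


/-- numerical parameters of the potential function argument -/
structure Params (β p μ v u K m : ℝ) (c : ℕ) : Prop where
  hc : 2 ≤ c
  hβ : 0 ≤ β
  hp0 : 0 < p
  hp1 : p < 1
  hμ0 : 0 < μ
  hμ1 : μ < 1
  hv0 : 0 < v
  hv1 : v ≤ 1
  hu0 : 0 < u
  hu : u ^ c ≤ p ^ β
  hK : 0 < K
  hcond : ((1 - μ) * v + μ) + (1 - p) / K * u ≤ u
  hm : m = (1 - μ) * v ^ c

lemma local_sum_lt {β p μ v u K m : ℝ} {c : ℕ} (P : Params β p μ v u K m c) (G : SimpleGraph V)
    (X Y : Finset V) (x : V) (hx : x ∈ X) (S : ℝ)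
    (hS : S = ∑ z ∈ X, ex G p Y z ^ c) (hSK : K < S)
    (hB : ∑ z ∈ nb Gᶜ x X, ex G p Y z ^ c ≤ μ * S)
    (hRR : u ^ c * ∑ z ∈ nb G x X, ex G p (nb G x Y) z ^ c ≤ m * S)
    (hBR : u ^ c * ∑ z ∈ nb Gᶜ x X, ex G p (nb G x Y) z ^ c ≤ μ * S) :
    ∑ z ∈ X, ex G p Y z ^ (c - 1) * ex G p (nb G x Y) z < S := by
  obtain ⟨hc, hβ, hp0, hp1, hμ0, hμ1, hv0, hv1, hu0, hu, hK, hcond, hm⟩ := P
  have hcpos : (0:ℝ) < c := by
    have : (2:ℝ) ≤ c := by exact_mod_cast hc
    linarith
  have hc1 : (1:ℝ) ≤ c := by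
    have : (2:ℝ) ≤ c := by exact_mod_cast hc
    linarith
  have hsplit := split_sum G X x hx (fun z => ex G p Y z ^ c)
  rw [← hS] at hsplit
  set R := ∑ z ∈ nb G x X, ex G p Y z ^ c with hR
  set B := ∑ z ∈ nb Gᶜ x X, ex G p Y z ^ c with hBdef
  have hx0 : 0 ≤ ex G p Y x ^ c := pow_nonneg (ex_nonneg _ _ _ _) _
  have hRS : R ≤ S - B := by linarith
  rw [split_sum G X x hx]
  -- the diagonal term
  have hdiag : ex G p Y x ^ (c - 1) * ex G p (nb G x Y) x ≤ 1 - p := by
    have h1 : ex G p Y x ^ (c - 1) ≤ 1 :=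
      pow_le_one₀ (ex_nonneg _ _ _ _) (by linarith [ex_le G hp1 Y x])
    have h2 : ex G p (nb G x Y) x ≤ 1 - p := ex_le G hp1 _ _
    calc ex G p Y x ^ (c - 1) * ex G p (nb G x Y) x ≤ 1 * ex G p (nb G x Y) x :=
          mul_le_mul_of_nonneg_right h1 (ex_nonneg _ _ _ _)
      _ ≤ 1 - p := by linarith
  -- general Young bound
  have hyoung : ∀ (T : Finset V) (s : ℝ), 0 < s →
      c * ∑ z ∈ T, ex G p Y z ^ (c - 1) * ex G p (nb G x Y) z
        ≤ s * ((c - 1) * ∑ z ∈ T, ex G p Y z ^ c + (∑ z ∈ T, ex G p (nb G x Y) z ^ c) / s ^ c) := by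
    intro T s hs
    rw [Finset.mul_sum, Finset.mul_sum, Finset.sum_div, ← Finset.sum_add_distrib, Finset.mul_sum]
    apply Finset.sum_le_sum
    intro z _
    exact young c (by omega) _ _ s (ex_nonneg _ _ _ _) (ex_nonneg _ _ _ _) hs
  have hred := hyoung (nb G x X) (v / u) (by positivity)
  have hblue := hyoung (nb Gᶜ x X) (1 / u) (by positivity)
  have hred2 : (∑ z ∈ nb G x X, ex G p (nb G x Y) z ^ c) / (v / u) ^ c ≤ (1 - μ) * S := by
    rw [div_pow, div_div_eq_mul_div, div_le_iff₀ (by positivity)]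
    rw [hm] at hRR
    linarith
  have hblue2 : (∑ z ∈ nb Gᶜ x X, ex G p (nb G x Y) z ^ c) / (1 / u) ^ c ≤ μ * S := by
    rw [div_pow, one_pow, div_div_eq_mul_div, div_one]
    linarith
  rw [← hR] at hred
  rw [← hBdef] at hblue
  have hS0 : 0 < S := by linarith
  have hred3 : c * ∑ z ∈ nb G x X, ex G p Y z ^ (c - 1) * ex G p (nb G x Y) z
      ≤ (v / u) * ((c - 1) * (S - B) + (1 - μ) * S) := by
    refine hred.trans ?_
    apply mul_le_mul_of_nonneg_left _ (by positivity)
    have : (c - 1 : ℝ) * R ≤ (c - 1) * (S - B) := mul_le_mul_of_nonneg_left hRS (by linarith)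
    linarith
  have hblue3 : c * ∑ z ∈ nb Gᶜ x X, ex G p Y z ^ (c - 1) * ex G p (nb G x Y) z
      ≤ (1 / u) * ((c - 1) * B + μ * S) := by
    refine hblue.trans ?_
    apply mul_le_mul_of_nonneg_left _ (by positivity)
    linarith
  have hsum : (v / u) * ((c - 1) * (S - B) + (1 - μ) * S) + (1 / u) * ((c - 1) * B + μ * S)
      ≤ (c / u) * (S * ((1 - μ) * v + μ)) := by
    have h1 : (v / u) * ((c - 1) * (S - B) + (1 - μ) * S) + (1 / u) * ((c - 1) * B + μ * S)
        = (1 / u) * ((c - 1) * (v * S + (1 - v) * B) + S * ((1 - μ) * v + μ)) := by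
      field_simp
      ring
    have h2 : (c / u) * (S * ((1 - μ) * v + μ))
        = (1 / u) * ((c - 1) * (v * S + (1 - v) * (μ * S)) + S * ((1 - μ) * v + μ)) := by
      field_simp
      ring
    rw [h1, h2]
    apply mul_le_mul_of_nonneg_left _ (by positivity)
    have h3 : (1 - v) * B ≤ (1 - v) * (μ * S) := mul_le_mul_of_nonneg_left hB (by linarith)
    have h4 : (c - 1 : ℝ) * (v * S + (1 - v) * B) ≤ (c - 1) * (v * S + (1 - v) * (μ * S)) :=
      mul_le_mul_of_nonneg_left (by linarith) (by linarith)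
    linarith
  have hfin : (c / u) * (S * ((1 - μ) * v + μ)) + c * (1 - p) < c * S := by
    have h1 : ((1 - μ) * v + μ) / u ≤ 1 - (1 - p) / K := by
      rw [div_le_iff₀ hu0]
      linarith
    have h2 : (1 - p) < (1 - p) / K * S := by
      rw [div_mul_eq_mul_div, lt_div_iff₀ hK]
      exact mul_lt_mul_of_pos_left hSK (by linarith)
    have h3 : (c / u) * (S * ((1 - μ) * v + μ)) = c * (S * (((1 - μ) * v + μ) / u)) := by
      field_simp
    rw [h3]
    have h4 : S * (((1 - μ) * v + μ) / u) ≤ S * (1 - (1 - p) / K) :=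
      mul_le_mul_of_nonneg_left h1 hS0.le
    have h5 : S * (((1 - μ) * v + μ) / u) + (1 - p) < S := by linarith
    calc c * (S * (((1 - μ) * v + μ) / u)) + c * (1 - p)
        = c * (S * (((1 - μ) * v + μ) / u) + (1 - p)) := by ring
      _ < c * S := mul_lt_mul_of_pos_left h5 hcpos
  have hcd : c * (ex G p Y x ^ (c - 1) * ex G p (nb G x Y) x) ≤ c * (1 - p) :=
    mul_le_mul_of_nonneg_left hdiag hcpos.le
  have htot : c * (ex G p Y x ^ (c - 1) * ex G p (nb G x Y) x +
      (∑ z ∈ nb G x X, ex G p Y z ^ (c - 1) * ex G p (nb G x Y) z +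
        ∑ z ∈ nb Gᶜ x X, ex G p Y z ^ (c - 1) * ex G p (nb G x Y) z)) < c * S := by
    rw [mul_add, mul_add]
    linarith
  exact lt_of_mul_lt_mul_left htot hcpos.le

/-- if the local inequality holds at every vertex with positive excess, the quadratic inequality is
violated -/
lemma no_local {p : ℝ} {c : ℕ} (hc : 2 ≤ c) (hp0 : 0 < p) (G : SimpleGraph V)
    (X Y : Finset V) (S : ℝ) (hS : S = ∑ z ∈ X, ex G p Y z ^ c) (hSpos : 0 < S)
    (hY : 0 < Y.card)
    (hloc : ∀ x ∈ X, 0 < ex G p Y x →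
      ∑ z ∈ X, ex G p Y z ^ (c - 1) * ex G p (nb G x Y) z < S) : False := by
  have hYr : (0:ℝ) < Y.card := by exact_mod_cast hY
  set q : V → ℝ := fun x => ex G p Y x ^ (c - 1) with hq
  have hq0 : ∀ x, 0 ≤ q x := fun x => pow_nonneg (ex_nonneg _ _ _ _) _
  have hqpos : ∀ x, 0 < q x → 0 < ex G p Y x := by
    intro x hx
    rcases (ex_nonneg G p Y x).eq_or_lt with h | h
    · exfalso
      simp only [hq, ← h] at hx
      rw [zero_pow (by omega)] at hx
      exact lt_irrefl _ hx
    · exact h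
  have hcard : ∀ x, 0 < ex G p Y x → ((nb G x Y).card : ℝ) = (p + ex G p Y x) * Y.card := by
    intro x hx
    have h1 : ex G p Y x = ((nb G x Y).card : ℝ) / Y.card - p := by
      unfold ex at hx ⊢
      rcases lt_max_iff.mp hx with h | h
      · exact absurd h (lt_irrefl _)
      · exact max_eq_right h.le
    rw [h1]
    field_simp
    ring
  have hqc : ∀ x, q x * ((nb G x Y).card : ℝ) = (p * q x + ex G p Y x ^ c) * Y.card := by
    intro x
    rcases (hq0 x).eq_or_lt with h | h
    · have h2 : ex G p Y x = 0 := by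
        simp only [hq] at h
        exact pow_eq_zero_iff (by omega) |>.mp h.symm
      rw [← h, h2, zero_pow (by omega)]
      ring
    · rw [hcard x (hqpos x h)]
      have : ex G p Y x ^ c = q x * ex G p Y x := by
        simp only [hq]
        rw [← pow_succ]
        congr 1
        omega
      rw [this]
      ring
  set T := ∑ x ∈ X, q x with hT
  have hD : ∑ x ∈ X, q x * ((nb G x Y).card : ℝ) = (p * T + S) * Y.card := by
    rw [Finset.sum_congr rfl (fun x _ => hqc x), ← Finset.sum_mul, Finset.sum_add_distrib,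
      ← Finset.mul_sum, hS]
  have hquad := quad G X Y q
  rw [hD] at hquad
  have hle : ∀ x ∈ X, q x * ∑ z ∈ X, q z * ((nb G z (nb G x Y)).card : ℝ)
      ≤ q x * ((nb G x Y).card : ℝ) * (p * T + S) := by
    intro x hx
    rcases (hq0 x).eq_or_lt with h | h
    · rw [← h]; simp
    · rw [mul_assoc]
      apply mul_le_mul_of_nonneg_left _ h.le
      have hex := hqpos x h
      have hcx := hcard x hex
      have hpos : (0:ℝ) < (nb G x Y).card := by rw [hcx]; positivity
      have h1 : ∀ z ∈ X, q z * ((nb G z (nb G x Y)).card : ℝ)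
          ≤ ((nb G x Y).card : ℝ) * (p * q z + q z * ex G p (nb G x Y) z) := by
        intro z _
        have h2 : ((nb G z (nb G x Y)).card : ℝ) / (nb G x Y).card - p
            ≤ ex G p (nb G x Y) z := le_max_right _ _
        have h3 : ((nb G z (nb G x Y)).card : ℝ)
            ≤ (p + ex G p (nb G x Y) z) * (nb G x Y).card := by
          rw [← div_le_iff₀ hpos]
          linarith
        calc q z * ((nb G z (nb G x Y)).card : ℝ)
            ≤ q z * ((p + ex G p (nb G x Y) z) * (nb G x Y).card) :=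
              mul_le_mul_of_nonneg_left h3 (hq0 z)
          _ = _ := by ring
      refine (Finset.sum_le_sum h1).trans ?_
      rw [← Finset.mul_sum, Finset.sum_add_distrib, ← Finset.mul_sum]
      apply mul_le_mul_of_nonneg_left _ hpos.le
      have := hloc x hx hex
      linarith
  have hlt : ∃ x ∈ X, q x * ∑ z ∈ X, q z * ((nb G z (nb G x Y)).card : ℝ)
      < q x * ((nb G x Y).card : ℝ) * (p * T + S) := by
    have : ∃ x ∈ X, 0 < ex G p Y x ^ c := by
      by_contra hcon
      push Not at hcon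
      have : S ≤ 0 := by
        rw [hS]
        exact Finset.sum_nonpos hcon
      linarith
    obtain ⟨x, hx, hxc⟩ := this
    have hex : 0 < ex G p Y x := by
      rcases (ex_nonneg G p Y x).eq_or_lt with h | h
      · rw [← h, zero_pow (by omega)] at hxc
        exact absurd hxc (lt_irrefl _)
      · exact h
    have hqx : 0 < q x := pow_pos hex _
    refine ⟨x, hx, ?_⟩
    rw [mul_assoc]
    apply mul_lt_mul_of_pos_left _ hqx
    have hcx := hcard x hex
    have hpos : (0:ℝ) < (nb G x Y).card := by rw [hcx]; positivity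
    have h1 : ∀ z ∈ X, q z * ((nb G z (nb G x Y)).card : ℝ)
        ≤ ((nb G x Y).card : ℝ) * (p * q z + q z * ex G p (nb G x Y) z) := by
      intro z _
      have h2 : ((nb G z (nb G x Y)).card : ℝ) / (nb G x Y).card - p
          ≤ ex G p (nb G x Y) z := le_max_right _ _
      have h3 : ((nb G z (nb G x Y)).card : ℝ)
          ≤ (p + ex G p (nb G x Y) z) * (nb G x Y).card := by
        rw [← div_le_iff₀ hpos]
        linarith
      calc q z * ((nb G z (nb G x Y)).card : ℝ)
          ≤ q z * ((p + ex G p (nb G x Y) z) * (nb G x Y).card) :=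
            mul_le_mul_of_nonneg_left h3 (hq0 z)
        _ = _ := by ring
    refine (Finset.sum_le_sum h1).trans_lt ?_
    rw [← Finset.mul_sum, Finset.sum_add_distrib, ← Finset.mul_sum]
    apply mul_lt_mul_of_pos_left _ hpos
    have := hloc x hx hex
    linarith
  have hsumlt : ∑ x ∈ X, q x * ∑ z ∈ X, q z * ((nb G z (nb G x Y)).card : ℝ)
      < ∑ x ∈ X, q x * ((nb G x Y).card : ℝ) * (p * T + S) := Finset.sum_lt_sum hle hlt
  rw [← Finset.sum_mul, hD] at hsumlt
  have h1 : (Y.card : ℝ) * ∑ x ∈ X, q x * ∑ z ∈ X, q z * ((nb G z (nb G x Y)).card : ℝ)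
      < Y.card * ((p * T + S) * Y.card * (p * T + S)) := mul_lt_mul_of_pos_left hsumlt hYr
  have h2 : (Y.card : ℝ) * ((p * T + S) * Y.card * (p * T + S)) = ((p * T + S) * Y.card) ^ 2 := by
    ring
  linarith

/-- **Core theorem.** -/
theorem core {β p μ v u K m M0 : ℝ} {c : ℕ} (P : Params β p μ v u K m c) (hM0 : 0 < M0)
    (G : SimpleGraph V) (S0 : Finset V) (k : ℕ)
    (hT : ∀ Y ⊆ S0, ∀ a ≤ k, KFree G Y a → K * (Y.card : ℝ) ^ β ≤ M0 * (m ^ a)⁻¹) :
    ∀ n : ℕ, ∀ X Y : Finset V, X.card ≤ n → Y ⊆ S0 → ∀ a t : ℕ, a ≤ k → KFree G (X ∪ Y) a →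
      KFree Gᶜ X t →
      (Y.card : ℝ) ^ β * ∑ x ∈ X, ex G p Y x ^ c ≤ M0 * (m ^ a)⁻¹ * (μ ^ t)⁻¹ := by
  have P' := P
  obtain ⟨hc, hβ, hp0, hp1, hμ0, hμ1, hv0, hv1, hu0, hu, hK, hcond, hm⟩ := P'
  have hmpos : 0 < m := by
    rw [hm]
    have : 0 < 1 - μ := by linarith
    positivity
  intro n
  induction n with
  | zero =>
    intro X Y hX _ a t _ _ _
    have : X = ∅ := Finset.card_eq_zero.mp (by omega)
    subst this
    simp only [Finset.sum_empty, mul_zero]
    positivity
  | succ n ih =>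
    intro X Y hX hY a t ha hXY hXt
    by_contra hlt
    push Not at hlt
    set S := ∑ x ∈ X, ex G p Y x ^ c with hS
    set M := M0 * (m ^ a)⁻¹ * (μ ^ t)⁻¹ with hM
    have hMpos : 0 < M := by positivity
    have hS0 : 0 ≤ S := Finset.sum_nonneg (fun x _ => pow_nonneg (ex_nonneg _ _ _ _) _)
    have hYb : 0 ≤ (Y.card : ℝ) ^ β := by positivity
    have hprod : 0 < (Y.card : ℝ) ^ β * S := hMpos.trans hlt
    have hSpos : 0 < S := by
      rcases hS0.eq_or_lt with h | h
      · rw [← h] at hprod; simp at hprod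
      · exact h
    have hYbpos : 0 < (Y.card : ℝ) ^ β := by
      rcases hYb.eq_or_lt with h | h
      · rw [← h] at hprod; simp at hprod
      · exact h
    have hYcard : 0 < Y.card := by
      rcases Nat.eq_zero_or_pos Y.card with h | h
      · exfalso
        have : S = 0 := by
          rw [hS]
          apply Finset.sum_eq_zero
          intro x _
          have : ex G p Y x = 0 := by
            unfold ex
            rw [h]
            simp only [Nat.cast_zero, div_zero, zero_sub]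
            exact max_eq_left (by linarith)
          rw [this, zero_pow (by omega)]
        linarith
      · exact h
    have hYr : (0:ℝ) < Y.card := by exact_mod_cast hYcard
    have hSK : K < S := by
      have h1 := hT Y hY a ha (hXY.mono subset_union_right)
      have h2 : M0 * (m ^ a)⁻¹ ≤ M := by
        rw [hM]
        apply le_mul_of_one_le_right (by positivity)
        rw [one_le_inv₀ (by positivity)]
        exact pow_le_one₀ hμ0.le hμ1.le
      have h3 : K * (Y.card : ℝ) ^ β < S * (Y.card : ℝ) ^ β := by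
        calc K * (Y.card : ℝ) ^ β ≤ M := h1.trans h2
          _ < _ := hlt
          _ = _ := mul_comm _ _
      exact lt_of_mul_lt_mul_right h3 hYb
    refine no_local hc hp0 G X Y S hS hSpos hYcard ?_
    intro x hx hex
    have hcardX : ∀ H : SimpleGraph V, (nb H x X).card ≤ n := by
      intro H
      have := nb_card_lt H X x hx
      omega
    obtain ⟨t', rfl⟩ : ∃ t', t = t' + 1 := by
      rcases t with _ | t'
      · exact absurd hXt.zero id
      · exact ⟨t', rfl⟩
    obtain ⟨a', rfl⟩ : ∃ a', a = a' + 1 := by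
      rcases a with _ | a'
      · exact absurd hXY.zero id
      · exact ⟨a', rfl⟩
    have hYx : ((nb G x Y).card : ℝ) = (p + ex G p Y x) * Y.card := by
      have h1 : ex G p Y x = ((nb G x Y).card : ℝ) / Y.card - p := by
        unfold ex at hex ⊢
        rcases lt_max_iff.mp hex with h | h
        · exact absurd h (lt_irrefl _)
        · exact max_eq_right h.le
      rw [h1]
      field_simp
      ring
    have hYxb : u ^ c * (Y.card : ℝ) ^ β ≤ ((nb G x Y).card : ℝ) ^ β := by
      calc u ^ c * (Y.card : ℝ) ^ β ≤ p ^ β * (Y.card : ℝ) ^ β :=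
            mul_le_mul_of_nonneg_right hu hYb
        _ = (p * Y.card) ^ β := (Real.mul_rpow hp0.le hYr.le).symm
        _ ≤ _ := by
          apply Real.rpow_le_rpow (by positivity) _ hβ
          rw [hYx]
          apply mul_le_mul_of_nonneg_right _ hYr.le
          linarith
    -- a reduction lemma for the two moves into `nb G x Y`
    have hmove : ∀ (w' w : ℝ), 0 ≤ w' → ((nb G x Y).card : ℝ) ^ β * w' ≤ w * M → 0 ≤ w →
        u ^ c * w' ≤ w * S := by
      intro w' w hw0 hle hw
      have h1 : u ^ c * (Y.card : ℝ) ^ β * w' ≤ w * ((Y.card : ℝ) ^ β * S) := by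
        calc u ^ c * (Y.card : ℝ) ^ β * w' ≤ ((nb G x Y).card : ℝ) ^ β * w' :=
              mul_le_mul_of_nonneg_right hYxb hw0
          _ ≤ w * M := hle
          _ ≤ _ := mul_le_mul_of_nonneg_left hlt.le hw
      have h2 : (Y.card : ℝ) ^ β * (u ^ c * w') ≤ (Y.card : ℝ) ^ β * (w * S) := by
        calc (Y.card : ℝ) ^ β * (u ^ c * w') = u ^ c * (Y.card : ℝ) ^ β * w' := by ring
          _ ≤ _ := h1
          _ = _ := by ring
      exact le_of_mul_le_mul_left h2 hYbpos
    have hBfree : KFree Gᶜ (nb Gᶜ x X) t' :=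
      hXt.step hx (nb_subset _ _ _) (fun y hy => (mem_nb.mp hy).2)
    refine local_sum_lt P G X Y x hx S hS hSK ?_ ?_ ?_
    · -- plain blue move
      have h := ih (nb Gᶜ x X) Y (hcardX _) hY (a' + 1) t' ha
        (hXY.mono (union_subset_union_left (nb_subset _ _ _))) hBfree
      have hMB : M0 * (m ^ (a' + 1))⁻¹ * (μ ^ t')⁻¹ = μ * M := by
        rw [hM, pow_succ μ t']
        field_simp
      rw [hMB] at h
      have h1 : (Y.card : ℝ) ^ β * ∑ z ∈ nb Gᶜ x X, ex G p Y z ^ c
          ≤ (Y.card : ℝ) ^ β * (μ * S) := by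
        calc _ ≤ μ * M := h
          _ ≤ μ * ((Y.card : ℝ) ^ β * S) := mul_le_mul_of_nonneg_left hlt.le hμ0.le
          _ = _ := by ring
      exact le_of_mul_le_mul_left h1 hYbpos
    · -- red move
      have h := ih (nb G x X) (nb G x Y) (hcardX _) ((nb_subset _ _ _).trans hY) a' (t' + 1)
        (by omega)
        (hXY.step (mem_union_left _ hx) (union_subset_union (nb_subset _ _ _) (nb_subset _ _ _))
          (by
            intro y hy
            rcases mem_union.mp hy with h | h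
            · exact (mem_nb.mp h).2
            · exact (mem_nb.mp h).2))
        (hXt.mono (nb_subset _ _ _))
      have hMR : M0 * (m ^ a')⁻¹ * (μ ^ (t' + 1))⁻¹ = m * M := by
        rw [hM, pow_succ m a']
        field_simp
      rw [hMR] at h
      exact hmove _ _ (Finset.sum_nonneg (fun z _ => pow_nonneg (ex_nonneg _ _ _ _) _)) h hmpos.le
    · -- density boost move
      have h := ih (nb Gᶜ x X) (nb G x Y) (hcardX _) ((nb_subset _ _ _).trans hY) (a' + 1) t' ha
        (hXY.mono (union_subset_union (nb_subset _ _ _) (nb_subset _ _ _))) hBfree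
      have hMB : M0 * (m ^ (a' + 1))⁻¹ * (μ ^ t')⁻¹ = μ * M := by
        rw [hM, pow_succ μ t']
        field_simp
      rw [hMB] at h
      exact hmove _ _ (Finset.sum_nonneg (fun z _ => pow_nonneg (ex_nonneg _ _ _ _) _)) h hμ0.le

end Pool.Agent.H111R2
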