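import Pool.Agent.H111R2.DataXP0
import Pool.Agent.H111R2.DataXP1
import Pool.Agent.H111R2.DataXP2
import Pool.Agent.H111R2.DataXP3
import Pool.Agent.H111R2.DataXP4

namespace Pool.Agent.H111R2

/-- the certificate -/
def cellsX : List Cell3 := partX_0 ++ partX_1 ++ partX_2 ++ partX_3 ++ partX_4

theorem clX_eq : claims3 cellsX = clX := by decide +kernel

theorem chainX : chain3 0 cellsX = true := by decide +kernel

theorem belowX : cellsX.all (fun c => clX.all (fun f => c.below f)) = true := by decide +kernel

theorem okX : cellsX.all (Cell3.ok mbX maX clX) = true := by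
  simp only [cellsX, List.all_append, partokX_0, partokX_1, partokX_2, partokX_3, partokX_4, Bool.and_self]

theorem checkX : check3 mbX maX cellsX = true := by
  simp only [check3, clX_eq, mbokX, maokX, chainX, belowX, okX, Bool.and_self]

theorem memX : ((593377908, 602023000) : ℕ × ℕ) ∈ claims3 cellsX := by
  rw [clX_eq]
  decide +kernel

end Pool.Agent.H111R2
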