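import Pool.Agent.H111R2.Cert

open Finset Filter

namespace Pool.Agent.H111R2

/-- a bound for all colour-clique-free sets gives an upper bound for Ramsey numbers -/
theorem ramsey_bound_of {v c : ℝ} (hv : 0 ≤ v) (hc : Real.exp v < c)
    (h : ∃ C : ℝ, 0 < C ∧ ∀ k : ℕ, ∀ {V : Type} [DecidableEq V] (G : SimpleGraph V) (S : Finset V),
      KFree G S k → KFree Gᶜ S k → (S.card : ℝ) + 1 ≤ C * Real.exp (v * k)) :
    ∃ K : ℕ, ∀ k : ℕ, K ≤ k → ∃ n : ℕ, 0 < n ∧ (n : ℝ) < c ^ k ∧
      ∀ G : SimpleGraph (Fin n), (∃ s : Finset (Fin n), G.IsNClique k s) ∨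
        (∃ s : Finset (Fin n), Gᶜ.IsNClique k s) := by
  obtain ⟨C, hC, hmain⟩ := h
  have hcpos : 0 < c := (Real.exp_pos v).trans hc
  -- `C (e^v / c)^k + c^{-k} < 1` eventually
  have hlim1 : Tendsto (fun k : ℕ => C * (Real.exp v / c) ^ k + 2 * (1 / c) ^ k) atTop (nhds 0) := by
    have h1 : Tendsto (fun k : ℕ => (Real.exp v / c) ^ k) atTop (nhds 0) :=
      tendsto_pow_atTop_nhds_zero_of_lt_one (by positivity) (by rw [div_lt_one hcpos]; exact hc)
    have h2 : Tendsto (fun k : ℕ => (1 / c) ^ k) atTop (nhds 0) := by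
      apply tendsto_pow_atTop_nhds_zero_of_lt_one (by positivity)
      rw [div_lt_one hcpos]
      exact lt_of_le_of_lt (Real.one_le_exp hv) hc
    have := (h1.const_mul C).add (h2.const_mul 2)
    simpa using this
  have hev := hlim1.eventually_lt_const (show (0:ℝ) < 1 by norm_num)
  obtain ⟨K, hK⟩ := Filter.eventually_atTop.mp hev
  refine ⟨K, fun k hk => ?_⟩
  have hk' := hK k hk
  refine ⟨⌊C * Real.exp (v * k)⌋₊ + 1, by omega, ?_, ?_⟩
  · have h1 : ((⌊C * Real.exp (v * k)⌋₊ : ℕ) : ℝ) ≤ C * Real.exp (v * k) :=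
      Nat.floor_le (by positivity)
    have h2 : Real.exp (v * k) = (Real.exp v) ^ k := by
      rw [← Real.exp_nat_mul]
      congr 1
      ring
    have h3 : (C * (Real.exp v / c) ^ k + 2 * (1 / c) ^ k) * c ^ k
        = C * (Real.exp v) ^ k + 2 := by
      rw [div_pow, div_pow, one_pow]
      have : c ^ k ≠ 0 := by positivity
      field_simp
    have h4 : (C * (Real.exp v / c) ^ k + 2 * (1 / c) ^ k) * c ^ k < 1 * c ^ k :=
      mul_lt_mul_of_pos_right hk' (by positivity)
    rw [h3, one_mul] at h4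
    push_cast
    rw [h2] at h1
    rw [h2]
    linarith
  · intro G
    by_contra hcon
    push Not at hcon
    obtain ⟨h1, h2⟩ := hcon
    have h3 := hmain k G Finset.univ (fun t _ => h1 t) (fun t _ => h2 t)
    rw [Finset.card_univ, Fintype.card_fin] at h3
    have h4 := Nat.lt_floor_add_one (C * Real.exp (v * k))
    push_cast at h3
    linarith

end Pool.Agent.H111R2
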