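import Pool.Agent.H111R2.Reg

open Finset

namespace Pool.Agent.H111R2

/-- An exponential bound, with coefficients `A` (own total), `B` (total of the other colour) and `E`
(variable), for the sets without a `G`-clique of size `a ≤ k`. -/
def Line {V : Type} [DecidableEq V] (G : SimpleGraph V) (S : Finset V) (k l : ℕ) (A B E Q : ℝ) :
    Prop :=
  ∀ a ≤ k, ∀ Y ⊆ S, KFree G Y a → (Y.card : ℝ) ≤ Q * Real.exp (A * k + B * l + E * a)

lemma Line.mono {V : Type} [DecidableEq V] {G : SimpleGraph V} {S : Finset V} {k l : ℕ}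
    {A B E Q A' B' E' Q' : ℝ} (h : Line G S k l A B E Q) (hA : A ≤ A') (hB : B ≤ B')
    (hE : E ≤ E') (hQ : Q ≤ Q') (hQ0 : 0 ≤ Q') : Line G S k l A' B' E' Q' := by
  intro a ha Y hY hYa
  refine (h a ha Y hY hYa).trans ?_
  have h1 : Real.exp (A * k + B * l + E * a) ≤ Real.exp (A' * k + B' * l + E' * a) := by
    apply Real.exp_le_exp.mpr
    have := mul_le_mul_of_nonneg_right hA (show (0:ℝ) ≤ k by positivity)
    have := mul_le_mul_of_nonneg_right hB (show (0:ℝ) ≤ l by positivity)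
    have := mul_le_mul_of_nonneg_right hE (show (0:ℝ) ≤ a by positivity)
    linarith
  calc Q * Real.exp (A * k + B * l + E * a) ≤ Q' * Real.exp (A * k + B * l + E * a) :=
        mul_le_mul_of_nonneg_right hQ (Real.exp_pos _).le
    _ ≤ _ := mul_le_mul_of_nonneg_left h1 hQ0

/-- **Stage lemma.** One application of the core theorem with the fixed reservoir `S`: a line for
`G` gives a line for the complement. -/
theorem stage {Xc Yc p β wt wk A B E ε d0 Λ : ℝ} (hβ : 0 ≤ β)
    (hp0 : 0 < p) (hp1 : p < 1) (hwt : 0 < wt)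
    (hθ : 0 < wk + Real.log (1 - Real.exp (-wt)))
    (hgap : β * (-Real.log p)
      < (1 - Real.exp (-wt)) * (wk + Real.log (1 - Real.exp (-wt))))
    (hE : β * E ≤ wk) (hε : 0 < ε) (hd0 : 0 < d0) (hΛ : 0 < Λ) :
    ∃ Λ' : ℝ, 0 < Λ' ∧ ∀ C : ℝ, 0 < C → ∀ k l : ℕ,
      ∀ {V : Type} [DecidableEq V] (G : SimpleGraph V) (S : Finset V),
        KFree G S k → ε * (C * Real.exp (Xc * k + Yc * l)) ≤ S.card →
        (∀ x ∈ S, d0 ≤ ex G p S x) →
        Line G S k l A B E (Λ * C) →
        Line Gᶜ S l k (β * (B - Yc)) (β * (A - Xc) + wk) wt Λ' := by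
  obtain ⟨c, v, u, K, P⟩ := exists_params hβ hp0 hp1 hwt hθ hgap
  have hc := P.hc
  have hK := P.hK
  have hdc : 0 < d0 ^ c := pow_pos hd0 c
  refine ⟨K * Λ ^ β / (d0 ^ c * ε ^ β), by positivity, ?_⟩
  intro C hC k l V _ G S hSk hSlow hex hline t ht Z hZ hZt
  have hES : 0 < Real.exp (Xc * k + Yc * l) := Real.exp_pos _
  have hSpos : (0:ℝ) < S.card := lt_of_lt_of_le (by positivity) hSlow
  have h3 : ∀ (w : ℝ) (a : ℕ), (Real.exp (-w) ^ a)⁻¹ = Real.exp (w * a) := by
    intro w a
    rw [← Real.exp_nat_mul, ← Real.exp_neg]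
    congr 1
    ring
  set M0 := K * (Λ * C) ^ β * Real.exp (β * (A * k + B * l)) with hM0
  have hM0pos : 0 < M0 := by positivity
  have hcore := core P hM0pos G S k (by
    intro Y hY a ha hYa
    have hYcard := hline a ha Y hY hYa
    have h1 : (Y.card : ℝ) ^ β ≤ (Λ * C * Real.exp (A * k + B * l + E * a)) ^ β :=
      Real.rpow_le_rpow (by positivity) hYcard hβ
    have h2 : (Λ * C * Real.exp (A * k + B * l + E * a)) ^ β
        = (Λ * C) ^ β * Real.exp (β * (A * k + B * l + E * a)) := by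
      rw [Real.mul_rpow (by positivity) (Real.exp_pos _).le, ← Real.exp_mul]
      congr 2
      ring
    rw [h3, hM0]
    calc K * (Y.card : ℝ) ^ β ≤ K * ((Λ * C) ^ β * Real.exp (β * (A * k + B * l + E * a))) := by
          rw [← h2]
          exact mul_le_mul_of_nonneg_left h1 hK.le
      _ ≤ K * ((Λ * C) ^ β * Real.exp (β * (A * k + B * l) + wk * a)) := by
          apply mul_le_mul_of_nonneg_left _ hK.le
          apply mul_le_mul_of_nonneg_left _ (by positivity)
          apply Real.exp_le_exp.mpr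
          have : β * E * a ≤ wk * a := mul_le_mul_of_nonneg_right hE (by positivity)
          linarith
      _ = _ := by rw [Real.exp_add]; ring)
    Z.card Z S le_rfl (Finset.Subset.refl _) k t le_rfl
    (by rw [Finset.union_eq_right.mpr hZ]; exact hSk) hZt
  have hlow : (S.card : ℝ) ^ β * (Z.card * d0 ^ c) ≤ (S.card : ℝ) ^ β * ∑ x ∈ Z, ex G p S x ^ c := by
    apply mul_le_mul_of_nonneg_left _ (by positivity)
    have : ∑ x ∈ Z, d0 ^ c ≤ ∑ x ∈ Z, ex G p S x ^ c :=
      Finset.sum_le_sum (fun x hx => pow_le_pow_left₀ hd0.le (hex x (hZ hx)) c)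
    rw [Finset.sum_const, nsmul_eq_mul] at this
    exact this
  rw [h3, h3] at hcore
  have hup := hlow.trans hcore
  have hSb : (ε * (C * Real.exp (Xc * k + Yc * l))) ^ β ≤ (S.card : ℝ) ^ β :=
    Real.rpow_le_rpow (by positivity) hSlow hβ
  have hSb2 : (ε * (C * Real.exp (Xc * k + Yc * l))) ^ β
      = ε ^ β * (C ^ β * Real.exp (β * (Xc * k + Yc * l))) := by
    rw [Real.mul_rpow hε.le (by positivity), Real.mul_rpow hC.le (Real.exp_pos _).le,
      ← Real.exp_mul]
    congr 3
    ring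
  rw [hSb2] at hSb
  have h4 : ε ^ β * (C ^ β * Real.exp (β * (Xc * k + Yc * l))) * (Z.card * d0 ^ c)
      ≤ K * (Λ * C) ^ β * Real.exp (β * (A * k + B * l)) * Real.exp (wk * k) * Real.exp (wt * t) := by
    refine le_trans ?_ hup
    exact mul_le_mul_of_nonneg_right hSb (by positivity)
  have h5 : (Λ * C) ^ β = Λ ^ β * C ^ β := Real.mul_rpow hΛ.le hC.le
  rw [h5] at h4
  have hCb : 0 < C ^ β := by positivity
  have hεb : 0 < ε ^ β := by positivity
  set F := Real.exp (β * (Xc * k + Yc * l)) with hF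
  have hFpos : 0 < F := Real.exp_pos _
  -- target
  have h6 : Real.exp (β * (B - Yc) * l + (β * (A - Xc) + wk) * k + wt * t) * F
      = Real.exp (β * (A * k + B * l)) * Real.exp (wk * k) * Real.exp (wt * t) := by
    rw [hF, ← Real.exp_add, ← Real.exp_add, ← Real.exp_add]
    congr 1
    ring
  have h7 : (C ^ β * F) * ((Z.card : ℝ) * (d0 ^ c * ε ^ β))
      ≤ (C ^ β * F) * (K * Λ ^ β *
        Real.exp (β * (B - Yc) * l + (β * (A - Xc) + wk) * k + wt * t)) := by
    calc (C ^ β * F) * ((Z.card : ℝ) * (d0 ^ c * ε ^ β))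
        = ε ^ β * (C ^ β * F) * (Z.card * d0 ^ c) := by ring
      _ ≤ _ := h4
      _ = C ^ β * (K * Λ ^ β * (Real.exp (β * (A * k + B * l)) * Real.exp (wk * k)
            * Real.exp (wt * t))) := by ring
      _ = _ := by rw [← h6]; ring
  have h8 := le_of_mul_le_mul_left h7 (by positivity)
  rw [div_mul_eq_mul_div, le_div_iff₀ (by positivity)]
  exact h8

end Pool.Agent.H111R2
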