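import Pool.Agent.H111R2.Step

open Finset

namespace Pool.Agent.H111R2

variable {V : Type*} [DecidableEq V]
set_option linter.unusedSectionVars false

/-- the number of ordered red pairs in `S` -/
noncomputable def E2 (G : SimpleGraph V) (S : Finset V) : ℝ := ∑ x ∈ S, ((nb G x S).card : ℝ)

/-- the density of `G` in `S` (normalised by `|S|^2`) -/
noncomputable def dens (G : SimpleGraph V) (S : Finset V) : ℝ := E2 G S / (S.card : ℝ) ^ 2

lemma nb_le_card (G : SimpleGraph V) (x : V) (S : Finset V) :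
    ((nb G x S).card : ℝ) ≤ S.card := by
  exact_mod_cast card_le_card (nb_subset G x S)

lemma E2_nonneg (G : SimpleGraph V) (S : Finset V) : 0 ≤ E2 G S :=
  Finset.sum_nonneg (fun _ _ => by positivity)

lemma E2_le (G : SimpleGraph V) (S : Finset V) : E2 G S ≤ (S.card : ℝ) ^ 2 := by
  unfold E2
  calc ∑ x ∈ S, ((nb G x S).card : ℝ) ≤ ∑ x ∈ S, (S.card : ℝ) :=
        Finset.sum_le_sum (fun x _ => nb_le_card G x S)
    _ = _ := by rw [Finset.sum_const, nsmul_eq_mul, sq]

lemma dens_nonneg (G : SimpleGraph V) (S : Finset V) : 0 ≤ dens G S :=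
  div_nonneg (E2_nonneg G S) (by positivity)

lemma dens_le_one (G : SimpleGraph V) (S : Finset V) : dens G S ≤ 1 :=
  div_le_one_of_le₀ (E2_le G S) (by positivity)

lemma ad_symm (G : SimpleGraph V) (x y : V) : ad G x y = ad G y x := by
  classical
  unfold ad
  by_cases h : G.Adj x y
  · rw [if_pos h, if_pos h.symm]
  · rw [if_neg h, if_neg (fun h2 => h h2.symm)]

lemma ad_self (G : SimpleGraph V) (x : V) : ad G x x = 0 := by
  unfold ad
  simp

lemma E2_erase (G : SimpleGraph V) (S : Finset V) (x : V) (hx : x ∈ S) :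
    E2 G (S.erase x) = E2 G S - 2 * ((nb G x S).card : ℝ) := by
  have h1 : ∀ T : Finset V, E2 G T = ∑ u ∈ T, ∑ w ∈ T, ad G u w := by
    intro T
    unfold E2
    exact Finset.sum_congr rfl (fun u _ => card_nb G u T)
  rw [h1, h1, card_nb]
  have h2 : ∀ u, ∑ w ∈ S.erase x, ad G u w = ∑ w ∈ S, ad G u w - ad G u x := by
    intro u
    rw [← Finset.add_sum_erase S (fun w => ad G u w) hx]
    ring
  have h3 : ∑ u ∈ S.erase x, ∑ w ∈ S.erase x, ad G u w
      = ∑ u ∈ S.erase x, (∑ w ∈ S, ad G u w - ad G u x) :=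
    Finset.sum_congr rfl (fun u _ => h2 u)
  rw [h3, Finset.sum_sub_distrib]
  have h4 : ∑ u ∈ S.erase x, ∑ w ∈ S, ad G u w
      = ∑ u ∈ S, ∑ w ∈ S, ad G u w - ∑ w ∈ S, ad G x w := by
    rw [← Finset.add_sum_erase S (fun u => ∑ w ∈ S, ad G u w) hx]
    ring
  have h5 : ∑ u ∈ S.erase x, ad G u x = ∑ w ∈ S, ad G x w := by
    rw [← Finset.add_sum_erase S (fun u => ad G x u) hx, ad_self, zero_add]
    exact Finset.sum_congr rfl (fun u _ => ad_symm G u x)
  rw [h4, h5]
  ring

/-- every degree in a set maximising `dens + log |·| / M` is at least average minus an error -/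
lemma deg_ge_of_max (G : SimpleGraph V) {M : ℝ} (hM : 0 < M) (S : Finset V)
    (hS : 2 ≤ S.card)
    (hmax : ∀ x ∈ S, dens G (S.erase x) + Real.log ((S.erase x).card : ℝ) / M
      ≤ dens G S + Real.log (S.card : ℝ) / M) (x : V) (hx : x ∈ S) :
    dens G S * S.card - 1 / 2 - S.card / (2 * M) ≤ ((nb G x S).card : ℝ) := by
  have hn2 : (2:ℝ) ≤ S.card := by exact_mod_cast hS
  set n : ℝ := (S.card : ℝ) with hn
  have hcard : ((S.erase x).card : ℝ) = n - 1 := by
    rw [Finset.card_erase_of_mem hx, Nat.cast_sub (by omega), hn]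
    simp
  have h := hmax x hx
  have hlog : Real.log n - Real.log (n - 1) ≤ 1 / (n - 1) := by
    rw [← Real.log_div (by linarith) (by linarith)]
    have h1 := Real.log_le_sub_one_of_pos (x := n / (n - 1)) (div_pos (by linarith) (by linarith))
    have h2 : n / (n - 1) - 1 = 1 / (n - 1) := by
      have : n - 1 ≠ 0 := by linarith
      field_simp
      ring
    linarith
  have hE : dens G (S.erase x) = (dens G S * n ^ 2 - 2 * ((nb G x S).card : ℝ)) / (n - 1) ^ 2 := by
    unfold dens
    rw [E2_erase G S x hx, hcard, ← hn]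
    have : n ^ 2 ≠ 0 := by positivity
    rw [div_mul_cancel₀ _ this]
  rw [hcard, hE] at h
  have h3 : (dens G S * n ^ 2 - 2 * ((nb G x S).card : ℝ)) / (n - 1) ^ 2
      ≤ dens G S + (1 / (n - 1)) / M := by
    have : (Real.log n - Real.log (n - 1)) / M ≤ (1 / (n - 1)) / M :=
      div_le_div_of_nonneg_right hlog hM.le
    rw [sub_div] at this
    linarith
  have hn1 : 0 < n - 1 := by linarith
  rw [div_le_iff₀ (by positivity)] at h3
  have h4 : (dens G S + (1 / (n - 1)) / M) * (n - 1) ^ 2 = dens G S * (n - 1) ^ 2 + (n - 1) / M := by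
    field_simp
  rw [h4] at h3
  have h5 : (n - 1) / M ≤ n / M := div_le_div_of_nonneg_right (by linarith) hM.le
  have h6 : n / (2 * M) = (n / M) / 2 := by
    field_simp
  have hd1 := dens_le_one G S
  rw [h6]
  nlinarith

/-- **Regularisation.** Every large set has a large subset in which all red degrees and all blue
degrees are at least (nearly) the average density of the subset, which is not smaller than the
original density. -/
theorem regularize {σ : ℝ} (hσ : 0 < σ) (hσ1 : σ < 1) :
    ∃ ε : ℝ, 0 < ε ∧ ε ≤ 1 ∧ ∃ N : ℝ, ∀ {V : Type} [DecidableEq V] (G : SimpleGraph V) (S0 : Finset V),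
      N ≤ S0.card → ∃ S ⊆ S0, ∃ d : ℝ, dens G S0 ≤ d ∧ d ≤ 1 ∧ ε * S0.card ≤ S.card ∧
        (∀ x ∈ S, (d - σ) * S.card ≤ ((nb G x S).card : ℝ)) ∧
        (∀ x ∈ S, (1 - d - σ) * S.card ≤ ((nb Gᶜ x S).card : ℝ)) := by
  set M : ℝ := 64 / σ ^ 2 with hM
  have hMpos : 0 < M := by positivity
  have hMge : 64 ≤ M := by
    rw [hM, le_div_iff₀ (by positivity)]
    nlinarith
  refine ⟨Real.exp (-M) / 2, by positivity, ?_, Real.exp M * M + 1, ?_⟩
  · have : Real.exp (-M) ≤ 1 := by
      rw [Real.exp_le_one_iff]; linarith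
    linarith
  intro V _ G S0 hN
  have hexpM : 1 ≤ Real.exp M := Real.one_le_exp hMpos.le
  have hS0pos : (0:ℝ) < S0.card := by nlinarith
  have hS0ne : S0.Nonempty := by
    rw [← Finset.card_pos]
    exact_mod_cast hS0pos
  obtain ⟨S1, hS1mem, hS1max⟩ := Finset.exists_max_image (S0.powerset.filter (fun T => T.Nonempty))
    (fun T => dens G T + Real.log (T.card : ℝ) / M) ⟨S0, by simp [hS0ne]⟩
  rw [Finset.mem_filter, Finset.mem_powerset] at hS1mem
  obtain ⟨hS1sub, hS1ne⟩ := hS1mem
  have hS1pos : (0:ℝ) < S1.card := by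
    exact_mod_cast Finset.card_pos.mpr hS1ne
  set n : ℝ := (S1.card : ℝ) with hn
  have h0 := hS1max S0 (by simp [hS0ne])
  have hlogle : Real.log n ≤ Real.log S0.card := by
    apply Real.log_le_log hS1pos
    rw [hn]
    exact_mod_cast card_le_card hS1sub
  have hdens : dens G S0 ≤ dens G S1 := by
    have : Real.log n / M ≤ Real.log S0.card / M := div_le_div_of_nonneg_right hlogle hMpos.le
    linarith
  have hnlow : Real.exp (-M) * S0.card ≤ n := by
    have h1 : Real.log S0.card / M - Real.log n / M ≤ 1 := by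
      have := dens_le_one G S1
      have := dens_nonneg G S0
      linarith
    rw [← sub_div, div_le_one hMpos] at h1
    have h2 : Real.log S0.card - M ≤ Real.log n := by linarith
    have h3 := Real.exp_le_exp.mpr h2
    rw [Real.exp_log hS1pos, sub_eq_add_neg, Real.exp_add, Real.exp_log hS0pos] at h3
    linarith
  have hnM : M ≤ n := by
    have h1 : Real.exp (-M) * (Real.exp M * M + 1) ≤ Real.exp (-M) * S0.card :=
      mul_le_mul_of_nonneg_left hN (Real.exp_pos _).le
    have h2 : Real.exp (-M) * (Real.exp M * M + 1) = M + Real.exp (-M) := by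
      rw [mul_add, ← mul_assoc, ← Real.exp_add]
      simp
    have := Real.exp_pos (-M)
    linarith
  have hn2 : 2 ≤ S1.card := by
    have : (2:ℝ) ≤ S1.card := by rw [← hn]; linarith
    exact_mod_cast this
  set d := dens G S1 with hd
  have hd0 : 0 ≤ d := dens_nonneg G S1
  have hd1 : d ≤ 1 := dens_le_one G S1
  have hdeg : ∀ x ∈ S1, d * n - 1 / 2 - n / (2 * M) ≤ ((nb G x S1).card : ℝ) := by
    intro x hx
    refine deg_ge_of_max G hMpos S1 hn2 ?_ x hx
    intro y hy
    apply hS1max
    rw [Finset.mem_filter, Finset.mem_powerset]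
    refine ⟨(Finset.erase_subset _ _).trans hS1sub, ?_⟩
    rw [← Finset.card_pos, Finset.card_erase_of_mem hy]
    omega
  -- error term
  set η : ℝ := σ ^ 2 / 64 with hη
  have hη0 : 0 < η := by positivity
  have hdeg2 : ∀ x ∈ S1, (d - η) * n ≤ ((nb G x S1).card : ℝ) := by
    intro x hx
    refine le_trans ?_ (hdeg x hx)
    have h1 : n / (2 * M) = n * (σ ^ 2 / 128) := by
      rw [hM]
      field_simp
      ring
    have h2 : (1:ℝ) / 2 ≤ n * (σ ^ 2 / 128) := by
      have h3 : M * (σ ^ 2 / 128) = 1 / 2 := by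
        rw [hM]
        field_simp
        norm_num
      rw [← h3]
      exact mul_le_mul_of_nonneg_right hnM (by positivity)
    rw [h1, hη]
    nlinarith
  -- few vertices of large degree
  classical
  set τ : ℝ := σ / 4 with hτ
  have hτ0 : 0 < τ := by positivity
  set H := S1.filter (fun x => (d + τ) * n ≤ ((nb G x S1).card : ℝ)) with hH
  have hHsub : H ⊆ S1 := Finset.filter_subset _ _
  have hHcard : (H.card : ℝ) ≤ (σ / 16) * n := by
    have hsum : ∑ x ∈ S1, (((nb G x S1).card : ℝ) - (d - η) * n) = η * n * n := by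
      rw [Finset.sum_sub_distrib, Finset.sum_const, nsmul_eq_mul]
      have : ∑ x ∈ S1, ((nb G x S1).card : ℝ) = d * n ^ 2 := by
        rw [hd]
        unfold dens E2
        rw [← hn, div_mul_cancel₀]
        positivity
      rw [this, ← hn]
      ring
    have hle : ∑ x ∈ H, (((nb G x S1).card : ℝ) - (d - η) * n) ≤ η * n * n := by
      rw [← hsum]
      apply Finset.sum_le_sum_of_subset_of_nonneg hHsub
      intro x hx _
      linarith [hdeg2 x hx]
    have hge : (H.card : ℝ) * (τ * n) ≤ ∑ x ∈ H, (((nb G x S1).card : ℝ) - (d - η) * n) := by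
      rw [← nsmul_eq_mul, ← Finset.sum_const]
      apply Finset.sum_le_sum
      intro x hx
      have h1 := (Finset.mem_filter.mp hx).2
      have h2 : 0 ≤ η * n := by positivity
      nlinarith
    have h3 : (H.card : ℝ) * (τ * n) ≤ η * n * n := hge.trans hle
    have h4 : (H.card : ℝ) * τ ≤ η * n := by
      have : ((H.card : ℝ) * τ) * n ≤ (η * n) * n := by linarith
      exact le_of_mul_le_mul_right this hS1pos
    have h5 : η * n = ((σ / 16) * n) * τ := by
      rw [hη, hτ]; ring
    rw [h5] at h4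
    exact le_of_mul_le_mul_right h4 hτ0
  set S := S1 \ H with hS
  have hScard : (S.card : ℝ) = n - H.card := by
    rw [hS, Finset.card_sdiff_of_subset hHsub, Nat.cast_sub (card_le_card hHsub), hn]
  have hSle : (S.card : ℝ) ≤ n := by
    rw [hScard]
    have : (0:ℝ) ≤ H.card := by positivity
    linarith
  have hSge : (1 - σ / 16) * n ≤ S.card := by
    rw [hScard]; linarith
  refine ⟨S, Finset.sdiff_subset.trans hS1sub, d, hdens, hd1, ?_, ?_, ?_⟩
  · have h1 : n / 2 ≤ S.card := by nlinarith
    linarith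
  · intro x hx
    have hx1 : x ∈ S1 := (Finset.mem_sdiff.mp hx).1
    rcases le_total d σ with h | h
    · have h1 : (d - σ) * S.card ≤ 0 := mul_nonpos_of_nonpos_of_nonneg (by linarith) (by positivity)
      have h2 : (0:ℝ) ≤ (nb G x S).card := by positivity
      linarith
    · have h1 : ((nb G x S1).card : ℝ) ≤ (nb G x S).card + H.card := by
        have : nb G x S1 ⊆ nb G x S ∪ H := by
          intro y hy
          rw [mem_nb] at hy
          by_cases hyH : y ∈ H
          · exact mem_union_right _ hyH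
          · exact mem_union_left _ (mem_nb.mpr ⟨Finset.mem_sdiff.mpr ⟨hy.1, hyH⟩, hy.2⟩)
        have h2 := (card_le_card this).trans (card_union_le _ _)
        exact_mod_cast h2
      have h2 := hdeg2 x hx1
      have h3 : (d - σ) * S.card ≤ (d - σ) * n := mul_le_mul_of_nonneg_left hSle (by linarith)
      have h4 : η + σ / 16 ≤ σ := by
        rw [hη]; nlinarith
      nlinarith
  · intro x hx
    have hx1 : x ∈ S1 := (Finset.mem_sdiff.mp hx).1
    have hxH : x ∉ H := (Finset.mem_sdiff.mp hx).2
    have hsplit : (S.card : ℝ) = 1 + ((nb G x S).card + (nb Gᶜ x S).card) := by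
      have := split_sum G S x hx (fun _ => (1:ℝ))
      simpa using this
    have h1 : ((nb G x S).card : ℝ) ≤ (nb G x S1).card := by
      have : nb G x S ⊆ nb G x S1 := by
        intro y hy
        rw [mem_nb] at hy ⊢
        exact ⟨(Finset.mem_sdiff.mp hy.1).1, hy.2⟩
      exact_mod_cast card_le_card this
    have h2 : ((nb G x S1).card : ℝ) < (d + τ) * n := by
      by_contra hcon
      push Not at hcon
      exact hxH (Finset.mem_filter.mpr ⟨hx1, hcon⟩)
    have h3 : (1:ℝ) ≤ n * (σ ^ 2 / 64) := by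
      have h4 : M * (σ ^ 2 / 64) = 1 := by
        rw [hM]
        field_simp
      rw [← h4]
      exact mul_le_mul_of_nonneg_right hnM (by positivity)
    -- (d + σ) |S| ≥ (d + τ) n + 1
    have h5 : (d + τ) * n + 1 ≤ (d + σ) * S.card := by
      have h6 : (d + σ) * ((1 - σ / 16) * n) ≤ (d + σ) * S.card :=
        mul_le_mul_of_nonneg_left hSge (by linarith)
      have h7 : (d + τ) + σ ^ 2 / 64 ≤ (d + σ) * (1 - σ / 16) := by
        have a1 : d * σ ≤ 1 * σ := mul_le_mul_of_nonneg_right hd1 hσ.le
        have a2 : σ ^ 2 ≤ σ := by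
          rw [sq]
          calc σ * σ ≤ 1 * σ := mul_le_mul_of_nonneg_right hσ1.le hσ.le
            _ = σ := one_mul σ
        have a3 : (d + σ) * (1 - σ / 16) = d + σ - d * σ / 16 - σ ^ 2 / 16 := by ring
        rw [hτ, a3]
        linarith
      have h8 : ((d + τ) + σ ^ 2 / 64) * n ≤ ((d + σ) * (1 - σ / 16)) * n :=
        mul_le_mul_of_nonneg_right h7 hS1pos.le
      linarith
    linarith

end Pool.Agent.H111R2
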