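import Pool.Agent.H110R2.NB3
import Pool.Agent.H111R2.Line

open Finset

namespace Pool.Agent.H111R2

/-- **Stage lemma, norm-book version** (uses the book theorem `H110R2.nbook`). -/
theorem stage2 {Xc Yc p β wt wk A B E ε δ0 Λ b T : ℝ} (hβ : 0 < β)
    (hp0 : 0 < p) (hp1 : p < 1) (hb0 : 0 < b) (hb1 : b < 1) (hT0 : 0 < T) (hT1 : T < 1)
    (hwt : 0 ≤ wt)
    (hA : β * Real.log (1 / p) + Real.log (1 / (1 - b)) + b * (1 - T) / T < wk)
    (hW : Real.log (1 / b) + β * H110R2.KK p T - (1 - b) * (1 - T) < wt)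
    (hE : β * E ≤ wk) (hε : 0 < ε) (hδ0 : 0 < δ0) (hΛ : 0 < Λ) :
    ∃ Λ' : ℝ, 0 < Λ' ∧ ∀ C : ℝ, 0 < C → ∀ k l : ℕ,
      ∀ {V : Type} [DecidableEq V] (G : SimpleGraph V) (S : Finset V),
        KFree G S k → KFree Gᶜ S l → ε * (C * Real.exp (Xc * k + Yc * l)) ≤ S.card →
        (∀ x ∈ S, (p + δ0) * S.card ≤ ((nb G x S).card : ℝ)) →
        Line G S k l A B E (Λ * C) →
        Line Gᶜ S l k (β * (B - Yc)) (β * (A - Xc) + wk) wt Λ' := by
  have hq : 0 < 1 / β := by positivity
  obtain ⟨c, hc⟩ := H110R2.nbook p (1 / β) (wk / β) (wt / β) b T δ0 hp0 hp1 hq hb0 hb1 hT0 hT1 hδ0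
    (by positivity)
    (by
      rw [lt_div_iff₀ hβ]
      have e : (Real.log (1 / p) + 1 / β * Real.log (1 / (1 - b)) + 1 / β * b * (1 - T) / T) * β
          = β * Real.log (1 / p) + Real.log (1 / (1 - b)) + b * (1 - T) / T := by
        field_simp
      rw [e]
      exact hA)
    (by
      rw [lt_div_iff₀ hβ]
      have e : (1 / β * Real.log (1 / b) + H110R2.KK p T - 1 / β * (1 - b) * (1 - T)) * β
          = Real.log (1 / b) + β * H110R2.KK p T - (1 - b) * (1 - T) := by
        field_simp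
      rw [e]
      exact hW)
  refine ⟨Real.exp (β * (Real.log Λ - Real.log ε + c)), Real.exp_pos _, ?_⟩
  intro C hC k l V _ G S hSk hSl hSlow hdeg hline t ht Z hZ hZt
  rcases Z.eq_empty_or_nonempty with rfl | hZne
  · simp only [Finset.card_empty, Nat.cast_zero]
    positivity
  have hZpos : (0:ℝ) < Z.card := by exact_mod_cast hZne.card_pos
  have hSne : S.Nonempty := hZne.mono hZ
  have hSpos : (0:ℝ) < S.card := by exact_mod_cast hSne.card_pos
  have hdens : (p + δ0) * Z.card * S.card ≤ ∑ x ∈ Z, ((H110R2.nb G x S).card : ℝ) := by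
    have h1 : ∑ x ∈ Z, ((p + δ0) * (S.card : ℝ)) ≤ ∑ x ∈ Z, ((H110R2.nb G x S).card : ℝ) := by
      apply Finset.sum_le_sum
      intro x hx
      exact hdeg x (hZ hx)
    rw [Finset.sum_const, nsmul_eq_mul] at h1
    linarith
  have hmain := hc V G k l t (Real.log (Λ * C) + (A * k + B * l)) Z S hZne hSne
    (by rw [Finset.union_eq_right.mpr hZ]; exact hSk) hZt hSl (by
      intro a ha Z' hZ' hZ'a _
      have h1 := hline a ha Z' hZ' hZ'a
      refine h1.trans ?_
      have h2 : Λ * C = Real.exp (Real.log (Λ * C)) := (Real.exp_log (by positivity)).symm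
      rw [h2, ← Real.exp_add, Real.log_exp]
      apply Real.exp_le_exp.mpr
      have h3 : E ≤ wk / β := by
        rw [le_div_iff₀ hβ]
        linarith
      have h4 : E * a ≤ wk / β * a := mul_le_mul_of_nonneg_right h3 (by positivity)
      linarith) hdens
  have hlogS : Real.log ε + Real.log C + (Xc * k + Yc * l) ≤ Real.log S.card := by
    have h1 : Real.log (ε * (C * Real.exp (Xc * k + Yc * l)))
        = Real.log ε + Real.log C + (Xc * k + Yc * l) := by
      rw [Real.log_mul hε.ne' (by positivity), Real.log_mul hC.ne' (Real.exp_pos _).ne',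
        Real.log_exp]
      ring
    rw [← h1]
    exact Real.log_le_log (by positivity) hSlow
  have hlogΛC : Real.log (Λ * C) = Real.log Λ + Real.log C := Real.log_mul hΛ.ne' hC.ne'
  rw [hlogΛC] at hmain
  have hfin : Real.log Z.card ≤ β * (Real.log Λ - Real.log ε + c)
      + (β * (B - Yc) * l + (β * (A - Xc) + wk) * k + wt * t) := by
    have h1 : 1 / β * Real.log Z.card ≤ Real.log Λ - Real.log ε + c
        + ((A - Xc) * k + (B - Yc) * l + wk / β * k + wt / β * t) := by linarith
    have h2 := mul_le_mul_of_nonneg_left h1 hβ.le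
    have e1 : β * (1 / β * Real.log Z.card) = Real.log Z.card := by field_simp
    have e2 : β * (Real.log Λ - Real.log ε + c
        + ((A - Xc) * k + (B - Yc) * l + wk / β * k + wt / β * t))
        = β * (Real.log Λ - Real.log ε + c)
      + (β * (B - Yc) * l + (β * (A - Xc) + wk) * k + wt * t) := by
      field_simp
      ring
    rw [e1, e2] at h2
    exact h2
  rw [← Real.exp_add]
  rw [← Real.log_le_iff_le_exp hZpos]
  exact hfin

end Pool.Agent.H111R2
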