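import Pool.Agent.H111R2.Core

open Finset

namespace Pool.Agent.H111R2

/-- Existence of the numerical parameters. -/
lemma exists_params {β p wt wk : ℝ} (hβ : 0 ≤ β) (hp0 : 0 < p) (hp1 : p < 1) (hwt : 0 < wt)
    (hθ : 0 < wk + Real.log (1 - Real.exp (-wt)))
    (hgap : β * (-Real.log p)
      < (1 - Real.exp (-wt)) * (wk + Real.log (1 - Real.exp (-wt)))) :
    ∃ (c : ℕ) (v u K : ℝ), Params β p (Real.exp (-wt)) v u K (Real.exp (-wk)) c := by
  set μ := Real.exp (-wt) with hμ
  have hμ0 : 0 < μ := Real.exp_pos _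
  have hμ1 : μ < 1 := by
    rw [hμ, Real.exp_lt_one_iff]
    linarith
  have h1μ : 0 < 1 - μ := by linarith
  set θ := wk + Real.log (1 - μ) with hθdef
  set A := -Real.log p with hA
  have hA0 : 0 ≤ A := by
    have := Real.log_nonpos hp0.le hp1.le
    linarith
  set gap := (1 - μ) * θ - β * A with hg
  have hgpos : 0 < gap := by linarith
  obtain ⟨c, hc⟩ := exists_nat_gt (max 2 (((1 - μ) * θ ^ 2 + 1) / gap))
  have hc2 : (2:ℝ) < c := lt_of_le_of_lt (le_max_left _ _) hc
  have hc3 : ((1 - μ) * θ ^ 2 + 1) / gap < c := lt_of_le_of_lt (le_max_right _ _) hc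
  have hcN : 2 ≤ c := by exact_mod_cast hc2.le
  have hcpos : (0:ℝ) < c := by linarith
  have hc0 : (c:ℝ) ≠ 0 := hcpos.ne'
  refine ⟨c, Real.exp (-θ / c), Real.exp (-(β * A) / c), (c:ℝ) ^ 2, hcN, hβ, hp0, hp1, hμ0, hμ1,
    Real.exp_pos _, ?_, Real.exp_pos _, ?_, by positivity, ?_, ?_⟩
  · rw [Real.exp_le_one_iff]
    apply div_nonpos_of_nonpos_of_nonneg _ hcpos.le
    linarith
  · rw [← Real.exp_nat_mul, Real.rpow_def_of_pos hp0]
    apply le_of_eq
    congr 1
    rw [hA]
    field_simp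
  · -- the main inequality
    set y := θ / c with hy
    have hy0 : 0 < y := by positivity
    have hv : Real.exp (-θ / c) ≤ 1 - y + y ^ 2 := by
      have h1 : 1 + y ≤ Real.exp y := by
        have := Real.add_one_le_exp y
        linarith
      have h2 : Real.exp (-θ / c) = (Real.exp y)⁻¹ := by
        rw [← Real.exp_neg, hy]
        congr 1
        ring
      rw [h2, inv_le_comm₀ (Real.exp_pos _) (by nlinarith)]
      refine le_trans ?_ h1
      rw [inv_le_iff_one_le_mul₀ (by nlinarith)]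
      nlinarith [pow_pos hy0 3]
    have hu : 1 - β * A / c ≤ Real.exp (-(β * A) / c) := by
      have := Real.add_one_le_exp (-(β * A) / c)
      have h2 : -(β * A) / c = -(β * A / c) := by ring
      rw [h2] at this ⊢
      linarith
    have hu1 : Real.exp (-(β * A) / c) ≤ 1 := by
      rw [Real.exp_le_one_iff]
      apply div_nonpos_of_nonpos_of_nonneg _ hcpos.le
      have : 0 ≤ β * A := by positivity
      linarith
    have hK : (1 - p) / (c:ℝ) ^ 2 * Real.exp (-(β * A) / c) ≤ 1 / (c:ℝ) ^ 2 := by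
      have h1 : (1 - p) / (c:ℝ) ^ 2 ≤ 1 / (c:ℝ) ^ 2 := by
        apply div_le_div_of_nonneg_right _ (by positivity)
        linarith
      calc (1 - p) / (c:ℝ) ^ 2 * Real.exp (-(β * A) / c) ≤ (1 / (c:ℝ) ^ 2) * 1 :=
            mul_le_mul h1 hu1 (Real.exp_pos _).le (by positivity)
        _ = _ := mul_one _
    have hmain : (1 - μ) * (1 - y + y ^ 2) + μ + 1 / (c:ℝ) ^ 2 ≤ 1 - β * A / c := by
      have h1 : ((1 - μ) * θ ^ 2 + 1) < c * gap := by
        rw [div_lt_iff₀ hgpos] at hc3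
        linarith
      have h2 : (1 - μ) * (1 - y + y ^ 2) + μ + 1 / (c:ℝ) ^ 2 - (1 - β * A / c)
          = (((1 - μ) * θ ^ 2 + 1) - c * gap) / (c:ℝ) ^ 2 := by
        rw [hy, hg]
        field_simp
        ring
      have h3 : (((1 - μ) * θ ^ 2 + 1) - c * gap) / (c:ℝ) ^ 2 ≤ 0 :=
        div_nonpos_of_nonpos_of_nonneg (by linarith) (by positivity)
      linarith
    have h5 : (1 - μ) * Real.exp (-θ / c) ≤ (1 - μ) * (1 - y + y ^ 2) :=
      mul_le_mul_of_nonneg_left hv h1μ.le
    linarith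
  · rw [← Real.exp_nat_mul]
    have h1 : (c:ℝ) * (-θ / c) = -θ := by field_simp
    rw [h1, hθdef, neg_add, Real.exp_add, Real.exp_neg (Real.log (1 - μ)), Real.exp_log h1μ]
    field_simp

lemma ex_ge_of {V : Type*} [DecidableEq V] (G : SimpleGraph V) {p d y : ℝ} {S : Finset V} {x : V}
    (hx : x ∈ S) (_hy0 : 0 ≤ y) (hy1 : y ≤ 1) (hpd : p + 2 * d ≤ 1 - y) (hn : 1 / d ≤ S.card)
    (hd : 0 < d) (hB : ((nb Gᶜ x S).card : ℝ) + 1 ≤ (S.card + 1) * y) :
    d ≤ ex G p S x := by
  have hcard : (S.card : ℝ) = 1 + ((nb G x S).card + (nb Gᶜ x S).card) := by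
    have := split_sum G S x hx (fun _ => (1:ℝ))
    simpa using this
  have hSpos : (0:ℝ) < S.card := lt_of_lt_of_le (by positivity) hn
  have h1 : (S.card : ℝ) * (1 - y) - y ≤ (nb G x S).card := by nlinarith
  have h2 : (1 - y) - y / S.card ≤ ((nb G x S).card : ℝ) / S.card := by
    rw [le_div_iff₀ hSpos]
    have : ((1 - y) - y / S.card) * S.card = (S.card : ℝ) * (1 - y) - y := by
      field_simp
    linarith
  have h3 : y / S.card ≤ d := by
    rw [div_le_iff₀ hSpos]
    rw [div_le_iff₀ hd] at hn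
    nlinarith
  have h4 : ((nb G x S).card : ℝ) / S.card - p ≤ ex G p S x := le_max_right _ _
  linarith

/-- **Cell step.** The bound `|S| + 1 ≤ C exp (X k + Y l)` follows from the same kind of bounds
for smaller parameters. -/
theorem cell_step {Xc Yc p β wt wk X' Y' : ℝ} (hXc : 0 ≤ Xc) (hYc : 0 ≤ Yc) (hβ : 0 ≤ β)
    (hp0 : 0 < p) (hp1 : p < 1) (hwt : 0 < wt)
    (hpY : Real.exp (-Yc) < 1 - p)
    (hθ : 0 < wk + Real.log (1 - Real.exp (-wt)))
    (hgap : β * (-Real.log p)
      < (1 - Real.exp (-wt)) * (wk + Real.log (1 - Real.exp (-wt))))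
    (hX' : β * X' ≤ wk) :
    ∃ C0 : ℝ, ∀ C : ℝ, C0 ≤ C → ∀ k l : ℕ, 1 ≤ l →
      (wk * k + (wt + β * Y') * l ≤ (1 + β) * (Xc * k + Yc * l)) →
      (Xc * k + Yc * l ≤ X' * k + Y' * l) →
      ∀ {V : Type} [DecidableEq V] (G : SimpleGraph V) (S : Finset V),
        KFree G S k → KFree Gᶜ S l →
        (∀ T ⊆ S, ∀ v ∈ T, ((nb Gᶜ v T).card : ℝ) + 1 ≤ C * Real.exp (Xc * k + Yc * (l - 1 : ℝ))) →
        (∀ Y ⊆ S, ∀ a < k, KFree G Y a → (Y.card : ℝ) + 1 ≤ C * Real.exp (X' * a + Y' * l)) →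
        (S.card : ℝ) + 1 ≤ C * Real.exp (Xc * k + Yc * l) := by
  obtain ⟨c, v, u, K, P⟩ := exists_params hβ hp0 hp1 hwt hθ hgap
  have hc := P.hc
  have hK := P.hK
  set y := Real.exp (-Yc) with hy
  have hy0 : 0 < y := Real.exp_pos _
  set d := (1 - p - y) / 2 with hd
  have hdpos : 0 < d := by rw [hd]; linarith
  have hdc : 0 < d ^ c := pow_pos hdpos c
  have h2b : (0:ℝ) < 2 ^ (1 + β) := by positivity
  refine ⟨max (2 ^ (1 + β) * K / d ^ c + 1) (1 / d + 2), ?_⟩
  intro C hC k l hl hcond hmin V _ G S hSk hSl hIHB hIHT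
  have hC1 : 2 ^ (1 + β) * K / d ^ c + 1 ≤ C := le_trans (le_max_left _ _) hC
  have hC2 : 1 / d + 2 ≤ C := le_trans (le_max_right _ _) hC
  have hdinv : 0 < 1 / d := by positivity
  have hCpos : 0 < C := by linarith
  by_contra hlt
  push Not at hlt
  set E := Real.exp (Xc * k + Yc * l) with hE
  have hE1 : 1 ≤ E := by
    rw [hE]
    exact Real.one_le_exp (by positivity)
  have hEpos : 0 < E := by linarith
  have hCE : C ≤ C * E := le_mul_of_one_le_right hCpos.le hE1
  have hCEpos : 0 < C * E := by positivity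
  set n0 := ⌊C * E⌋₊ with hn0
  have hn0le : (n0 : ℝ) ≤ C * E := Nat.floor_le hCEpos.le
  have hn0gt : C * E < n0 + 1 := Nat.lt_floor_add_one _
  have hn0S : n0 ≤ S.card := by
    have : (n0 : ℝ) < S.card + 1 := lt_of_le_of_lt hn0le hlt
    have : n0 < S.card + 1 := by exact_mod_cast this
    omega
  obtain ⟨S', hS'S, hS'card⟩ := Finset.exists_subset_card_eq hn0S
  have hn0r : (S'.card : ℝ) = n0 := by rw [hS'card]
  have hex : ∀ x ∈ S', d ≤ ex G p S' x := by
    intro x hx
    refine ex_ge_of G hx hy0.le (by linarith) ?_ ?_ hdpos ?_ (y := y)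
    · rw [hd]; linarith
    · rw [hn0r]; linarith
    · have h1 := hIHB S' hS'S x hx
      refine h1.trans ?_
      have h2 : Real.exp (Xc * k + Yc * (l - 1 : ℝ)) = E * y := by
        rw [hE, hy, ← Real.exp_add]
        congr 1
        ring
      rw [h2, ← mul_assoc, hn0r]
      exact mul_le_mul_of_nonneg_right hn0gt.le hy0.le
  set M0 := K * C ^ β * Real.exp (β * Y' * l) with hM0
  have hM0pos : 0 < M0 := by positivity
  have hcore := core P hM0pos G S' k (by
    intro Y hY a ha hYa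
    have hYcard : (Y.card : ℝ) ≤ C * Real.exp (X' * a + Y' * l) := by
      rcases lt_or_eq_of_le ha with h | h
      · have := hIHT Y (hY.trans hS'S) a h hYa
        linarith
      · have h1 : (Y.card : ℝ) ≤ n0 := by
          rw [← hn0r]
          exact_mod_cast card_le_card hY
        refine h1.trans (hn0le.trans ?_)
        apply mul_le_mul_of_nonneg_left _ hCpos.le
        rw [hE, h]
        exact Real.exp_le_exp.mpr hmin
    have h1 : (Y.card : ℝ) ^ β ≤ (C * Real.exp (X' * a + Y' * l)) ^ β :=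
      Real.rpow_le_rpow (by positivity) hYcard hβ
    have h2 : (C * Real.exp (X' * a + Y' * l)) ^ β = C ^ β * Real.exp (β * (X' * a + Y' * l)) := by
      rw [Real.mul_rpow hCpos.le (Real.exp_pos _).le, ← Real.exp_mul]
      congr 2
      ring
    have h3 : (Real.exp (-wk) ^ a)⁻¹ = Real.exp (wk * a) := by
      rw [← Real.exp_nat_mul, ← Real.exp_neg]
      congr 1
      ring
    rw [h3, hM0]
    calc K * (Y.card : ℝ) ^ β ≤ K * (C ^ β * Real.exp (β * (X' * a + Y' * l))) := by
          rw [← h2]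
          exact mul_le_mul_of_nonneg_left h1 hK.le
      _ ≤ K * (C ^ β * Real.exp (β * Y' * l + wk * a)) := by
          apply mul_le_mul_of_nonneg_left _ hK.le
          apply mul_le_mul_of_nonneg_left _ (by positivity)
          apply Real.exp_le_exp.mpr
          have : β * X' * a ≤ wk * a := mul_le_mul_of_nonneg_right hX' (by positivity)
          linarith
      _ = _ := by rw [Real.exp_add]; ring)
    S'.card S' S' le_rfl (Finset.Subset.refl _) k l le_rfl
    (by rw [Finset.union_self]; exact hSk.mono hS'S) (hSl.mono hS'S)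
  have hlow : (n0 : ℝ) ^ β * (n0 * d ^ c) ≤ (S'.card : ℝ) ^ β * ∑ x ∈ S', ex G p S' x ^ c := by
    rw [hn0r]
    apply mul_le_mul_of_nonneg_left _ (by positivity)
    have : ∑ x ∈ S', d ^ c ≤ ∑ x ∈ S', ex G p S' x ^ c :=
      Finset.sum_le_sum (fun x hx => pow_le_pow_left₀ hdpos.le (hex x hx) c)
    rw [Finset.sum_const, nsmul_eq_mul, hn0r] at this
    exact this
  have hup : M0 * (Real.exp (-wk) ^ k)⁻¹ * (Real.exp (-wt) ^ l)⁻¹ ≤ K * C ^ β * E ^ (1 + β) := by
    have h3 : ∀ (w : ℝ) (a : ℕ), (Real.exp (-w) ^ a)⁻¹ = Real.exp (w * a) := by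
      intro w a
      rw [← Real.exp_nat_mul, ← Real.exp_neg]
      congr 1
      ring
    rw [h3, h3, hM0]
    have h4 : K * C ^ β * Real.exp (β * Y' * l) * Real.exp (wk * k) * Real.exp (wt * l)
        = K * C ^ β * Real.exp (wk * k + (wt + β * Y') * l) := by
      rw [mul_assoc, mul_assoc, ← Real.exp_add, ← Real.exp_add]
      congr 2
      ring
    rw [h4]
    apply mul_le_mul_of_nonneg_left _ (by positivity)
    rw [hE, ← Real.exp_mul]
    apply Real.exp_le_exp.mpr
    linarith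
  have hn0half : C * E / 2 ≤ n0 := by linarith
  have h5 : (C * E / 2) ^ (1 + β) * d ^ c ≤ K * C ^ β * E ^ (1 + β) := by
    refine le_trans ?_ (hlow.trans (hcore.trans hup))
    have h6 : (n0 : ℝ) ^ β * (n0 * d ^ c) = (n0:ℝ) ^ (1 + β) * d ^ c := by
      have hn0pos : (0:ℝ) < n0 := by linarith
      rw [Real.rpow_add hn0pos, Real.rpow_one]
      ring
    rw [h6]
    apply mul_le_mul_of_nonneg_right _ hdc.le
    exact Real.rpow_le_rpow (by positivity) hn0half (by linarith)
  have h7 : (C * E / 2) ^ (1 + β) = C ^ β * C * E ^ (1 + β) / 2 ^ (1 + β) := by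
    rw [Real.div_rpow hCEpos.le (by norm_num), Real.mul_rpow hCpos.le hEpos.le,
      Real.rpow_add hCpos, Real.rpow_one]
    ring
  rw [h7] at h5
  have hCb : 0 < C ^ β := by positivity
  have hEb : 0 < E ^ (1 + β) := by positivity
  have h8 : C * d ^ c ≤ 2 ^ (1 + β) * K := by
    have h9 : (C ^ β * E ^ (1 + β)) * (C * d ^ c) ≤ (C ^ β * E ^ (1 + β)) * (2 ^ (1 + β) * K) := by
      have h10 : C ^ β * C * E ^ (1 + β) / 2 ^ (1 + β) * d ^ c * 2 ^ (1 + β)
          ≤ K * C ^ β * E ^ (1 + β) * 2 ^ (1 + β) := mul_le_mul_of_nonneg_right h5 h2b.le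
      have h11 : C ^ β * C * E ^ (1 + β) / 2 ^ (1 + β) * d ^ c * 2 ^ (1 + β)
          = (C ^ β * E ^ (1 + β)) * (C * d ^ c) := by
        field_simp
      rw [h11] at h10
      calc _ ≤ _ := h10
        _ = _ := by ring
    exact le_of_mul_le_mul_left h9 (by positivity)
  have h12 : C ≤ 2 ^ (1 + β) * K / d ^ c := by
    rw [le_div_iff₀ hdc]
    exact h8
  linarith

/-- The Erdős–Szekeres step. -/
theorem es_step {X Y C : ℝ} {k l : ℕ} (hXY : Real.exp (-X) + Real.exp (-Y) ≤ 1)
    (hX : 0 ≤ X) (hY : 0 ≤ Y) (hC : 1 ≤ C)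
    {V : Type} [DecidableEq V] (G : SimpleGraph V) (S : Finset V)
    (hR : ∀ v ∈ S, ((nb G v S).card : ℝ) + 1 ≤ C * Real.exp (X * (k - 1 : ℝ) + Y * l))
    (hB : ∀ v ∈ S, ((nb Gᶜ v S).card : ℝ) + 1 ≤ C * Real.exp (X * k + Y * (l - 1 : ℝ))) :
    (S.card : ℝ) + 1 ≤ C * Real.exp (X * k + Y * l) := by
  have hE1 : 1 ≤ Real.exp (X * k + Y * l) := by
    exact Real.one_le_exp (by positivity)
  rcases S.eq_empty_or_nonempty with rfl | ⟨v, hv⟩
  · simp only [Finset.card_empty, Nat.cast_zero, zero_add]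
    nlinarith
  · have hcard : (S.card : ℝ) = 1 + ((nb G v S).card + (nb Gᶜ v S).card) := by
      have := split_sum G S v hv (fun _ => (1:ℝ))
      simpa using this
    have h1 := hR v hv
    have h2 := hB v hv
    have h3 : Real.exp (X * (k - 1 : ℝ) + Y * l) = Real.exp (X * k + Y * l) * Real.exp (-X) := by
      rw [← Real.exp_add]
      congr 1
      ring
    have h4 : Real.exp (X * k + Y * (l - 1 : ℝ)) = Real.exp (X * k + Y * l) * Real.exp (-Y) := by
      rw [← Real.exp_add]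
      congr 1
      ring
    rw [h3] at h1
    rw [h4] at h2
    have h5 : C * (Real.exp (X * k + Y * l) * (Real.exp (-X) + Real.exp (-Y)))
        ≤ C * (Real.exp (X * k + Y * l) * 1) := by
      apply mul_le_mul_of_nonneg_left _ (by linarith)
      exact mul_le_mul_of_nonneg_left hXY (Real.exp_pos _).le
    rw [hcard]
    nlinarith

end Pool.Agent.H111R2
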